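import Mathlib

set_option autoImplicit false
set_option linter.unusedSectionVars false

namespace Pool.Agent.MP_9c0e17_co
open Polynomial Finset

section defs
variable {F : Type*} [CommRing F]

/-- cross product (characteristic two form) -/
def cr (x y : Fin 3 → F) : Fin 3 → F :=
  ![x 1 * y 2 + x 2 * y 1, x 2 * y 0 + x 0 * y 2, x 0 * y 1 + x 1 * y 0]

/-- dot product -/
def dt (a x : Fin 3 → F) : F := a 0 * x 0 + a 1 * x 1 + a 2 * x 2

/-- twisted dot product -/
def dq (a v : Fin 3 → F) : F := a 0 ^ 2 * v 0 + a 1 ^ 2 * v 1 + a 2 ^ 2 * v 2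

/-- the carry term -/
def e2 (a p : Fin 3 → F) : F :=
  a 0 * p 0 * (a 1 * p 1) + a 0 * p 0 * (a 2 * p 2) + a 1 * p 1 * (a 2 * p 2)

/-- the normal coordinate -/
def NN (φ : (Fin 3 → F) → Fin 3 → F) (a p : Fin 3 → F) : F := e2 a p + dq a (φ p)

@[simp] lemma cr0 (x y : Fin 3 → F) : cr x y 0 = x 1 * y 2 + x 2 * y 1 := rfl
@[simp] lemma cr1 (x y : Fin 3 → F) : cr x y 1 = x 2 * y 0 + x 0 * y 2 := rfl
@[simp] lemma cr2 (x y : Fin 3 → F) : cr x y 2 = x 0 * y 1 + x 1 * y 0 := rfl

lemma v3 {x y : Fin 3 → F} (h0 : x 0 = y 0) (h1 : x 1 = y 1) (h2 : x 2 = y 2) : x = y := by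
  funext i; fin_cases i <;> assumption

lemma cr_comm (x y : Fin 3 → F) : cr x y = cr y x := by
  apply v3 <;> simp <;> ring

lemma NN_smul (φ : (Fin 3 → F) → Fin 3 → F) (c : F) (a p : Fin 3 → F) :
    NN φ (c • a) p = c ^ 2 * NN φ a p := by
  simp [NN, e2, dq]; ring

end defs

/-- weak homogeneity -/
def Hom {F : Type*} [CommRing F] (φ : (Fin 3 → F) → Fin 3 → F) : Prop :=
  ∀ a p : Fin 3 → F, ∀ c : F, dt a p = 0 → dq a (φ (c • p)) = c ^ 2 * dq a (φ p)

lemma Hom.NN {F : Type*} [CommRing F] {φ : (Fin 3 → F) → Fin 3 → F} (h : Hom φ)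
    (a p : Fin 3 → F) (c : F) (hp : dt a p = 0) : NN φ a (c • p) = c ^ 2 * NN φ a p := by
  unfold Pool.Agent.MP_9c0e17_co.NN
  rw [h a p c hp]; simp [e2]; ring

section fin
variable {F : Type*} [Field F] [Fintype F]

/-- a function given by a polynomial of bounded degree -/
def DegLE (f : F → F) (n : ℕ) : Prop := ∃ P : F[X], P.natDegree ≤ n ∧ ∀ t, f t = P.eval t

lemma psum [CharP F 2] (n : ℕ) :
    ∑ t : F, t ^ n = if n ≠ 0 ∧ (Fintype.card F - 1) ∣ n then 1 else 0 := by
  classical
  by_cases hn : n = 0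
  · subst hn; simp
  · have h1 : ∑ t : F, t ^ n = ∑ x : Fˣ, (x : F) ^ n := by
      let φ : Fˣ ↪ F := ⟨fun x ↦ x, Units.val_injective⟩
      have : Finset.univ.map φ = Finset.univ \ {0} := by
        ext x
        simp only [mem_map, mem_univ, Function.Embedding.coeFn_mk, true_and, mem_sdiff,
          mem_singleton, φ]
        exact isUnit_iff_ne_zero
      rw [← sum_sdiff ({0} : Finset F).subset_univ, sum_singleton, zero_pow hn, add_zero,
        ← this, univ.sum_map φ]
      rfl
    rw [h1, FiniteField.sum_pow_units]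
    by_cases h : Fintype.card F - 1 ∣ n <;> simp [h, hn, CharTwo.neg_eq]

lemma mom_zero (P : F[X]) (k : ℕ) (h : P.natDegree + k < Fintype.card F - 1) :
    ∑ t : F, P.eval t * t ^ k = 0 := by
  simp_rw [eval_eq_sum_range, Finset.sum_mul]
  rw [Finset.sum_comm]
  refine Finset.sum_eq_zero fun i hi => ?_
  have : i + k < Fintype.card F - 1 := by have := mem_range.1 hi; omega
  simp_rw [mul_assoc, ← pow_add]
  rw [← Finset.mul_sum, FiniteField.sum_pow_lt_card_sub_one F _ this, mul_zero]

lemma DegLE.mom {f : F → F} {n : ℕ} (hf : DegLE f n) (k : ℕ)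
    (h : n + k < Fintype.card F - 1) : ∑ t : F, f t * t ^ k = 0 := by
  obtain ⟨P, hP, hf⟩ := hf
  simp_rw [hf]; exact mom_zero P k (by omega)

lemma mom_coeff [CharP F 2] (P : F[X]) (hP : P.natDegree ≤ Fintype.card F - 1) (n : ℕ)
    (h1 : 1 ≤ n) (h2 : n ≤ Fintype.card F - 1) :
    ∑ t : F, P.eval t * t ^ (Fintype.card F - 1 - n) = P.coeff n := by
  have hq : P.natDegree < Fintype.card F := by have := Fintype.one_lt_card (α := F); omega
  simp_rw [eval_eq_sum_range' hq, Finset.sum_mul]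
  rw [Finset.sum_comm]
  simp_rw [mul_assoc, ← pow_add, ← Finset.mul_sum, psum]
  rw [Finset.sum_eq_single n]
  · have : n + (Fintype.card F - 1 - n) = Fintype.card F - 1 := by omega
    rw [this, if_pos ⟨by omega, dvd_rfl⟩, mul_one]
  · intro i hi hin
    rw [if_neg, mul_zero]
    rintro ⟨h0, c, hc⟩
    have := mem_range.1 hi
    rcases c with _ | _ | c
    · omega
    · omega
    · have : (Fintype.card F - 1) * (c + 1 + 1) =
          (Fintype.card F - 1) * c + 2 * (Fintype.card F - 1) := by ring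
      omega
  · intro hn; exact absurd (mem_range.2 (by omega)) hn

lemma exists_poly (f : F → F) : DegLE f (Fintype.card F - 1) := by
  classical
  refine ⟨Lagrange.interpolate univ id f, ?_, fun t => ?_⟩
  · have := Lagrange.degree_interpolate_lt (s := (univ : Finset F)) (v := id) f
      (Function.injective_id.injOn)
    rw [card_univ] at this
    by_cases h0 : Lagrange.interpolate univ id f = 0
    · rw [h0]; simp
    · have := (natDegree_lt_iff_degree_lt h0).2 this
      omega
  · exact (Lagrange.eval_interpolate_at_node f Function.injective_id.injOn (mem_univ t)).symm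

/-- a polynomial vanishing outside a small set is zero -/
lemma zero_of_eval (P : F[X]) (E : Finset F) (h : ∀ t, t ∉ E → P.eval t = 0)
    (hd : P.natDegree + E.card < Fintype.card F) : P = 0 := by
  classical
  refine eq_zero_of_natDegree_lt_card_of_eval_eq_zero' P (univ \ E) (fun t ht => h t ?_) ?_
  · exact (mem_sdiff.1 ht).2
  · rw [card_sdiff_of_subset (subset_univ E), card_univ]; omega

lemma eq_of_eval (P Q : F[X]) (E : Finset F) (n : ℕ) (h : ∀ t, t ∉ E → P.eval t = Q.eval t)
    (hP : P.natDegree ≤ n) (hQ : Q.natDegree ≤ n) (hd : n + E.card < Fintype.card F) :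
    P = Q := by
  refine sub_eq_zero.1 (zero_of_eval _ E (fun t ht => by rw [eval_sub, h t ht, sub_self]) ?_)
  have := natDegree_sub_le P Q
  omega

/-- reversal of polynomial functions -/
lemma rev_coeff (P Q : F[X]) (n : ℕ) (hP : P.natDegree ≤ n) (hQ : Q.natDegree ≤ n)
    (hn : n + 1 < Fintype.card F) (h : ∀ t, t ≠ 0 → Q.eval t = t ^ n * P.eval t⁻¹) (i : ℕ)
    (hi : i ≤ n) : Q.coeff i = P.coeff (n - i) := by
  classical
  have : Q = reflect n P := by
    refine eq_of_eval _ _ {0} n (fun t ht => ?_) hQ ?_ (by simpa using hn)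
    · have ht : t ≠ 0 := by simpa using ht
      let _ : Invertible t⁻¹ := invertibleOfNonzero (inv_ne_zero ht)
      have := eval₂_reflect_mul_pow (RingHom.id F) t⁻¹ n P hP
      simp only [invOf_eq_inv, inv_inv, eval₂_id] at this
      rw [h t ht, ← this, mul_left_comm, ← mul_pow, mul_inv_cancel₀ ht, one_pow, mul_one]
    · exact natDegree_reflect_le.trans (by omega)
  rw [this, coeff_reflect, revAt_le hi]

lemma DegLE.add {f g : F → F} {n : ℕ} (hf : DegLE f n) (hg : DegLE g n) :
    DegLE (fun t => f t + g t) n := by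
  obtain ⟨P, hP, hf⟩ := hf
  obtain ⟨Q, hQ, hg⟩ := hg
  exact ⟨P + Q, (natDegree_add_le P Q).trans (max_le hP hQ), fun t => by simp [hf, hg]⟩

lemma DegLE.pow {f : F → F} {n : ℕ} (hf : DegLE f n) (k : ℕ) :
    DegLE (fun t => f t ^ k) (k * n) := by
  obtain ⟨P, hP, hf⟩ := hf
  exact ⟨P ^ k, natDegree_pow_le.trans (Nat.mul_le_mul_left k hP), fun t => by simp [hf]⟩

lemma DegLE.mono {f : F → F} {n m : ℕ} (hf : DegLE f n) (h : n ≤ m) : DegLE f m := by
  obtain ⟨P, hP, hf⟩ := hf
  exact ⟨P, hP.trans h, hf⟩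

lemma DegLE.congr {f g : F → F} {n : ℕ} (hf : DegLE f n) (h : ∀ t, g t = f t) : DegLE g n := by
  obtain ⟨P, hP, hf⟩ := hf
  exact ⟨P, hP, fun t => (h t).trans (hf t)⟩

lemma degLE_quad (a b c : F) : DegLE (fun t => a + b * t + c * t ^ 2) 2 :=
  ⟨C a + C b * X + C c * X ^ 2, by compute_degree, fun t => by simp⟩

end fin

/-- Lucas for a power of two -/
lemma lucas (j : ℕ) : ∀ n k a b : ℕ, a < 2 ^ j → b < 2 ^ j →
    (2 ^ j * n + a).choose (2 ^ j * k + b) ≡ n.choose k * a.choose b [MOD 2] := by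
  induction j with
  | zero => intro n k a b ha hb; obtain rfl : a = 0 := by omega
            obtain rfl : b = 0 := by omega
            simp [Nat.ModEq.refl]
  | succ j ih =>
    intro n k a b ha hb
    have h1 := Choose.choose_modEq_choose_mod_mul_choose_div_nat (p := 2)
      (n := 2 ^ (j + 1) * n + a) (k := 2 ^ (j + 1) * k + b)
    have h2 := Choose.choose_modEq_choose_mod_mul_choose_div_nat (p := 2) (n := a) (k := b)
    have e1 : (2 ^ (j + 1) * n + a) % 2 = a % 2 := by rw [pow_succ]; rw [mul_right_comm]; omega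
    have e2 : (2 ^ (j + 1) * k + b) % 2 = b % 2 := by rw [pow_succ]; rw [mul_right_comm]; omega
    have e3 : (2 ^ (j + 1) * n + a) / 2 = 2 ^ j * n + a / 2 := by
      rw [pow_succ]; rw [mul_right_comm]; omega
    have e4 : (2 ^ (j + 1) * k + b) / 2 = 2 ^ j * k + b / 2 := by
      rw [pow_succ]; rw [mul_right_comm]; omega
    rw [e1, e2, e3, e4] at h1
    have h3 := ih n k (a / 2) (b / 2) (by rw [pow_succ] at ha; omega) (by rw [pow_succ] at hb; omega)
    refine h1.trans ((h3.mul_left _).trans ?_)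
    rw [mul_left_comm]
    exact (h2.symm).mul_left _

lemma choose_full (j : ℕ) : ∀ l, l < 2 ^ j → (2 ^ j - 1).choose l ≡ 1 [MOD 2] := by
  induction j with
  | zero => intro l hl; obtain rfl : l = 0 := by omega
            rfl
  | succ j ih =>
    intro l hl
    have hp : 0 < 2 ^ j := by positivity
    have h := lucas 1 (2 ^ j - 1) (l / 2) 1 (l % 2) (by norm_num) (by omega)
    have e1 : 2 ^ 1 * (2 ^ j - 1) + 1 = 2 ^ (j + 1) - 1 := by rw [pow_succ 2 j]; omega
    have e2 : 2 ^ 1 * (l / 2) + l % 2 = l := by omega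
    rw [e1, e2] at h
    refine h.trans ?_
    have h2 := ih (l / 2) (by rw [pow_succ] at hl; omega)
    have h3 : Nat.choose 1 (l % 2) = 1 := by
      rcases Nat.mod_two_eq_zero_or_one l with h | h <;> simp [h]
    rw [h3, mul_one]; exact h2

lemma cast_of_modEq {F : Type*} [Ring F] [CharP F 2] {a b : ℕ} (h : a ≡ b [MOD 2]) :
    (a : F) = b := (CharP.natCast_eq_natCast F 2).2 h

end Pool.Agent.MP_9c0e17_co
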