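import Pool.Agent.MP_9c0e17_co.Basic

set_option autoImplicit false
set_option linter.unusedSectionVars false

namespace Pool.Agent.MP_9c0e17_co
open Polynomial Finset

lemma quad_zero {k : Type*} [Field k] (a b c : k) (E : Finset k) (hE : 2 < E.card)
    (h : ∀ s ∈ E, a + b * s + c * s ^ 2 = 0) : a = 0 ∧ b = 0 ∧ c = 0 := by
  have h := eq_zero_of_natDegree_lt_card_of_eval_eq_zero' (C a + C b * X + C c * X ^ 2) E
    (fun s hs => by rw [← h s hs]; simp) (lt_of_le_of_lt (by compute_degree) hE)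
  have k := fun i => congrArg (fun P : k[X] => P.coeff i) h
  have k0 := k 0
  have k1 := k 1
  have k2 := k 2
  simp [coeff_X, coeff_C, coeff_X_pow] at k0 k1 k2
  exact ⟨k0, k1, k2⟩

lemma eval_quad {k : Type*} [Field k] (P : k[X]) (h : P.natDegree ≤ 2) (t : k) :
    P.eval t = P.coeff 0 + P.coeff 1 * t + P.coeff 2 * t ^ 2 := by
  rw [eval_eq_sum_range' (show P.natDegree < 3 by omega)]
  simp [sum_range_succ]

lemma card_roots_le {k : Type*} [Field k] [DecidableEq k] (P : k[X]) :
    P.roots.toFinset.card ≤ P.natDegree :=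
  (Multiset.toFinset_card_le _).trans (card_roots' _)

variable {F : Type*} [Field F] [Fintype F] [CharP F 2]

lemma ex_sqrt (a : F) : ∃ b : F, b ^ 2 = a := surjective_frobenius F 2 a

lemma ex_notMem (E : Finset F) (h : E.card < Fintype.card F) : ∃ t, t ∉ E := by
  by_contra h'
  push Not at h'
  rw [eq_univ_of_forall h', card_univ] at h
  omega

lemma few_bad (hq : 32 ≤ Fintype.card F) (S : Finset F) (E E' : F → Finset F)
    (hE : ∀ a, (E a).card ≤ 3) (hE' : ∀ a, (E' a).card ≤ 3)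
    (h : ∀ a ∈ S, ∀ b, b ∉ E a → a ∈ E' b) : S.card ≤ 3 := by
  classical
  by_contra hc
  obtain ⟨T, hT, h4⟩ := exists_subset_card_eq (show 4 ≤ S.card by omega)
  obtain ⟨b, hb⟩ := ex_notMem (T.biUnion E) (by
    have := card_biUnion_le_card_mul T E 3 fun a _ => hE a
    omega)
  have : T ⊆ E' b := fun a ha => h a (hT ha) b fun h' => hb (mem_biUnion.2 ⟨a, ha, h'⟩)
  have := card_le_card this
  have := hE' b
  omega

lemma const_of_family (G : Finset F) (hG : 15 ≤ G.card) (π : F → F[X]) (N0 N1 N2 D : F[X])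
    (hD : D ≠ 0) (hd : D.natDegree ≤ 6)
    (h : ∀ a ∈ G, π a * (N0 + C a * N1 + C (a ^ 2) * N2) = D) :
    ∃ (n0 n1 n2 : F) (D' : F[X]), D' ≠ 0 ∧ ∀ a ∈ G, π a * C (n0 + n1 * a + n2 * a ^ 2) = D' := by
  classical
  obtain ⟨g, hg⟩ : ∃ g, g = EuclideanDomain.gcd N0 (EuclideanDomain.gcd N1 N2) := ⟨_, rfl⟩
  obtain ⟨n0, h0⟩ : g ∣ N0 := hg ▸ EuclideanDomain.gcd_dvd_left _ _
  obtain ⟨n1, h1⟩ : g ∣ N1 :=
    hg ▸ (EuclideanDomain.gcd_dvd_right _ _).trans (EuclideanDomain.gcd_dvd_left _ _)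
  obtain ⟨n2, h2⟩ : g ∣ N2 :=
    hg ▸ (EuclideanDomain.gcd_dvd_right _ _).trans (EuclideanDomain.gcd_dvd_right _ _)
  obtain ⟨u0, u1, u2, hu⟩ : ∃ u0 u1 u2, g = N0 * u0 + N1 * u1 + N2 * u2 := by
    rw [EuclideanDomain.gcd_eq_gcd_ab] at hg
    generalize EuclideanDomain.gcdA N0 _ = x at hg
    generalize EuclideanDomain.gcdB N0 _ = y at hg
    rw [EuclideanDomain.gcd_eq_gcd_ab] at hg
    exact ⟨x, EuclideanDomain.gcdA N1 N2 * y, EuclideanDomain.gcdB N1 N2 * y, by rw [hg]; ring⟩
  clear hg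
  subst h0 h1 h2
  obtain ⟨a1, ha1⟩ : G.Nonempty := card_pos.1 (by omega)
  have hg0 : g ≠ 0 := by
    rintro rfl
    have := h a1 ha1
    simp at this
    exact hD this.symm
  have hb : n0 * u0 + n1 * u1 + n2 * u2 = 1 := mul_left_cancel₀ hg0 (by linear_combination -hu)
  obtain ⟨D', hD'⟩ : ∃ D', D' = π a1 * (n0 + C a1 * n1 + C (a1 ^ 2) * n2) := ⟨_, rfl⟩
  have hDD : g * D' = D := by rw [← h a1 ha1, hD']; ring
  have hD0 : D' ≠ 0 := by rintro rfl; simp at hDD; exact hD hDD.symm
  have hd' : D'.natDegree ≤ 6 := (natDegree_le_of_dvd ⟨g, by rw [← hDD]; ring⟩ hD).trans hd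
  have h' : ∀ a ∈ G, π a * (n0 + C a * n1 + C (a ^ 2) * n2) = D' := fun a ha =>
    mul_left_cancel₀ hg0 (by rw [hDD, ← h a ha]; ring)
  let K := AlgebraicClosure F
  have hroot : ∀ a : F, ∃ θ : K, (n0 + C a * n1 + C (a ^ 2) * n2).natDegree ≠ 0 →
      aeval θ (n0 + C a * n1 + C (a ^ 2) * n2) = 0 := fun a => by
    by_cases h0 : (n0 + C a * n1 + C (a ^ 2) * n2).natDegree = 0
    · exact ⟨0, fun h => absurd h0 h⟩
    · obtain ⟨θ, hθ⟩ := IsAlgClosed.exists_aeval_eq_zero K _
        (natDegree_pos_iff_degree_pos.1 (Nat.pos_of_ne_zero h0)).ne'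
      exact ⟨θ, fun _ => hθ⟩
  choose θ hθ using hroot
  have hbad := card_le_mul_card_image_of_maps_to (f := θ)
    (s := G.filter fun a => (n0 + C a * n1 + C (a ^ 2) * n2).natDegree ≠ 0)
    (t := (D'.map (algebraMap F K)).roots.toFinset) (fun a ha => by
      obtain ⟨ha, hn⟩ := mem_filter.1 ha
      rw [Multiset.mem_toFinset, mem_roots (map_ne_zero hD0), IsRoot, eval_map_algebraMap,
        ← h' a ha, map_mul, hθ a hn, mul_zero]) 2 (fun t _ => by
      by_contra hc
      obtain ⟨e0, e1, e2⟩ := quad_zero (aeval t n0) (aeval t n1) (aeval t n2) _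
        (by rw [card_image_of_injective _ (algebraMap F K).injective]; exact not_le.1 hc)
        (fun s hs => by
          obtain ⟨a, ha, rfl⟩ := mem_image.1 hs
          have h2 := mem_filter.1 ha
          rw [← hθ a (mem_filter.1 h2.1).2, ← h2.2]; simp; ring)
      have := congrArg (aeval t) hb
      simp [e0, e1, e2] at this)
  have h6 := card_roots_le (D'.map (algebraMap F K))
  rw [natDegree_map] at h6
  have hsplit := card_filter_add_card_filter_not (s := G)
    (fun a => (n0 + C a * n1 + C (a ^ 2) * n2).natDegree ≠ 0)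
  have hcoef : ∀ i, i ≠ 0 → n0.coeff i = 0 ∧ n1.coeff i = 0 ∧ n2.coeff i = 0 := fun i hi =>
    quad_zero _ _ _ (G.filter fun a => ¬(n0 + C a * n1 + C (a ^ 2) * n2).natDegree ≠ 0)
      (by omega) fun a ha => by
        have := coeff_eq_zero_of_natDegree_lt (p := n0 + C a * n1 + C (a ^ 2) * n2) (n := i)
          (by have := (mem_filter.1 ha).2; omega)
        rw [← this]
        simp only [coeff_add, coeff_C_mul]; ring
  refine ⟨n0.coeff 0, n1.coeff 0, n2.coeff 0, D', hD0, fun a ha => ?_⟩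
  rw [← h' a ha]
  congr 1
  ext i
  simp only [coeff_add, coeff_C_mul, coeff_C]
  split_ifs with hi
  · subst hi; ring
  · obtain ⟨e0, e1, e2⟩ := hcoef i hi
    simp [e0, e1, e2]

theorem grid (hq : 32 ≤ Fintype.card F) (U W : F → F → F) (hUW : ∀ a b, W a b = 0 → U a b ≠ 0)
    (hrow : ∀ b, ∃ (ρ : F[X]) (E : Finset F), ρ.natDegree ≤ 2 ∧ E.card ≤ 3 ∧
      (∀ a, a ∉ E → U a b ≠ 0) ∧ ∀ a, U a b ≠ 0 → (W a b / U a b) ^ 2 = ρ.eval a)
    (hdiag : ∀ m c, ∃ (ρ : F[X]) (E : Finset F), ρ.natDegree ≤ 2 ∧ E.card ≤ 3 ∧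
      (∀ b, b ∉ E → W (m * b + c) b + m * U (m * b + c) b ≠ 0) ∧
      ∀ b, W (m * b + c) b + m * U (m * b + c) b ≠ 0 →
        (U (m * b + c) b / (W (m * b + c) b + m * U (m * b + c) b)) ^ 2 = ρ.eval b) : False := by
  classical
  have hcol := hdiag 0
  simp only [zero_mul, zero_add, add_zero] at hcol
  choose π Ec hπ hEc hc1 hc2 using hcol
  choose ρ Er hρ hEr hr1 hr2 using hrow
  have hBC : (univ.filter fun a => π a = 0).card ≤ 3 := few_bad hq _ Ec Er hEc hEr
    fun a ha b hb => by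
      by_contra h
      have := hc2 a b (hc1 a b hb)
      rw [(mem_filter.1 ha).2, eval_zero] at this
      simp [hc1 a b hb, hr1 b a h] at this
  have hBR : (univ.filter fun b => ρ b = 0).card ≤ 3 := few_bad hq _ Er Ec hEr hEc
    fun b hb a ha => by
      by_contra h
      have := hr2 b a (hr1 b a ha)
      rw [(mem_filter.1 hb).2, eval_zero] at this
      simp [hc1 a b h, hr1 b a ha] at this
  obtain ⟨G, hG, hGc⟩ : ∃ G : Finset F, (∀ a, a ∈ G ↔ π a ≠ 0) ∧ Fintype.card F ≤ G.card + 3 := by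
    refine ⟨univ.filter fun a => ¬π a = 0, by simp, ?_⟩
    have := card_filter_add_card_filter_not (s := univ) (fun a => π a = 0)
    rw [card_univ] at this
    omega
  have hinv : ∀ a b, W a b ≠ 0 → U a b ≠ 0 → (ρ b).eval a * (π a).eval b = 1 := fun a b h1 h2 => by
    rw [← hc2 a b h1, ← hr2 b a h2]; field_simp
  obtain ⟨X5, hX5, hX⟩ : ∃ X5 : F → Finset F, (∀ a, (X5 a).card ≤ 5) ∧
      ∀ a ∈ G, ∀ b, b ∉ X5 a → (ρ b).eval a * (π a).eval b = 1 := by
    refine ⟨fun a => Ec a ∪ (π a).roots.toFinset, fun a => ?_, fun a ha b hb => ?_⟩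
    · have := card_union_le (Ec a) (π a).roots.toFinset
      have := card_roots_le (π a)
      have := hEc a
      have := hπ a
      show (Ec a ∪ (π a).roots.toFinset).card ≤ 5
      omega
    · rw [mem_union, not_or, Multiset.mem_toFinset, mem_roots ((hG a).1 ha)] at hb
      refine hinv a b (hc1 a b hb.1) fun h0 => hb.2 ?_
      rw [IsRoot, ← hc2 a b (hc1 a b hb.1), h0]; simp
  obtain ⟨a1, a2, a3, h1, h2, h3, h12, h13, h23⟩ := two_lt_card_iff.1 (show 2 < G.card by omega)
  have k12 := sub_ne_zero.2 h12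
  have k13 := sub_ne_zero.2 h13
  have k23 := sub_ne_zero.2 h23
  obtain ⟨n0, n1, n2, D, hD0, hD⟩ := const_of_family G (by omega) π
    (C (a2 * a3 / ((a1 - a2) * (a1 - a3))) * (π a2 * π a3)
      - C (a1 * a3 / ((a1 - a2) * (a2 - a3))) * (π a1 * π a3)
      + C (a1 * a2 / ((a1 - a3) * (a2 - a3))) * (π a1 * π a2))
    (-C ((a2 + a3) / ((a1 - a2) * (a1 - a3))) * (π a2 * π a3)
      + C ((a1 + a3) / ((a1 - a2) * (a2 - a3))) * (π a1 * π a3)
      - C ((a1 + a2) / ((a1 - a3) * (a2 - a3))) * (π a1 * π a2))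
    (C (1 / ((a1 - a2) * (a1 - a3))) * (π a2 * π a3)
      - C (1 / ((a1 - a2) * (a2 - a3))) * (π a1 * π a3)
      + C (1 / ((a1 - a3) * (a2 - a3))) * (π a1 * π a2))
    (π a1 * π a2 * π a3)
    (mul_ne_zero (mul_ne_zero ((hG _).1 h1) ((hG _).1 h2)) ((hG _).1 h3))
    (by have := hπ a1; have := hπ a2; have := hπ a3; compute_degree; omega) (fun a ha => by
      refine eq_of_eval _ _ (X5 a ∪ X5 a1 ∪ X5 a2 ∪ X5 a3) 6 (fun b hb => ?_) ?_ ?_ ?_
      · simp only [mem_union, not_or] at hb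
        have e := hX a ha b hb.1.1.1
        have e1 := hX a1 h1 b hb.1.1.2
        have e2 := hX a2 h2 b hb.1.2
        have e3 := hX a3 h3 b hb.2
        have lag : (ρ b).eval a = (a - a2) * (a - a3) / ((a1 - a2) * (a1 - a3)) * (ρ b).eval a1
            - (a - a1) * (a - a3) / ((a1 - a2) * (a2 - a3)) * (ρ b).eval a2
            + (a - a1) * (a - a2) / ((a1 - a3) * (a2 - a3)) * (ρ b).eval a3 := by
          simp only [eval_quad _ (hρ b)]
          field_simp; ring
        simp only [eval_mul, eval_add, eval_sub, eval_neg, eval_C]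
        generalize (π a).eval b = p at *
        generalize (π a1).eval b = p1 at *
        generalize (π a2).eval b = p2 at *
        generalize (π a3).eval b = p3 at *
        linear_combination (p1 * p2 * p3) * e - p * p1 * p2 * p3 * lag
          - p * p2 * p3 * ((a - a2) * (a - a3) / ((a1 - a2) * (a1 - a3))) * e1
          + p * p1 * p3 * ((a - a1) * (a - a3) / ((a1 - a2) * (a2 - a3))) * e2
          - p * p1 * p2 * ((a - a1) * (a - a2) / ((a1 - a3) * (a2 - a3))) * e3
      · have := hπ a; have := hπ a1; have := hπ a2; have := hπ a3; compute_degree; omega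
      · have := hπ a1; have := hπ a2; have := hπ a3; compute_degree; omega
      · have := card_union_le (X5 a ∪ X5 a1 ∪ X5 a2) (X5 a3)
        have := card_union_le (X5 a ∪ X5 a1) (X5 a2)
        have := card_union_le (X5 a) (X5 a1)
        have := hX5 a; have := hX5 a1; have := hX5 a2; have := hX5 a3
        omega)
  have hn : ∀ a ∈ G, n0 + n1 * a + n2 * a ^ 2 ≠ 0 := fun a ha h0 => by
    have := hD a ha
    rw [h0] at this
    exact hD0 (by simpa using this.symm)
  have hDd : D.natDegree ≤ 2 := by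
    rw [← hD a1 h1]; exact (natDegree_mul_C_le _ _).trans (hπ a1)
  have hDe : ∀ a ∈ G, ∀ b, (π a).eval b * (n0 + n1 * a + n2 * a ^ 2) = D.eval b := fun a ha b => by
    rw [← hD a ha, eval_mul, eval_C]
  have hcompl : (univ \ G).card ≤ 3 := by
    rw [card_sdiff_of_subset (subset_univ _), card_univ]; omega
  have hW : ∀ a ∈ G, ∀ b, ρ b ≠ 0 → D.eval b ≠ 0 → W a b ≠ 0 := by
    intro a ha b hb hDb hW
    have : ρ b * C (D.eval b) = C n0 + C n1 * X + C n2 * X ^ 2 := by
      refine eq_of_eval _ _ ((univ \ G) ∪ Er b ∪ (ρ b).roots.toFinset) 2 (fun s hs => ?_)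
        ((natDegree_mul_C_le _ _).trans (hρ b)) (by compute_degree) ?_
      · simp only [mem_union, not_or, mem_sdiff, mem_univ, true_and, not_not,
          Multiset.mem_toFinset, mem_roots hb] at hs
        have hU := hr1 b s hs.1.2
        have := hinv s b (fun h0 => hs.2 (by rw [IsRoot, ← hr2 b s hU, h0]; simp)) hU
        simp only [eval_mul, eval_add, eval_C, eval_X, eval_pow]
        rw [← hDe s hs.1.1 b, ← mul_assoc, this, one_mul]
      · have := card_union_le ((univ \ G) ∪ Er b) (ρ b).roots.toFinset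
        have := card_union_le (univ \ G) (Er b)
        have := card_roots_le (ρ b)
        have := hρ b; have := hEr b
        omega
    have := congrArg (eval a) this
    simp only [eval_mul, eval_add, eval_C, eval_X, eval_pow] at this
    rw [← hr2 b a (hUW a b hW), hW] at this
    exact hn a ha (by rw [← this]; simp)
  obtain ⟨b0, hb0⟩ := ex_notMem D.roots.toFinset (by have := card_roots_le D; omega)
  rw [Multiset.mem_toFinset, mem_roots hD0, IsRoot] at hb0
  obtain ⟨m, hm⟩ := ex_sqrt ((n0 + n1 * a1 + n2 * a1 ^ 2) / D.eval b0)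
  have hm0 : m ≠ 0 := by
    rintro rfl
    exact div_ne_zero (hn a1 h1) hb0 (by rw [← hm]; simp)
  obtain ⟨c, hc⟩ : ∃ c, m * b0 + c = a1 := ⟨a1 - m * b0, by ring⟩
  obtain ⟨τ, E, hτ, hE, ht1, ht2⟩ := hdiag m c
  have key : τ * (C n0 + C n1 * (C m * X + C c) + C n2 * (C m * X + C c) ^ 2 + C (m ^ 2) * D)
      = D := by
    refine eq_of_eval _ _ (E ∪ (univ.filter fun b => ρ b = 0) ∪ D.roots.toFinset ∪
      (univ \ G).image fun a => (a - c) / m) 4 (fun b hb => ?_) (by compute_degree; omega)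
      (by omega) ?_
    · simp only [mem_union, not_or, mem_filter, mem_univ, true_and, Multiset.mem_toFinset,
        mem_roots hD0, mem_image, mem_sdiff, not_exists, not_and] at hb
      have ha : m * b + c ∈ G := by
        by_contra h
        exact hb.2 _ h (by field_simp; ring)
      have w := hW _ ha b hb.1.1.2 hb.1.2
      have e1 := hDe _ ha b
      have e2 := ht1 b hb.1.1.1
      rw [← hc2 _ _ w] at e1
      simp only [eval_mul, eval_add, eval_C, eval_X, eval_pow]
      rw [← ht2 b e2, ← e1]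
      generalize n0 + n1 * (m * b + c) + n2 * (m * b + c) ^ 2 = n
      generalize W (m * b + c) b = w' at *
      generalize U (m * b + c) b = u at *
      have e3 : (w' + m * u) ^ 2 = w' ^ 2 + u ^ 2 * m ^ 2 := by
        rw [CharTwo.add_sq, mul_pow, mul_comm]
      have e4 := pow_ne_zero 2 e2
      rw [e3] at e4
      rw [div_pow, div_pow, e3]
      field_simp
    · have := card_union_le (E ∪ (univ.filter fun b => ρ b = 0) ∪ D.roots.toFinset)
        ((univ \ G).image fun a => (a - c) / m)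
      have := card_union_le (E ∪ (univ.filter fun b => ρ b = 0)) D.roots.toFinset
      have := card_union_le E (univ.filter fun b => ρ b = 0)
      have := card_roots_le D
      have := card_image_le (s := univ \ G) (f := fun a => (a - c) / m)
      omega
  have := congrArg (eval b0) key
  simp only [eval_mul, eval_add, eval_C, eval_X, eval_pow] at this
  rw [hc, hm, div_mul_cancel₀ _ hb0, CharTwo.add_self_eq_zero, mul_zero] at this
  exact hb0 this.symm

end Pool.Agent.MP_9c0e17_co
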