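import Pool.Agent.MP_9c0e17_co.Pencil
import Pool.Agent.MP_9c0e17_co.Grid

set_option autoImplicit false
set_option linter.unusedSectionVars false

namespace Pool.Agent.MP_9c0e17_co
open Polynomial Finset

variable {F : Type*} [Field F] [Fintype F] [CharP F 2]

lemma mom_cubic (hq : 4 ≤ Fintype.card F) (a b c d : F) :
    ∑ t : F, (a + b * t + c * t ^ 2 + d * t ^ 3) * t ^ (Fintype.card F - 1 - 1) = b := by
  have := mom_coeff (C a + C b * X + C c * X ^ 2 + C d * X ^ 3)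
    (le_trans (by compute_degree) (show 3 ≤ _ by omega)) 1 le_rfl (by omega)
  simpa [coeff_X, coeff_C, coeff_X_pow] using this

lemma nonsplit {φ : (Fin 3 → F) → Fin 3 → F} {r j : ℕ} (hq : Fintype.card F = 2 ^ r)
    (hj1 : 2 ≤ j) (hj : j < r) (h : Lev φ j) (x y0 y1 : Fin 3 → F)
    (h0 : ∀ m c : F, cf φ j (2 ^ (j - 1)) (x + m • y1) (y0 + c • y1) = 0) :
    dt (cr x y0) y1 = 0 := by
  have hle := two_pow_le hq hj
  have he := pow2 (show 1 ≤ j by omega)
  have h4 : 2 ^ 2 ≤ 2 ^ j := Nat.pow_le_pow_right (by norm_num) hj1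
  obtain ⟨Q, hQ⟩ : ∃ Q, Q = Fintype.card F - 1 := ⟨_, rfl⟩
  have h1 : ∀ x y : Fin 3 → F, cf φ j (2 ^ (j - 1)) x y = 0 →
      ∑ t : F, dq (cr x y) (φ (y + t • x)) * t ^ (Q - 1) = dq (cr x y) (x * y) := by
    intro x y h
    have h2 : ∑ t : F, NN φ (cr x y) (y + t • x) * t ^ (Q - 1) = 0 := by
      refine pow_eq_zero_iff (n := 2 ^ (j - 1)) (by positivity) |>.1 ?_
      rw [sum_pow_char_pow, ← h]
      refine sum_congr rfl fun t _ => ?_
      rw [mul_pow, ← pow_mul, ← hQ]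
      congr 1
      by_cases ht : t = 0
      · rw [ht, zero_pow, zero_pow (by omega)]
        exact mul_ne_zero (by omega) (by omega)
      · refine mul_right_cancel₀ (pow_ne_zero (2 ^ (j - 1)) ht) ?_
        have h1 : t ^ Q = 1 := hQ ▸ FiniteField.pow_card_sub_one_eq_one t ht
        rw [← pow_add, ← pow_add, ← Nat.succ_mul, show (Q - 1).succ = Q by omega,
          Nat.sub_add_cancel (by omega), pow_mul, h1, one_pow]
    have h3 := mom_cubic (by omega) (e2 (cr x y) y) (dq (cr x y) (x * y)) (e2 (cr x y) x) 0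
    rw [← h3, ← hQ, ← CharTwo.add_eq_zero, ← sum_add_distrib]
    refine Eq.trans (sum_congr rfl fun t _ => ?_) h2
    rw [NN, e2_line]; ring
  have h2 := lev_expand
    (fun s t => dq (cr x (y0 + s • y1 + t • x)) (φ (y0 + s • y1 + t • x)))
    (fun s t => dq (cr y1 (y0 + s • y1 + t • x)) (φ (y0 + s • y1 + t • x))) 2
    (Q - 1) (Q - 1) (Q - 1)
  rw [sum_eq_zero] at h2
  · have h3 : ∀ m c : F, ∑ t : F, (dq (cr x (y0 + (m * t + c) • y1 + t • x))
        (φ (y0 + (m * t + c) • y1 + t • x)) + m ^ 2 * dq (cr y1 (y0 + (m * t + c) • y1 + t • x))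
        (φ (y0 + (m * t + c) • y1 + t • x))) * t ^ (Q - 1) =
        dq (cr (x + m • y1) (y0 + c • y1)) ((x + m • y1) * (y0 + c • y1)) := fun m c => by
      rw [← h1 _ _ (h0 m c)]
      refine sum_congr rfl fun t _ => ?_
      have e : y0 + c • y1 + t • (x + m • y1) = y0 + (m * t + c) • y1 + t • x := by
        apply v3 <;> simp <;> ring
      rw [e]; congr 1; simp [dq]; grind
    simp only [h3] at h2
    have h4 : ∀ m : F, ∑ c : F, m ^ (Q - 1) * c ^ (Q - 1) *
        dq (cr (x + m • y1) (y0 + c • y1)) ((x + m • y1) * (y0 + c • y1)) =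
        (dq (cr x y0) (x * y1) + dq (cr x y0) (y1 * y1) * m + dq (cr y1 y0) (x * y1) * m ^ 2
          + dq (cr y1 y0) (y1 * y1) * m ^ 3) * m ^ (Q - 1) := fun m => by
      rw [← mom_cubic (by omega) (dq (cr (x + m • y1) y0) ((x + m • y1) * y0))
        (dq (cr x y0) (x * y1) + dq (cr x y0) (y1 * y1) * m + dq (cr y1 y0) (x * y1) * m ^ 2
          + dq (cr y1 y0) (y1 * y1) * m ^ 3) (dq (cr x y1) ((x + m • y1) * y0))
          (dq (cr x y1) ((x + m • y1) * y1)), sum_mul, ← hQ]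
      refine sum_congr rfl fun c _ => ?_
      rw [mul_comm _ (m ^ (Q - 1)), mul_assoc, mul_comm (c ^ (Q - 1))]
      congr 2; simp [dq]; grind
    simp only [h4] at h2
    rw [hQ, mom_cubic (by omega)] at h2
    refine pow_eq_zero_iff (n := 2) (by norm_num) |>.1 ?_
    rw [h2]; simp [dq, dt]; grind
  · intro l hl
    have hl := mem_range.1 hl
    simp only [psum, ← hQ]
    by_cases h1 : l = 1
    · subst h1
      have : ((Q - 1 : ℕ) : F) = 0 := by
        rw [CharP.cast_eq_zero_iff F 2, hQ, hq, ← pow2 (show 1 ≤ r by omega)]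
        omega
      simp [this]
    · rw [if_neg, zero_mul, zero_add]
      · split_ifs with h'
        · have := dvd_cases h'.2 (by omega) (by omega)
          obtain rfl : l = Q - 1 := by omega
          rw [Nat.sub_self, mu, sum_comm, sum_eq_zero, mul_zero, mul_zero]
          intro t _
          rw [← sum_mul]
          refine mul_eq_zero_of_left ?_ _
          refine pow_eq_zero_iff (n := 2 ^ (j - 1)) (by positivity) |>.1 ?_
          rw [sum_pow_char_pow, ← (h.dq (by omega) y1 (y0 + t • x)).mom 0 (by omega)]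
          refine sum_congr rfl fun s _ => ?_
          have e : y0 + t • x + s • y1 = y0 + s • y1 + t • x := by
            apply v3 <;> simp <;> ring
          rw [e, pow_zero, mul_one, mul_one]; congr 1; simp [dq]; grind
        · simp
      · rintro ⟨h0, h'⟩
        have := dvd_cases h' (by omega) (by omega)
        omega

lemma ex_cr {x a : Fin 3 → F} (hx : x ≠ 0) (h : dt a x = 0) : ∃ y, cr x y = a := by
  obtain ⟨i, hi⟩ := Function.ne_iff.1 hx
  refine ⟨(x i)⁻¹ • cr a (Pi.single i 1), ?_⟩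
  simp only [Pi.zero_apply] at hi
  unfold dt at h
  fin_cases i <;> apply v3 <;> simp at hi ⊢ <;> field_simp <;> grind

lemma ex_pt {a : Fin 3 → F} (ha : a ≠ 0) : ∃ x y, cr x y = a := by
  obtain ⟨i, hi⟩ := Function.ne_iff.1 ha
  simp only [Pi.zero_apply] at hi
  have : cr a (Pi.single (i + 1) 1) ≠ 0 := by
    intro h
    have := congrFun h (i + 2)
    fin_cases i <;> simp at hi this <;> exact hi this
  obtain ⟨y, hy⟩ := ex_cr (a := a) this (by simp [dt]; grind)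
  exact ⟨_, y, hy⟩

lemma ex_basis {z : Fin 3 → F} (hz : z ≠ 0) : ∃ x y, dt (cr x y) z ≠ 0 := by
  obtain ⟨i, hi⟩ := Function.ne_iff.1 hz
  obtain ⟨x, y, h⟩ := ex_pt (a := (Pi.single i 1 : Fin 3 → F)) (by simp)
  refine ⟨x, y, ?_⟩
  rw [h]
  fin_cases i <;> simpa [dt] using hi

lemma ne_of_dt {a x : Fin 3 → F} (h : dt a x ≠ 0) : a ≠ 0 ∧ x ≠ 0 := by
  constructor <;> rintro rfl <;> simp [dt] at h

lemma cr_add_smul (x y z : Fin 3 → F) (s : F) : cr x (y + s • z) = cr x y + s • cr x z := by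
  apply v3 <;> simp <;> ring

/-- lower level line -/
def Low (φ : (Fin 3 → F) → Fin 3 → F) (j : ℕ) (a : Fin 3 → F) : Prop :=
  ∃ i, 1 ≤ i ∧ i ≤ j - 1 ∧ ∃ b c g, TrD φ i a b c g

/-- top level line with `x` not special -/
def PP (φ : (Fin 3 → F) → Fin 3 → F) (j : ℕ) (x a : Fin 3 → F) : Prop :=
  ∃ b c g, TrD φ j a b c g ∧ dt b x ≠ 0

/-- the points that are special on all top level lines -/
def ZZ (φ : (Fin 3 → F) → Fin 3 → F) (j : ℕ) (x : Fin 3 → F) : Prop :=
  ∀ a, dt a x = 0 → ¬PP φ j x a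

/-- standing assumptions -/
structure St (φ : (Fin 3 → F) → Fin 3 → F) (r j : ℕ) : Prop where
  hom : Hom φ
  hq : Fintype.card F = 2 ^ r
  hr : 5 ≤ r
  h2 : 2 ≤ j
  hj : j < r
  all : ∀ a, a ≠ 0 → ∃ i, 1 ≤ i ∧ i ≤ j ∧ ∃ b c g, TrD φ i a b c g

namespace St
variable {φ : (Fin 3 → F) → Fin 3 → F} {r j : ℕ} (H : St φ r j)
include H

lemma four : 4 ≤ 2 ^ j := Nat.pow_le_pow_right (n := 2) (by norm_num) H.h2

lemma top {a : Fin 3 → F} (ha : a ≠ 0) (h : ¬Low φ j a) : ∃ b c g, TrD φ j a b c g := by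
  obtain ⟨i, h1, h2, h3⟩ := H.all a ha
  rcases h2.eq_or_lt with rfl | h2
  · exact h3
  · exact absurd ⟨i, h1, by omega, h3⟩ h

lemma low_lt {x y : Fin 3 → F} (h : Low φ j (cr x y)) : LT (2 ^ j) (fun m => cf φ j m x y) := by
  obtain ⟨i, h1, h2, b, c, g, h⟩ := h
  exact h.lt H.hq h1 (by omega) H.hj

lemma types {x y : Fin 3 → F} (h : cr x y ≠ 0) : (∃ t0, PT (2 ^ j) (fun m => cf φ j m x y) t0) ∨
    ST (2 ^ j) (fun m => cf φ j m x y) ∨ LT (2 ^ j) (fun m => cf φ j m x y) := by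
  have := H.h2
  by_cases hl : Low φ j (cr x y)
  · exact .inr (.inr (H.low_lt hl))
  · obtain ⟨b, c, g, h⟩ := H.top h hl
    by_cases hb : dt b x = 0
    · exact .inr (.inl (h.st H.hq (by omega) H.hj hb))
    · exact .inl ⟨_, h.pt H.hq (by omega) H.hj hb⟩

lemma pp_ne {x y : Fin 3 → F} (h : PP φ j x (cr x y)) : cf φ j (2 ^ j - 1) x y ≠ 0 := by
  obtain ⟨b, c, g, h, hb⟩ := h
  have := H.h2
  have := H.four
  exact (h.pt H.hq (by omega) H.hj hb).ne (by omega)

lemma pp_smul {x a : Fin 3 → F} (h : PP φ j x a) {u : F} (hu : u ≠ 0) : PP φ j x (u • a) := by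
  obtain ⟨b, c, g, h, hb⟩ := h
  have := H.h2
  exact ⟨_, _, _, h.smul (by omega) hu, hb⟩

lemma ex_p {x : Fin 3 → F} (h : ¬ZZ φ j x) : ∃ y, PP φ j x (cr x y) := by
  unfold ZZ at h
  push Not at h
  obtain ⟨a, ha, h⟩ := h
  obtain ⟨y, rfl⟩ := ex_cr (ne_of_dt h.choose_spec.choose_spec.choose_spec.2).2 ha
  exact ⟨y, h⟩

lemma pencil_ne {x y0 y1 : Fin 3 → F} (h1 : PP φ j x (cr x y1)) (h0 : cr x y0 ≠ 0)
    (hk : cf φ j (2 ^ j - 1) x y0 = 0) (u s : F) (hus : u = 0 → s ≠ 0) :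
    cr x (u • y0 + s • y1) ≠ 0 := by
  intro h
  have e : u • cr x y0 = s • cr x y1 := by
    have h' := fun i => congrFun h i
    have a0 := h' 0
    have a1 := h' 1
    have a2 := h' 2
    apply v3 <;> simp at a0 a1 a2 ⊢ <;> grind
  by_cases hu : u = 0
  · obtain ⟨b, c, g, h1, -⟩ := h1
    rw [hu, zero_smul, eq_comm, smul_eq_zero] at e
    have := h1.1
    rw [e.resolve_left (hus hu)] at this
    simp [dt] at this
  · have hs : s ≠ 0 := by
      rintro rfl
      simp [hu, h0] at e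
    have := H.pp_smul h1 (mul_ne_zero (inv_ne_zero hu) hs)
    rw [mul_smul, ← e, inv_smul_smul₀ hu] at this
    exact H.pp_ne this hk

lemma allP (hj : j + 2 ≤ r) {x : Fin 3 → F} (h : ¬ZZ φ j x) {y : Fin 3 → F} (hy : cr x y ≠ 0) :
    cf φ j (2 ^ j - 1) x y ≠ 0 := by
  intro hk
  obtain ⟨y1, h1⟩ := H.ex_p h
  have h2 := H.h2
  have h4 := H.four
  have hl := lev_of_tr H.all
  have hs : ∀ m, ∃ P Q : F[X], 1 ≤ m → m < 2 ^ j → P.natDegree ≤ 2 ^ j - m ∧
      Q.natDegree ≤ 2 ^ j - m ∧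
      ∀ s, cf φ j m x (y + s • y1) = P.eval s + s ^ 2 ^ j * Q.eval s := fun m => by
    by_cases hm : 1 ≤ m ∧ m < 2 ^ j
    · obtain ⟨P, Q, h⟩ := cf_shape H.hq (by omega) H.hj hl m hm.1 hm.2 x y y1
      exact ⟨P, Q, fun _ _ => h⟩
    · exact ⟨0, 0, fun a b => absurd ⟨a, b⟩ hm⟩
  choose P Q hs using hs
  obtain ⟨a, b, c⟩ := hs (2 ^ j - 1) (by omega) (by omega)
  have hle := two_pow_le H.hq H.hj
  have := cf_link H.hom H.hq (by omega) H.hj hl _ (by omega) (by omega) (by omega) x y y1 a b c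
  rw [show 2 ^ j - (2 ^ j - 1) = 1 by omega] at this
  refine pencilA H.hq h2 hj H.hr (fun s m => cf φ j m x (y + s • y1)) P Q hs (fun s => ?_)
    (this ▸ H.pp_ne h1) 0 (by simpa using hk)
  exact H.types (by simpa using H.pencil_ne h1 hy hk 1 s (by simp))

lemma topD (hj : j + 1 = r) (x y0 y1 : Fin 3 → F) : ∃ D : ℕ → F[X],
    (∀ m, 1 ≤ m → m < 2 ^ j → (D m).natDegree ≤ 2 * (2 ^ j - m) + 1 ∧
      ∀ s, cf φ j m x (y0 + s • y1) ^ 2 = (D m).eval s) ∧
    (D (2 ^ j - 1)).coeff 3 = cf φ j (2 ^ j - 1) x y1 ^ 2 := by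
  have h2 := H.h2
  have h4 := H.four
  have hl := lev_of_tr H.all
  have hs : ∀ m, ∃ P Q : F[X], 1 ≤ m → m < 2 ^ j → P.natDegree ≤ 2 ^ j - m ∧
      Q.natDegree ≤ 2 ^ j - m ∧
      ∀ s, cf φ j m x (y0 + s • y1) = P.eval s + s ^ 2 ^ j * Q.eval s := fun m => by
    by_cases hm : 1 ≤ m ∧ m < 2 ^ j
    · obtain ⟨P, Q, h⟩ := cf_shape H.hq (by omega) H.hj hl m hm.1 hm.2 x y0 y1
      exact ⟨P, Q, fun _ _ => h⟩
    · exact ⟨0, 0, fun a b => absurd ⟨a, b⟩ hm⟩
  choose P Q hs using hs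
  refine ⟨fun m => P m ^ 2 + X * Q m ^ 2, fun m h1 h2 => ⟨?_, fun s => ?_⟩, ?_⟩
  · obtain ⟨a, b, -⟩ := hs m h1 h2
    show (P m ^ 2 + X * Q m ^ 2).natDegree ≤ _
    compute_degree; omega
  · have : (s ^ 2 ^ j) ^ 2 = s := by
      rw [← pow_mul, ← pow_succ, hj, ← H.hq, FiniteField.pow_card]
    rw [(hs m h1 h2).2.2, CharTwo.add_sq, mul_pow, this]; simp
  · obtain ⟨a, b, c⟩ := hs (2 ^ j - 1) (by omega) (by omega)
    have hle := two_pow_le H.hq H.hj
    have := cf_link H.hom H.hq (by omega) H.hj hl _ (by omega) (by omega) (by omega) x y0 y1 a b c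
    rw [show 2 ^ j - (2 ^ j - 1) = 1 by omega] at this a b
    rw [← this]
    show (P _ ^ 2 + X * Q _ ^ 2).coeff (2 + 1) = _
    rw [coeff_add, coeff_X_mul, coeff_eq_zero_of_natDegree_lt
      (natDegree_pow_le.trans_lt (by omega)), zero_add]
    exact coeff_pow_of_natDegree_le b

lemma big (hj : j + 1 = r) : Fintype.card F = 2 * 2 ^ j ∧ 16 ≤ 2 ^ j ∧ Even (2 ^ j) := by
  have := H.hr
  exact ⟨by rw [H.hq, ← hj, pow_succ'], Nat.pow_le_pow_right (n := 2) (i := 4) (by norm_num)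
    (by omega), even_pow (by omega)⟩

lemma noLow {x : Fin 3 → F} (h : ¬ZZ φ j x) {y : Fin 3 → F} (hy : cr x y ≠ 0) :
    ¬Low φ j (cr x y) := by
  classical
  intro hl
  have h4 := H.four
  have h2 := H.h2
  have hlt := H.low_lt hl
  have hk : cf φ j (2 ^ j - 1) x y = 0 := hlt.eq (by omega) (even_pow (by omega))
  rcases (Nat.succ_le_of_lt H.hj).eq_or_lt with hj | hj
  swap
  · exact H.allP hj h hy hk
  obtain ⟨hq, h16, hev⟩ := H.big hj
  obtain ⟨y1, h1⟩ := H.ex_p h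
  by_cases hall : ∀ s : F, s ≠ 0 → cf φ j (2 ^ j - 1) x (y + s • y1) ≠ 0
  · obtain ⟨D, hD, -⟩ := H.topD hj x y y1
    refine (pencilB hq h16 hev (fun s m => cf φ j m x (y + s • y1)) D hD (fun s => ?_)
      (fun h0 => ?_)).2 {0} (fun s hs => hall s (by simpa using hs)) (by simp) 0
      (by simpa using hlt)
    · exact H.types (by simpa using H.pencil_ne h1 hy hk 1 s (by simp))
    · have := (hD (2 ^ j - 1) (by omega) (by omega)).2 1
      rw [h0, eval_zero] at this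
      exact hall 1 one_ne_zero (pow_eq_zero_iff two_ne_zero |>.1 this)
  · push Not at hall
    obtain ⟨s1, hs1, hk1⟩ := hall
    obtain ⟨D, hD, h3⟩ := H.topD hj x y (y + s1 • y1)
    have hD0 : D (2 ^ j - 1) ≠ 0 := fun h0 => by
      have := (hD (2 ^ j - 1) (by omega) (by omega)).2 1
      rw [h0, eval_zero, show y + (1 : F) • (y + s1 • y1) = s1 • y1 by
        apply v3 <;> simp <;> grind, cf_smul H.hom (by omega) _ (by omega) (by omega) _ _ _ hs1,
        pow_eq_zero_iff two_ne_zero] at this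
      exact mul_ne_zero (pow_ne_zero _ hs1) (H.pp_ne h1) this
    refine (pencilB hq h16 hev (fun s m => cf φ j m x (y + s • (y + s1 • y1))) D hD (fun s => ?_)
      hD0).2 (D (2 ^ j - 1)).roots.toFinset (fun s hs h0 => hs ?_) ?_ 0 (by simpa using hlt)
    · refine H.types ?_
      rw [show y + s • (y + s1 • y1) = (1 + s) • y + (s * s1) • y1 by
        apply v3 <;> simp <;> ring]
      refine H.pencil_ne h1 hy hk _ _ fun h => mul_ne_zero ?_ hs1
      rintro rfl
      simp at h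
    · rw [Multiset.mem_toFinset, mem_roots hD0, IsRoot, ← (hD _ (by omega) (by omega)).2]
      simpa using h0
    · refine (card_roots_le _).trans ?_
      have := (hD (2 ^ j - 1) (by omega) (by omega)).1
      rw [hk1] at h3
      by_contra hc
      rw [← show (D (2 ^ j - 1)).natDegree = 3 by omega, coeff_natDegree] at h3
      simp [hD0] at h3

lemma topPencil (hj : j + 1 = r) {x : Fin 3 → F} (h : ¬ZZ φ j x) {y0 y1 : Fin 3 → F}
    (hdet : dt (cr x y0) y1 ≠ 0) : ∃ (ρ : F[X]) (E : Finset F), ρ.natDegree ≤ 2 ∧ E.card ≤ 3 ∧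
      ∀ s b c g, TrD φ j (cr x (y0 + s • y1)) b c g → (s ∉ E → dt b x ≠ 0) ∧
        (dt b x ≠ 0 → (dt b (y0 + s • y1) / dt b x) ^ 2 = ρ.eval s) := by
  classical
  have h4 := H.four
  have h2 := H.h2
  obtain ⟨hq, h16, hev⟩ := H.big hj
  obtain ⟨y, hy⟩ := H.ex_p h
  obtain ⟨D, hD, h3⟩ := H.topD hj x y0 y1
  have hD0 : D (2 ^ j - 1) ≠ 0 := fun h0 => by
    have e : dt (cr x y0) y1 • cr x y =
        dt (cr x y) y1 • cr x y0 + dt (cr x y) y0 • cr x y1 := by
      apply v3 <;> simp [dt] <;> grind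
    have h1 := H.pp_smul hy hdet
    rw [e] at h1
    generalize dt (cr x y) y1 = β at h1
    generalize dt (cr x y) y0 = γ at h1
    by_cases hβ : β = 0
    · have hγ : γ ≠ 0 := by
        rintro rfl
        obtain ⟨b, c, g, h1, -⟩ := h1
        have := h1.1
        simp [hβ, dt] at this
      have := H.pp_smul h1 (inv_ne_zero hγ)
      rw [hβ, zero_smul, zero_add, inv_smul_smul₀ hγ] at this
      rw [h0, coeff_zero, eq_comm, pow_eq_zero_iff two_ne_zero] at h3
      exact H.pp_ne this h3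
    · have := H.pp_smul h1 (inv_ne_zero hβ)
      rw [smul_add, inv_smul_smul₀ hβ, smul_smul, ← cr_add_smul] at this
      have h5 := (hD (2 ^ j - 1) (by omega) (by omega)).2 (β⁻¹ * γ)
      rw [h0, eval_zero, pow_eq_zero_iff two_ne_zero] at h5
      exact H.pp_ne this h5
  obtain ⟨ρ, hρ, hρ2⟩ := (pencilB hq h16 hev (fun s m => cf φ j m x (y0 + s • y1)) D hD
    (fun s => H.types (ne_of_dt (x := y1) (by
      convert hdet using 1; simp [dt]; grind)).1) hD0).1
  refine ⟨ρ, (D (2 ^ j - 1)).roots.toFinset, hρ, (card_roots_le _).trans ?_,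
    fun s b c g ht => ⟨fun hs hb => hs ?_, fun hb => hρ2 s _ (ht.pt H.hq (by omega) H.hj hb)⟩⟩
  · have := (hD (2 ^ j - 1) (by omega) (by omega)).1
    omega
  · rw [Multiset.mem_toFinset, mem_roots hD0, IsRoot, ← (hD _ (by omega) (by omega)).2,
      pow_eq_zero_iff two_ne_zero]
    exact (ht.st H.hq (by omega) H.hj hb).eq (by omega)

lemma zline {z z' x : Fin 3 → F} (hz : ZZ φ j z) (hz' : ZZ φ j z') (h : cr z z' ≠ 0)
    (hx : dt (cr z z') x = 0) : ZZ φ j x := by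
  by_contra hn
  have hx0 : x ≠ 0 := by
    obtain ⟨y, b, c, g, -, h⟩ := H.ex_p hn
    exact (ne_of_dt h).2
  obtain ⟨y, hy⟩ := ex_cr hx0 hx
  obtain ⟨b, c, g, ht⟩ := H.top h (hy ▸ H.noLow hn (hy ▸ h))
  have h1 : dt b z = 0 := by
    by_contra hb
    exact hz _ (by simp [dt]; grind) ⟨b, c, g, ht, hb⟩
  have h2 : dt b z' = 0 := by
    by_contra hb
    exact hz' _ (by simp [dt]; grind) ⟨b, c, g, ht, hb⟩
  apply ht.1
  simp only [dt, cr0, cr1, cr2] at h1 h2 ⊢
  grind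

theorem step (a : Fin 3 → F) (ha : a ≠ 0) : Low φ j a := by
  by_contra hl
  have h4 := H.four
  have h2 := H.h2
  by_cases hz : ∃ z z', ZZ φ j z ∧ ZZ φ j z' ∧ cr z z' ≠ 0
  · obtain ⟨z, z', hz, hz', hc⟩ := hz
    obtain ⟨b, c, g, ht⟩ := H.top ha hl
    obtain ⟨y0, hy0⟩ : ∃ y0, ¬ZZ φ j y0 := ⟨cr a c, fun h => h a (by simp [dt]; grind)
      ⟨b, c, g, ht, by convert ht.1 using 1; simp [dt]; ring⟩⟩
    have hdet : dt (cr z y0) z' ≠ 0 := fun h => hy0 (H.zline hz hz' hc (by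
      rw [← h]; simp [dt]; ring))
    refine hdet (nonsplit H.hq h2 H.hj (lev_of_tr H.all) z y0 z' fun m c => ?_)
    have k1 : ZZ φ j (z + m • z') := H.zline hz hz' hc (by simp [dt]; grind)
    have k2 : ¬ZZ φ j (y0 + c • z') := fun h => hy0 (H.zline h hz' (ne_of_dt (x := z) (by
      convert hdet using 1; simp [dt]; grind)).1 (by simp [dt]; grind))
    have k3 : cr (y0 + c • z') (z + m • z') ≠ 0 := (ne_of_dt (x := z') (by
      convert hdet using 1; simp [dt]; grind)).1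
    obtain ⟨b, c', g, ht⟩ := H.top k3 (H.noLow k2 k3)
    rw [cr_comm] at ht
    have k4 : dt b (z + m • z') = 0 := by
      by_contra hb
      exact k1 _ (by simp [dt]; grind) ⟨b, c', g, ht, hb⟩
    have := pow2 (show 1 ≤ j by omega)
    exact (ht.st H.hq (by omega) H.hj k4).2 _ (by omega) (by omega)
  push Not at hz
  have htop : ∀ a, a ≠ 0 → ∃ b c g, TrD φ j a b c g := fun a ha => by
    obtain ⟨x, y, rfl⟩ := ex_pt ha
    refine H.top ha ?_
    by_cases hx : ZZ φ j x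
    · rw [cr_comm] at ha ⊢
      exact H.noLow (fun hy => ha (hz _ _ hy hx)) ha
    · exact H.noLow hx ha
  obtain ⟨f3, hf3, hZ⟩ : ∃ f3 : Fin 3 → F, f3 ≠ 0 ∧ ∀ x, cr x f3 ≠ 0 → ¬ZZ φ j x := by
    by_cases h : ∃ z, z ≠ 0 ∧ ZZ φ j z
    · obtain ⟨z, h0, h⟩ := h
      exact ⟨z, h0, fun x hx hx' => hx (hz _ _ hx' h)⟩
    · push Not at h
      refine ⟨a, ha, fun x hx => h x ?_⟩
      rintro rfl
      exact hx (by apply v3 <;> simp)
  obtain ⟨f1, f2, hdet⟩ := ex_basis hf3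
  rcases (Nat.succ_le_of_lt H.hj).eq_or_lt with hj | hj
  · have hch : ∀ α β : F, ∃ b c g, TrD φ j (cr (f1 + α • f3) (f2 + β • f3)) b c g := fun α β =>
      htop _ (ne_of_dt (x := f3) (by convert hdet using 1; simp [dt]; grind)).1
    choose b c g ht using hch
    refine grid (by have := H.big hj; omega) (fun α β => dt (b α β) (f2 + β • f3))
      (fun α β => dt (b α β) (f1 + α • f3)) (fun α β h1 h2 => (ht α β).1 ?_) (fun β => ?_)
      (fun m c => ?_)
    · generalize f1 + α • f3 = x at *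
      generalize f2 + β • f3 = y at *
      simp only [dt, cr0, cr1, cr2] at h1 h2 ⊢
      grind
    · obtain ⟨ρ, E, k1, k2, k3⟩ := H.topPencil hj (hZ (f2 + β • f3) (ne_of_dt (x := f1) (by
        convert hdet using 1; simp [dt]; grind)).1) (y0 := f1) (y1 := f3) (by
        convert hdet using 1; simp [dt]; grind)
      exact ⟨ρ, E, k1, k2, fun α => (k3 α _ _ _ (cr_comm (f1 + α • f3) _ ▸ ht α β)).1,
        fun α => (k3 α _ _ _ (cr_comm (f1 + α • f3) _ ▸ ht α β)).2⟩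
    · obtain ⟨ρ, E, k1, k2, k3⟩ := H.topPencil hj (hZ (f1 + m • f2 + c • f3)
        (ne_of_dt (x := f2) (by convert hdet using 1; simp [dt]; grind)).1) (y0 := f2) (y1 := f3)
        (by convert hdet using 1; simp [dt]; grind)
      have e1 : ∀ β : F, cr (f1 + (m * β + c) • f3) (f2 + β • f3) =
          cr (f1 + m • f2 + c • f3) (f2 + β • f3) := fun β => by
        apply v3 <;> simp <;> grind
      have e2 : ∀ (β : F) (w : Fin 3 → F), dt w (f1 + (m * β + c) • f3) + m * dt w (f2 + β • f3) =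
          dt w (f1 + m • f2 + c • f3) := fun β w => by
        simp [dt]; grind
      simp only [e2]
      exact ⟨ρ, E, k1, k2, fun β => (k3 β _ _ _ (e1 β ▸ ht _ β)).1,
        fun β => (k3 β _ _ _ (e1 β ▸ ht _ β)).2⟩
  · obtain ⟨b, c, g, ht⟩ := htop _ (ne_of_dt hdet).1
    have hz0 := (ne_of_dt ht.1).1
    generalize cr f1 f2 = a at *
    obtain ⟨y, hy⟩ := ex_cr (a := a) hz0 (by simp [dt]; grind)
    refine H.allP hj (hZ (cr a b) fun h => hz0 ?_) (y := y) (hy.trans_ne (ne_of_dt hdet).1) ?_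
    · have e : dt a f3 • cr a b = cr a (cr (cr a b) f3) := by
        apply v3 <;> simp [dt] <;> grind
      rw [h, show cr a 0 = 0 by apply v3 <;> simp, smul_eq_zero] at e
      exact e.resolve_left hdet
    · have ht' : TrD φ j (cr (cr a b) y) b c g := by rw [hy]; exact ht
      exact (ht'.st H.hq (by omega) H.hj (by simp [dt]; grind)).eq (by omega)

end St

theorem all_conic {φ : (Fin 3 → F) → Fin 3 → F} {r : ℕ} (hom : Hom φ)
    (hq : Fintype.card F = 2 ^ r) (hr : 5 ≤ r) (j : ℕ) (hj1 : 1 ≤ j) (hj : j < r)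
    (all : ∀ a, a ≠ 0 → ∃ i, 1 ≤ i ∧ i ≤ j ∧ ∃ b c g, TrD φ i a b c g) :
    ∀ a, a ≠ 0 → ∃ b c g, TrD φ 1 a b c g := by
  induction j, hj1 using Nat.le_induction with
  | base =>
    intro a ha
    obtain ⟨i, h1, h2, h⟩ := all a ha
    obtain rfl : i = 1 := by omega
    exact h
  | succ j hj1 ih =>
    exact ih (by omega) fun a ha => St.step ⟨hom, hq, hr, by omega, hj, all⟩ a ha

end Pool.Agent.MP_9c0e17_co
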