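import Pool.Agent.MP_9c0e17_co.Cases

set_option autoImplicit false
set_option linter.unusedSectionVars false

namespace Pool.Agent.MP_9c0e17_co
open Polynomial Finset

/-- a quadratic map -/
def qm {F : Type*} [CommRing F] (N S : Fin 3 → Fin 3 → F) (p : Fin 3 → F) : Fin 3 → F := fun i =>
  N i 0 * p 0 ^ 2 + N i 1 * p 1 ^ 2 + N i 2 * p 2 ^ 2 +
    (S i 0 * (p 1 * p 2) + S i 1 * (p 0 * p 2) + S i 2 * (p 0 * p 1))

/-- the associated cubic form -/
def cub {F : Type*} [CommRing F] (S : Fin 3 → Fin 3 → F) (a : Fin 3 → F) : F :=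
  a 0 * a 1 * a 2 + dq a fun i => dt (S i) a

variable {F : Type*} [Field F] [Fintype F] [CharP F 2]

lemma quadline {φ : (Fin 3 → F) → Fin 3 → F} {r : ℕ} (hφ : Hom φ) (hq : Fintype.card F = 2 ^ r)
    (hr : 2 ≤ r) (h : Lev φ 1) (x y : Fin 3 → F) (t : F) : NN φ (cr x y) (y + t • x) =
      NN φ (cr x y) y + cf φ 1 1 x y * t + NN φ (cr x y) x * t ^ 2 := by
  obtain ⟨P, hP, hf⟩ := h x y
  obtain ⟨Q, hQ, hg⟩ := h y x
  have h1 := cf_eq hq (show 1 < r by omega) hP hf le_rfl (by norm_num)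
  have h4 : 2 ^ 2 ≤ 2 ^ r := Nat.pow_le_pow_right (by norm_num) hr
  simp only [Nat.sub_self, pow_zero, pow_one] at hf hg hP hQ
  have h2 := rev_coeff P Q 2 hP hQ (by omega) (fun t ht => by
    rw [← hf, ← hg, cr_comm y x, ← hφ.NN _ _ _ (dt_cr_line x y _)]
    congr 1
    apply v3 <;> simp <;> field_simp <;> ring) 0 (by omega)
  rw [coeff_zero_eq_eval_zero, ← hg, cr_comm y x] at h2
  have h0 := hf 0
  rw [← coeff_zero_eq_eval_zero] at h0
  simp only [zero_smul, add_zero] at h0 h2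
  rw [hf, eval_quad P hP, h0, h1, h2]

lemma three_zero {i : ℕ} (hi : 4 ≤ i) (hq : i < Fintype.card F) (a b c : F)
    (h : ∀ m : F, a * m ^ i + b * m ^ 3 + c * m ^ 2 = 0) : a = 0 ∧ b = 0 ∧ c = 0 := by
  have h := zero_of_eval (C a * X ^ i + C b * X ^ 3 + C c * X ^ 2) ∅
    (fun s _ => by rw [← h s]; simp) (by
      have : (C a * X ^ i + C b * X ^ 3 + C c * X ^ 2).natDegree ≤ i := by compute_degree; omega
      simp only [card_empty]; omega)
  have k := fun i => congrArg (fun P : F[X] => P.coeff i) h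
  simp only [coeff_add, coeff_C_mul_X_pow, coeff_zero] at k
  have k0 := k i
  have k1 := k 3
  have k2 := k 2
  rw [if_pos rfl, if_neg (by omega), if_neg (by omega)] at k0
  rw [if_neg (by omega), if_pos rfl, if_neg (by omega)] at k1
  rw [if_neg (by omega), if_neg (by omega), if_pos rfl] at k2
  simp only [add_zero, zero_add] at k0 k1 k2
  exact ⟨k0, k1, k2⟩

lemma two_var (hq : 8 ≤ Fintype.card F) (a0 b0 : F → F) (a10 a11 a12 a13 b10 b11 b12 b13 : F)
    (D k : F → F) (h : ∀ m t, a0 (m * t) + (a10 + a11 * (m * t) + a12 * (m * t) ^ 2 +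
      a13 * (m * t) ^ 3) * t + m ^ 2 * (b0 t + (b10 + b11 * t + b12 * t ^ 2 + b13 * t ^ 3) * (m * t))
      = D m * t + k m * t ^ 2) :
    a13 = b13 ∧ ∃ α1 α2 β1 β2 : F, (∀ s, a0 s = α1 * s + α2 * s ^ 2 + b12 * s ^ 3) ∧
      ∀ t, b0 t = β1 * t + β2 * t ^ 2 + a12 * t ^ 3 := by
  obtain ⟨P, hP, ha⟩ := exists_poly a0
  obtain ⟨Q, hQ, hb⟩ := exists_poly b0
  have key : ∀ m : F, P.comp (C m * X) + C (m ^ 2) * Q =
      C (D m + a10 + m ^ 3 * b10) * X + C (k m + a11 * m + m ^ 3 * b11) * X ^ 2 +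
      C (a12 * m ^ 2 + b12 * m ^ 3) * X ^ 3 + C (a13 * m ^ 3 + b13 * m ^ 3) * X ^ 4 := fun m => by
    refine eq_of_eval _ _ ∅ (Fintype.card F - 1) (fun t _ => ?_) ?_
      (le_trans (by compute_degree) (show 4 ≤ _ by omega)) (by simp only [card_empty]; omega)
    · have := h m t
      simp only [eval_add, eval_comp, eval_mul, eval_C, eval_X, eval_pow, ← ha, ← hb]
      grind
    · refine natDegree_add_le_of_degree_le (natDegree_comp_le.trans ?_)
        ((natDegree_C_mul_le _ _).trans hQ)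
      have : (C m * X : F[X]).natDegree ≤ 1 := by compute_degree
      nlinarith
  have k := fun (i : ℕ) (m : F) => congrArg (fun P : F[X] => P.coeff i) (key m)
  simp only [coeff_add, comp_C_mul_X_coeff, coeff_C_mul, coeff_X_pow, coeff_X] at k
  have k0 := k 0 0
  have k0' := k 0 1
  simp at k0 k0'
  obtain ⟨-, k31, k32⟩ := three_zero le_rfl (by omega) (0 : F) (P.coeff 3 + b12) (Q.coeff 3 + a12)
    fun m => by have := k 3 m; simp at this; grind
  obtain ⟨k41, k42, k43⟩ := three_zero le_rfl (by omega) (P.coeff 4) (a13 + b13) (Q.coeff 4)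
    fun m => by have := k 4 m; simp at this; grind
  have k5 : ∀ i, 4 ≤ i → P.coeff i = 0 ∧ Q.coeff i = 0 := fun i hi => by
    rcases hi.eq_or_lt with rfl | hi
    · exact ⟨k41, k43⟩
    by_cases hi' : i < Fintype.card F
    · obtain ⟨e1, -, e2⟩ := three_zero hi.le hi' (P.coeff i) 0 (Q.coeff i) fun m => by
        have := k i m
        rw [if_neg (by omega), if_neg (by omega), if_neg (by omega), if_neg (by omega)] at this
        grind
      exact ⟨e1, e2⟩
    · exact ⟨coeff_eq_zero_of_natDegree_lt (by omega), coeff_eq_zero_of_natDegree_lt (by omega)⟩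
  have dP : P.natDegree < 4 := Nat.lt_succ_of_le
    (natDegree_le_iff_coeff_eq_zero.2 fun i hi => (k5 i hi).1)
  have dQ : Q.natDegree < 4 := Nat.lt_succ_of_le
    (natDegree_le_iff_coeff_eq_zero.2 fun i hi => (k5 i hi).2)
  refine ⟨by grind, P.coeff 1, P.coeff 2, Q.coeff 1, Q.coeff 2, fun s => ?_, fun s => ?_⟩
  · rw [ha, eval_eq_sum_range' dP]; simp [sum_range_succ]; grind
  · rw [hb, eval_eq_sum_range' dQ]; simp [sum_range_succ]; grind

lemma cf_cubic {φ : (Fin 3 → F) → Fin 3 → F} {r : ℕ} (hq : Fintype.card F = 2 ^ r)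
    (hr : 2 ≤ r) (h : Lev φ 1) (x y0 y1 : Fin 3 → F) : ∃ a b c d : F, ∀ s,
      cf φ 1 1 x (y0 + s • y1) = a + b * s + c * s ^ 2 + d * s ^ 3 := by
  obtain ⟨P, Q, hP, hQ, h⟩ := cf_shape hq le_rfl (show 1 < r by omega) h 1 le_rfl (by norm_num)
    x y0 y1
  refine ⟨P.coeff 0, P.coeff 1, Q.coeff 0, Q.coeff 1, fun s => ?_⟩
  rw [h, eval_eq_sum_range' (n := 2) (by omega), eval_eq_sum_range' (n := 2) (by omega)]
  simp [sum_range_succ]; ring

lemma conic_norm {φ : (Fin 3 → F) → Fin 3 → F} {r : ℕ} (hφ : Hom φ) (hq : Fintype.card F = 2 ^ r)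
    (hr : 3 ≤ r) (h : Lev φ 1) (h0 : φ ![1, 0, 0] = 0) (h1 : φ ![0, 1, 0] = 0)
    (h2 : φ ![0, 0, 1] = 0) :
    ∃ N S : Fin 3 → Fin 3 → F, ∀ p a, dt a p = 0 → dq a (φ p) = dq a (qm N S p) := by
  have h8 : 2 ^ 3 ≤ 2 ^ r := Nat.pow_le_pow_right (by norm_num) hr
  obtain ⟨a10, a11, a12, a13, ha⟩ := cf_cubic hq (by omega) h ![1, 0, 0] ![0, 0, 1] ![0, 1, 0]
  obtain ⟨b10, b11, b12, b13, hb⟩ := cf_cubic hq (by omega) h ![0, 1, 0] ![0, 0, 1] ![1, 0, 0]
  have hA : ∀ s t : F, φ ![t, s, 1] 1 + s ^ 2 * φ ![t, s, 1] 2 =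
      (φ ![0, s, 1] 1 + s ^ 2 * φ ![0, s, 1] 2) + (a10 + a11 * s + a12 * s ^ 2 + a13 * s ^ 3) * t :=
    fun s t => by
    have := quadline hφ hq (by omega) h ![1, 0, 0] (![0, 0, 1] + s • ![0, 1, 0]) t
    rw [ha, show ![0, 0, 1] + s • ![0, 1, 0] = ![0, s, 1] by apply v3 <;> simp,
      show ![0, s, 1] + t • ![1, 0, 0] = ![t, s, 1] by apply v3 <;> simp] at this
    simp [NN, e2, dq, h0] at this
    grind
  have hB : ∀ s t : F, φ ![t, s, 1] 0 + t ^ 2 * φ ![t, s, 1] 2 =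
      (φ ![t, 0, 1] 0 + t ^ 2 * φ ![t, 0, 1] 2) + (b10 + b11 * t + b12 * t ^ 2 + b13 * t ^ 3) * s :=
    fun s t => by
    have := quadline hφ hq (by omega) h ![0, 1, 0] (![0, 0, 1] + t • ![1, 0, 0]) s
    rw [hb, show ![0, 0, 1] + t • ![1, 0, 0] = ![t, 0, 1] by apply v3 <;> simp,
      show ![t, 0, 1] + s • ![0, 1, 0] = ![t, s, 1] by apply v3 <;> simp] at this
    simp [NN, e2, dq, h1] at this
    grind
  obtain ⟨e13, α1, α2, β1, β2, hα, hβ⟩ := two_var (by omega)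
    (fun s => φ ![0, s, 1] 1 + s ^ 2 * φ ![0, s, 1] 2)
    (fun t => φ ![t, 0, 1] 0 + t ^ 2 * φ ![t, 0, 1] 2) a10 a11 a12 a13 b10 b11 b12 b13
    (fun m => cf φ 1 1 ![1, m, 0] ![0, 0, 1])
    (fun m => NN φ (cr ![1, m, 0] ![0, 0, 1]) ![1, m, 0] + m ^ 2) fun m t => by
      have := quadline hφ hq (by omega) h ![1, m, 0] ![0, 0, 1] t
      rw [show ![0, 0, 1] + t • ![1, m, 0] = ![t, m * t, 1] by
        apply v3 <;> simp [mul_comm]] at this
      rw [← hA, ← hB]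
      generalize NN φ (cr ![1, m, 0] ![0, 0, 1]) ![1, m, 0] = z at *
      simp [NN, e2, dq, h2] at this
      grind
  refine ⟨![![β2, 0, 0], ![0, α2, 0], ![0, 0, 0]],
    ![![b10, β1, b11], ![α1, a10, a11], ![b12, a12, a13]], ?_⟩
  generalize hN : (![![β2, 0, 0], ![0, α2, 0], ![0, 0, 0]] : Fin 3 → Fin 3 → F) = N
  generalize hS : (![![b10, β1, b11], ![α1, a10, a11], ![b12, a12, a13]] : Fin 3 → Fin 3 → F) = S
  have gsm : ∀ (p a : Fin 3 → F) (c : F), dt a p = 0 → dq a (φ p) = dq a (qm N S p) →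
      dq a (φ (c • p)) = dq a (qm N S (c • p)) := fun p a c hp h => by
    rw [hφ a p c hp, h]; simp [dq, qm]; ring
  have g1 : ∀ p a : Fin 3 → F, p 2 ≠ 0 → dt a p = 0 → dq a (φ p) = dq a (qm N S p) := by
    intro p a hp ha
    have e : p = p 2 • ![p 0 / p 2, p 1 / p 2, 1] := by apply v3 <;> simp <;> field_simp
    have ha' : dt a ![p 0 / p 2, p 1 / p 2, 1] = 0 := by
      simp only [dt] at ha ⊢; simp; field_simp; linear_combination ha
    rw [e]
    refine gsm _ _ _ ha' ?_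
    generalize p 0 / p 2 = t at *
    generalize p 1 / p 2 = s at *
    have k1 := hA s t
    have k2 := hB s t
    rw [hα] at k1
    rw [hβ] at k2
    subst hN hS
    simp [dt, dq, qm] at ha' ⊢
    grind
  intro p a ha
  by_cases hp : p 2 = 0
  swap
  · exact g1 p a hp ha
  by_cases hp0 : p = 0
  · have := hφ a 0 0 (by simp [dt])
    rw [smul_zero] at this
    rw [hp0, this]
    simp [dq, qm]
  have g2 : ∀ y : Fin 3 → F, y 2 ≠ 0 → dq (cr p y) (φ p) = dq (cr p y) (qm N S p) := by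
    intro y hy
    have := (quad_zero (NN φ (cr p y) y + NN (qm N S) (cr p y) y)
      (cf φ 1 1 p y + cub S (cr p y)) (dq (cr p y) (φ p) + dq (cr p y) (qm N S p)) univ
      (by rw [card_univ]; omega) fun t _ => by
        have k1 := quadline hφ hq (by omega) h p y t
        have k2 := g1 (y + t • p) (cr p y) (by simpa [hp] using hy) (dt_cr_line p y t)
        rw [NN, k2] at k1
        generalize cf φ 1 1 p y = D at *
        generalize NN φ (cr p y) y = z at *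
        simp [NN, dq, qm, e2, cub, dt] at k1 ⊢
        grind).2.2
    grind
  obtain ⟨y, rfl⟩ := ex_cr hp0 ha
  by_cases hy : y 2 = 0
  · have k1 := g2 ![y 0, y 1, 1] (by simp)
    have k2 := g2 ![0, 0, 1] (by simp)
    simp [dq] at k1 k2 ⊢
    grind
  · exact g2 y hy

theorem conic {φ : (Fin 3 → F) → Fin 3 → F} {r : ℕ} (hφ : Hom φ) (hq : Fintype.card F = 2 ^ r)
    (hr : 3 ≤ r) (h : Lev φ 1) (hD : ∀ x y, cr x y ≠ 0 → cf φ 1 1 x y ≠ 0) :
    ∃ N S : Fin 3 → Fin 3 → F, (∀ p a, dt a p = 0 → dq a (φ p) = dq a (qm N S p)) ∧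
      ∀ a, a ≠ 0 → cub S a ≠ 0 := by
  have h8 : 2 ^ 3 ≤ 2 ^ r := Nat.pow_le_pow_right (by norm_num) hr
  obtain ⟨M, hM⟩ : ∃ M : Fin 3 → Fin 3 → F, M = fun i =>
    ![φ ![1, 0, 0] i, φ ![0, 1, 0] i, φ ![0, 0, 1] i] := ⟨_, rfl⟩
  obtain ⟨N, S, hN⟩ := conic_norm (φ := fun p => φ p + qm M 0 p) (fun a p c hp => by
      have := hφ a p c hp
      simp [dq, qm] at this ⊢
      linear_combination this) hq hr (fun x y => by
      refine ((h x y).add (degLE_quad (dq (cr x y) (qm M 0 y)) 0 (dq (cr x y) (qm M 0 x)))).congr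
        fun t => ?_
      generalize cr x y = a
      simp [NN, dq, qm]; grind)
    (by apply v3 <;> simp [qm, hM] <;> grind) (by apply v3 <;> simp [qm, hM] <;> grind)
    (by apply v3 <;> simp [qm, hM] <;> grind)
  have hN' : ∀ p a, dt a p = 0 → dq a (φ p) = dq a (qm (N + M) S p) := fun p a ha => by
    have := hN p a ha
    simp [dq, qm] at this ⊢
    grind
  refine ⟨N + M, S, hN', fun a ha => ?_⟩
  obtain ⟨x, y, rfl⟩ := ex_pt ha
  have := (quad_zero (NN φ (cr x y) y + NN (qm (N + M) S) (cr x y) y)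
    (cf φ 1 1 x y + cub S (cr x y)) (NN φ (cr x y) x + NN (qm (N + M) S) (cr x y) x) univ
    (by rw [card_univ]; omega) fun t _ => by
      have k1 := quadline hφ hq (by omega) h x y t
      rw [NN, hN' _ _ (dt_cr_line x y t)] at k1
      generalize cf φ 1 1 x y = D at *
      generalize NN φ (cr x y) y = z at *
      generalize NN φ (cr x y) x = w at *
      generalize N + M = N' at *
      simp [NN, dq, qm, e2, cub, dt] at k1 ⊢
      grind).2.1
  have h1 := hD x y ha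
  grind

lemma TrD.cf_ne {φ : (Fin 3 → F) → Fin 3 → F} {r : ℕ} (hq : Fintype.card F = 2 ^ r) (hr : 2 ≤ r)
    {x y b c g : Fin 3 → F} (h : TrD φ 1 (cr x y) b c g) : cf φ 1 1 x y ≠ 0 := by
  by_cases hb : dt b x = 0
  · exact (h.st hq le_rfl (by omega) hb).1
  · exact (h.pt hq le_rfl (by omega) hb).ne (by norm_num)

end Pool.Agent.MP_9c0e17_co
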