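import Pool.Agent.MP_9c0e17_co.Conic

set_option autoImplicit false
set_option linter.unusedSectionVars false

namespace Pool.Agent.MP_9c0e17_co
open Polynomial Finset

variable {F : Type*} [Field F] [Fintype F] [CharP F 2]

lemma fixed_mem {K : Type*} [Field K] [Algebra F K] (x : K) (h : x ^ Fintype.card F = x) :
    ∃ a : F, algebraMap F K a = x := by
  classical
  by_contra hn
  push Not at hn
  have h1 := Fintype.one_lt_card (α := F)
  refine FiniteField.X_pow_card_sub_X_ne_zero K h1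
    (eq_zero_of_natDegree_lt_card_of_eval_eq_zero' _ (insert x (univ.image (algebraMap F K)))
      (fun y hy => ?_) ?_)
  · rcases mem_insert.1 hy with rfl | hy
    · simp [h]
    · obtain ⟨a, -, rfl⟩ := mem_image.1 hy
      simp [← map_pow, FiniteField.pow_card]
  · rw [card_insert_of_notMem (by simpa using hn),
      card_image_of_injective _ (algebraMap F K).injective, card_univ,
      FiniteField.X_pow_card_sub_X_natDegree_eq K h1]
    omega

lemma two_roots {K : Type*} [Field K] [CharP K 2] {x y p s : K} (hx : x ^ 3 + p * x + s = 0)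
    (hy : y ^ 3 + p * y + s = 0) (h : y ≠ x) : p = x ^ 2 + x * y + y ^ 2 :=
  mul_left_cancel₀ (sub_ne_zero.2 h) (by grind)

lemma resolvent (K : Type*) [Field K] [Algebra F K] [IsAlgClosed K] (p s : F)
    (h : ∀ W : F, W ^ 3 + p * W + s ≠ 0) : ∃ δ : F, δ ^ 2 + s * δ + p ^ 3 + s ^ 2 = 0 := by
  have : CharP K 2 := charP_of_injective_algebraMap (algebraMap F K).injective 2
  obtain ⟨z, hz⟩ := IsAlgClosed.exists_aeval_eq_zero K (X ^ 3 + C p * X + C s : F[X]) (by
    have : (X ^ 3 + C p * X + C s : F[X]).degree = 3 := by compute_degree!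
    rw [this]; norm_num)
  simp only [map_add, map_mul, map_pow, aeval_X, aeval_C] at hz
  let σ := FiniteField.frobeniusAlgHom F K
  have hσ : ∀ x : K, x ^ 3 + algebraMap F K p * x + algebraMap F K s = 0 →
      σ x ^ 3 + algebraMap F K p * σ x + algebraMap F K s = 0 := fun x hx => by
    simpa using congrArg σ hx
  have hfix : ∀ x : K, x ^ 3 + algebraMap F K p * x + algebraMap F K s = 0 → σ x ≠ x := by
    intro x hx h'
    obtain ⟨a, rfl⟩ := fixed_mem (F := F) x h'
    exact h a ((algebraMap F K).injective (by simpa using hx))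
  have h2 := hσ z hz
  have h3 := hσ _ h2
  have n12 := hfix z hz
  have n23 := hfix _ h2
  have r12 := two_roots hz h2 n12
  have r23 := two_roots h2 h3 n23
  have e3 : σ (σ z) = z + σ z := by
    by_cases e : σ (σ z) = z
    · exact absurd (by rw [map_add, e, add_comm]) (hfix (z + σ z) (by grind))
    · exact mul_left_cancel₀ (sub_ne_zero.2 e) (by grind)
  obtain ⟨δ, hδ⟩ := fixed_mem (F := F) (z ^ 2 * σ z + σ z ^ 2 * (z + σ z) + (z + σ z) ^ 2 * z)
    (show σ _ = _ by simp only [map_add, map_mul, map_pow, e3]; grind)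
  refine ⟨δ, (algebraMap F K).injective ?_⟩
  simp only [map_add, map_mul, map_pow, map_zero, hδ]
  grind

lemma der_even (f : F[X]) (n : ℕ) : derivative (f ^ (2 * n)) = 0 := by
  rw [derivative_pow]; simp [CharTwo.two_eq_zero]

lemma stepanov {r : ℕ} (hq : Fintype.card F = 2 ^ r) (hr : 4 ≤ r) (A s : F[X])
    (hA : A.natDegree ≤ 3) (hs : s.natDegree = 3) (hs0 : ∀ t, ¬s.IsRoot t)
    (h : ∀ t, ∃ Y : F, s.eval t * (Y ^ 2 + Y) = A.eval t) : s ∣ A := by
  have hirr := irreducible_of_degree_le_three_of_not_isRoot (by simp [hs]) hs0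
  obtain ⟨n, rfl⟩ : ∃ n, r = n + 2 := ⟨r - 2, by omega⟩
  obtain ⟨e, he⟩ : ∃ e, e = 2 ^ n := ⟨_, rfl⟩
  have he4 : 4 ≤ e := he ▸ Nat.pow_le_pow_right (n := 2) (i := 2) (by norm_num) (by omega)
  have hq' : Fintype.card F = 4 * e := by rw [hq, he, pow_add]; ring
  have hle : ∀ k ∈ range (n + 2), 2 ^ k ≤ 2 * e := fun k hk => by
    rw [he, ← pow_succ']
    exact Nat.pow_le_pow_right (by norm_num) (by have := mem_range.1 hk; omega)
  obtain ⟨P, hP⟩ : ∃ P, P = ∑ k ∈ range (n + 2), A ^ 2 ^ k * s ^ (2 * e - 2 ^ k) := ⟨_, rfl⟩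
  have hPd : P.natDegree ≤ 6 * e := by
    rw [hP]
    refine natDegree_sum_le_of_forall_le _ _ fun k hk => natDegree_mul_le.trans ?_
    have := hle k hk
    rw [natDegree_pow, natDegree_pow, hs]
    have := Nat.mul_le_mul_left (2 ^ k) hA
    omega
  have hPe : ∀ t, P.eval t = 0 := fun t => by
    obtain ⟨Y, hY⟩ := h t
    have tel : ∀ m, ∑ k ∈ range m, (Y ^ 2 + Y) ^ 2 ^ k = Y ^ 2 ^ m + Y := fun m => by
      induction m with
      | zero => simp [CharTwo.add_self_eq_zero]
      | succ m ih => rw [sum_range_succ, ih, add_pow_char_pow, ← pow_mul, ← pow_succ']; grind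
    have := tel (n + 2)
    rw [← hq, FiniteField.pow_card, CharTwo.add_self_eq_zero] at this
    rw [hP, eval_finsetSum, ← mul_zero (s.eval t ^ (2 * e)), ← this, mul_sum]
    refine sum_congr rfl fun k hk => ?_
    rw [eval_mul, eval_pow, eval_pow, ← hY, mul_pow, mul_right_comm, ← pow_add,
      Nat.add_sub_cancel' (hle k hk)]
  have hP' : derivative P = s ^ (2 * (e - 1)) * derivative (A * s) := by
    rw [hP, sum_range_succ', derivative_add, derivative_sum, sum_eq_zero, zero_add,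
      show 2 * e - 2 ^ 0 = 2 * (e - 1) + 1 by omega, pow_zero, pow_one, pow_succ, mul_left_comm,
      derivative_mul, der_even, zero_mul, zero_add]
    intro k hk
    rw [pow_succ', ← Nat.mul_sub, derivative_mul, der_even, der_even]; simp
  have hmon : (X ^ (4 * e) - X : F[X]).Monic := monic_X_pow_sub (by
    rw [degree_X]; exact_mod_cast (by omega : 1 < 4 * e))
  have hdeg := FiniteField.X_pow_card_sub_X_natDegree_eq F (show 1 < 4 * e by omega)
  obtain ⟨V, hV⟩ : ∃ V, P = (X ^ (4 * e) - X) * V := by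
    refine ⟨P /ₘ (X ^ (4 * e) - X), ?_⟩
    have h1 := modByMonic_add_div P (X ^ (4 * e) - X)
    refine h1.symm.trans (add_eq_right.2 (zero_of_eval _ ∅ (fun t _ => ?_) ?_))
    · have := congrArg (eval t) h1
      rw [hPe, eval_add, eval_mul] at this
      simpa [← hq', FiniteField.pow_card] using this
    · have := natDegree_modByMonic_lt P hmon (fun h => by rw [h] at hdeg; simp at hdeg; omega)
      simp only [card_empty]; omega
  have hVd : V.natDegree ≤ 2 * e := by
    by_cases h0 : V = 0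
    · simp [h0]
    · rw [hV, natDegree_mul hmon.ne_zero h0] at hPd; omega
  obtain ⟨L, M, hL, hLM⟩ : ∃ L M : F[X], L.natDegree ≤ 1 ∧ s = L + X ^ 2 * M :=
    ⟨s %ₘ X ^ 2, s /ₘ X ^ 2, by
      have := natDegree_modByMonic_lt s (monic_X_pow 2) (fun h => by
        simpa using congrArg natDegree h)
      rw [natDegree_X_pow] at this; omega, (modByMonic_add_div _ _).symm⟩
  have hD : (derivative (A * s)).natDegree ≤ 5 := by
    have := natDegree_derivative_le (A * s)
    have := natDegree_mul_le (p := A) (q := s)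
    omega
  generalize hC : derivative (A * s) = C2 at *
  have k1 : s ^ (2 * e) = L ^ (2 * e) + X ^ (4 * e) * M ^ (2 * e) := by
    rw [hLM, he, ← pow_succ', add_pow_char_pow, mul_pow, ← pow_mul, pow_succ']
    congr 3; ring
  have k2 : V + (X ^ (4 * e) - X) * derivative V = s ^ (2 * (e - 1)) * C2 := by
    rw [← hP', hV, derivative_mul, derivative_sub, show 4 * e = 2 * (2 * e) by ring, der_even,
      derivative_X]
    grind
  have k3 : s ^ (2 * e) = s ^ 2 * s ^ (2 * (e - 1)) := by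
    rw [← pow_add]; congr 1; omega
  have k4 : s ^ 2 * (V + X * derivative V) + L ^ (2 * e) * C2 = 0 := by
    refine eq_zero_of_dvd_of_natDegree_lt (p := X ^ (4 * e))
      ⟨M ^ (2 * e) * C2 + s ^ 2 * derivative V, by grind⟩ ?_
    have := natDegree_derivative_le V
    have : (s ^ 2 * (V + X * derivative V) + L ^ (2 * e) * C2).natDegree ≤ 2 * e + 6 := by
      have := Nat.mul_le_mul_left (2 * e) hL
      compute_degree
      omega
    rw [natDegree_X_pow]; omega
  have hsL : ¬s ∣ L := fun hd => by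
    have := eq_zero_of_dvd_of_natDegree_lt hd (by omega)
    exact hs0 0 (by rw [hLM, this]; simp)
  have k5 : s ^ 2 ∣ C2 := ((hirr.coprime_iff_not_dvd.2 hsL).pow (m := 2)
    (n := 2 * e)).dvd_of_dvd_mul_left ⟨V + X * derivative V, by grind⟩
  have k6 := eq_zero_of_dvd_of_natDegree_lt k5 (by rw [natDegree_pow]; omega)
  rw [k6, derivative_mul] at hC
  rcases hirr.prime.dvd_or_dvd (show s ∣ A * derivative s from ⟨derivative A, by grind⟩) with h | h
  · exact h
  · have h0 := eq_zero_of_dvd_of_natDegree_lt h (natDegree_derivative_lt (by omega))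
    have h1 := congrArg (coeff · 2) h0
    simp only [coeff_derivative, coeff_zero] at h1
    have h2 : s.coeff 3 ≠ 0 := by
      rw [← hs]; exact leadingCoeff_ne_zero.2 hirr.ne_zero
    have h3 : ((2 : ℕ) : F) + 1 = 1 := by simp [CharTwo.two_eq_zero]
    rw [h3, mul_one] at h1
    exact absurd h1 h2

lemma sing_root {r : ℕ} (hq : Fintype.card F = 2 ^ r) (hr : 4 ≤ r) (p s : F[X])
    (hp : p.natDegree ≤ 2) (hp0 : p ≠ 0) (hs : s.natDegree = 3)
    (h : ∀ t W : F, W ^ 3 + p.eval t * W + s.eval t ≠ 0) (E : Type*) [Field E] [Algebra F E]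
    [Finite E] (hE : Module.finrank F E = 3) : ∃ θ : E, aeval θ s = 0 ∧
      (∀ f : F[X], f.natDegree ≤ 2 → aeval θ f = 0 → f = 0) ∧
      aeval θ (derivative s) ^ 2 = aeval θ (derivative p) ^ 2 * aeval θ p := by
  have hs0 : ∀ t, ¬s.IsRoot t := fun t ht => h t 0 (by simpa using ht)
  have hirr := irreducible_of_degree_le_three_of_not_isRoot (by simp [hs]) hs0
  have : Fact (Irreducible s) := ⟨hirr⟩
  have hfd := (AdjoinRoot.powerBasis hirr.ne_zero).finite
  have hfin : Finite (AdjoinRoot s) := Module.finite_of_finite F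
  have := Fintype.ofFinite (AdjoinRoot s)
  have : CharP (AdjoinRoot s) 2 := charP_of_injective_algebraMap (algebraMap F _).injective 2
  have : CharP E 2 := charP_of_injective_algebraMap (algebraMap F _).injective 2
  obtain ⟨ψ⟩ := FiniteField.nonempty_algHom_of_finrank_dvd (F := F) (K := AdjoinRoot s) (L := E)
    (by rw [(AdjoinRoot.powerBasis hirr.ne_zero).finrank, AdjoinRoot.powerBasis_dim, hs, hE])
  have hθ := AdjoinRoot.aeval_algHom_eq_zero s ψ
  generalize ψ (AdjoinRoot.root s) = θ at hθ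
  have hind : ∀ f : F[X], f.natDegree ≤ 2 → aeval θ f = 0 → f = 0 := fun f hf h0 => by
    refine eq_zero_of_dvd_of_natDegree_lt (p := s) ?_ (by omega)
    rw [hirr.dvd_iff_not_isCoprime]
    intro hc
    rcases aeval_ne_zero_of_isCoprime hc θ with h | h
    · exact h hθ
    · exact h h0
  refine ⟨θ, hθ, hind, ?_⟩
  obtain ⟨w0, hw0⟩ := ex_sqrt (AdjoinRoot.mk s (p ^ 3))
  obtain ⟨w0, rfl⟩ := AdjoinRoot.mk_surjective w0
  obtain ⟨w, hw, y, hy⟩ : ∃ w : F[X], w.natDegree ≤ 2 ∧ s ∣ p ^ 3 + w ^ 2 := by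
    refine ⟨w0 % s, by have := natDegree_mod_lt w0 (q := s) (by omega); omega, ?_⟩
    rw [← AdjoinRoot.mk_eq_zero, map_add, ← hw0, map_pow, EuclideanDomain.mod_eq_sub_mul_div,
      map_sub, map_mul, AdjoinRoot.mk_self, zero_mul, sub_zero, CharTwo.add_self_eq_zero]
  have hyd : y.natDegree ≤ 3 := by
    by_cases h0 : y = 0
    · simp [h0]
    · have : (p ^ 3 + w ^ 2).natDegree ≤ 6 := by compute_degree; omega
      rw [hy, natDegree_mul hirr.ne_zero h0] at this; omega
  obtain ⟨k, hk⟩ := stepanov hq hr (w + y + s) s (by compute_degree; omega) hs hs0 fun t => by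
    obtain ⟨δ, hδ⟩ := resolvent (AlgebraicClosure F) _ _ (h t)
    have h1 := congrArg (eval t) hy
    have h2 : s.eval t ≠ 0 := hs0 t
    simp only [eval_add, eval_mul, eval_pow] at h1 ⊢
    refine ⟨(δ + w.eval t) / s.eval t, ?_⟩
    field_simp
    grind
  have e1 : p ^ 3 = w ^ 2 + s * w + s ^ 2 * (k + 1) := by grind
  have e2 := congrArg derivative e1
  simp only [derivative_add, derivative_mul, derivative_pow] at e2
  have e1 := congrArg (aeval θ) e1
  have e2 := congrArg (aeval θ) e2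
  simp only [map_add, map_mul, map_pow, hθ, map_natCast] at e1 e2
  have hp1 : aeval θ p ≠ 0 := fun h => hp0 (hind p hp h)
  refine mul_left_cancel₀ (pow_ne_zero 3 hp1) ?_
  norm_num at e1 e2
  grind

theorem cubic_sing {r : ℕ} (hq : Fintype.card F = 2 ^ r) (hr : 4 ≤ r) (S : Fin 3 → Fin 3 → F)
    (hS : ∀ a, a ≠ 0 → cub S a ≠ 0) (E : Type*) [Field E] [Algebra F E] [Finite E]
    (hE : Module.finrank F E = 3) : ∃ l : Fin 3 → E,
      (∀ v : Fin 3 → F, dt (fun i => algebraMap F E (v i)) l = 0 → v = 0) ∧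
      l 1 * l 2 = dq l (fun i => algebraMap F E (S i 0)) ∧
      l 0 * l 2 = dq l (fun i => algebraMap F E (S i 1)) ∧
      l 0 * l 1 = dq l (fun i => algebraMap F E (S i 2)) := by
  have : CharP E 2 := charP_of_injective_algebraMap (algebraMap F _).injective 2
  have hc : S 2 2 ≠ 0 := by
    have := hS ![0, 0, 1] (by intro h; simpa using congrFun h 2)
    simpa [cub, dq, dt] using this
  have h3 : S 2 2 * S 2 0 * S 0 2 + S 2 2 ^ 2 * S 0 0 ≠ 0 := by
    have := hS ![1, 0, S 2 0 / S 2 2] (by intro h; simpa using congrFun h 0)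
    contrapose! this
    simp [cub, dq, dt]
    field_simp
    grind
  obtain ⟨p0, hp0⟩ : ∃ z, z = S 2 1 ^ 2 + S 2 2 * S 1 2 := ⟨_, rfl⟩
  obtain ⟨p2, hp2⟩ : ∃ z, z = S 2 0 ^ 2 + S 2 2 * S 0 2 := ⟨_, rfl⟩
  obtain ⟨s0, hs0⟩ : ∃ z, z = S 2 2 * S 2 1 * S 1 2 + S 2 2 ^ 2 * S 1 1 := ⟨_, rfl⟩
  obtain ⟨s1, hs1⟩ : ∃ z, z = S 2 2 * (S 2 1 + S 2 0 * S 1 2) + S 2 2 ^ 2 * S 1 0 := ⟨_, rfl⟩
  obtain ⟨s2, hs2⟩ : ∃ z, z = S 2 2 * (S 2 0 + S 2 1 * S 0 2) + S 2 2 ^ 2 * S 0 1 := ⟨_, rfl⟩
  obtain ⟨s3, hs3⟩ : ∃ z, z = S 2 2 * S 2 0 * S 0 2 + S 2 2 ^ 2 * S 0 0 := ⟨_, rfl⟩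
  rw [← hs3] at h3
  obtain ⟨θ, k1, k2, k3⟩ := sing_root hq hr (C p0 + C (S 2 2) * X + C p2 * X ^ 2)
    (C s0 + C s1 * X + C s2 * X ^ 2 + C s3 * X ^ 3) (by compute_degree)
    (fun h => hc (by simpa [coeff_X, coeff_C] using congrArg (coeff · 1) h)) (by compute_degree!)
    (fun t W => by
      have := hS ![t, 1, (W + S 2 0 * t + S 2 1) / S 2 2] (by intro h; simpa using congrFun h 1)
      contrapose! this
      simp [cub, dq, dt] at this ⊢
      field_simp
      subst hp0 hp2 hs0 hs1 hs2 hs3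
      clear * - this
      grind) E hE
  have hc' : algebraMap F E (S 2 2) ≠ 0 := by simpa using hc
  refine ⟨![θ, 1, ((algebraMap F E s1 + algebraMap F E s3 * θ ^ 2) / algebraMap F E (S 2 2) +
    algebraMap F E (S 2 0) * θ + algebraMap F E (S 2 1)) / algebraMap F E (S 2 2)],
    fun v hv => ?_, ?_⟩
  · have := k2 (C (v 1 * S 2 2 ^ 2 + v 2 * (s1 + S 2 1 * S 2 2)) +
      C (v 0 * S 2 2 ^ 2 + v 2 * S 2 0 * S 2 2) * X + C (v 2 * s3) * X ^ 2) (by compute_degree) (by
        simp [dt] at hv ⊢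
        field_simp at hv
        grind)
    have k := fun i => congrArg (fun P : F[X] => P.coeff i) this
    have a0 := k 0
    have a1 := k 1
    have a2 := k 2
    simp only [coeff_add, coeff_C_mul_X_pow, coeff_C, coeff_C_mul_X, coeff_zero] at a0 a1 a2
    simp [h3] at a0 a1 a2
    simp [a2, hc] at a0 a1
    exact v3 a1 a0 a2
  · have e0 := congrArg (algebraMap F E) hp0
    have e2 := congrArg (algebraMap F E) hp2
    have f0 := congrArg (algebraMap F E) hs0
    have f1 := congrArg (algebraMap F E) hs1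
    have f2 := congrArg (algebraMap F E) hs2
    have f3 := congrArg (algebraMap F E) hs3
    simp only [map_add, map_mul, map_pow] at e0 e2 f0 f1 f2 f3
    simp [map_ofNat] at k1 k3
    simp only [dq]
    simp
    rw [e0, e2, f1, f2, f3] at k3
    rw [f0, f1, f2, f3] at k1
    rw [f1, f3]
    clear * - k1 k3 hc'
    refine ⟨?_, ?_, ?_⟩ <;> field_simp <;> grind

end Pool.Agent.MP_9c0e17_co
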