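import Pool.Agent.MP_9c0e17_co.Even

set_option autoImplicit false
set_option linter.unusedSectionVars false

namespace Pool.Agent.MP_9c0e17_co
open Polynomial Finset

variable {F : Type*} [Field F] [Fintype F] [CharP F 2]

lemma fix_card (g : ℕ) (hg : 1 ≤ g) (E : Finset F) (h : ∀ x ∈ E, x ^ 2 ^ g = x) :
    E.card ≤ 2 ^ g := by
  by_contra hc
  have h1 : 1 < 2 ^ g := two_le_pow hg
  refine FiniteField.X_pow_card_sub_X_ne_zero F h1
    (eq_zero_of_natDegree_lt_card_of_eval_eq_zero' _ E (fun x hx => by simp [h x hx]) ?_)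
  rw [FiniteField.X_pow_card_sub_X_natDegree_eq F h1]; omega

lemma fix_gcd {r j : ℕ} (hq : Fintype.card F = 2 ^ r) {x : F} (h : x ^ 2 ^ j = x) :
    x ^ 2 ^ Nat.gcd j r = x := by
  have k : ∀ n, Function.IsPeriodicPt (frobenius F 2) n x ↔ x ^ 2 ^ n = x := fun n => by
    rw [Function.IsPeriodicPt, Function.IsFixedPt, iterate_frobenius]
  exact (k _).1 (((k _).2 h).gcd ((k _).2 (by rw [← hq, FiniteField.pow_card])))

lemma cross4 {a0 a1 b0 b1 s s1 s2 s3 t t1 t2 t3 : F} (h : a0 + a1 * s + t * (b0 + b1 * s) = 0)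
    (h1 : a0 + a1 * s1 + t1 * (b0 + b1 * s1) = 0) (h2 : a0 + a1 * s2 + t2 * (b0 + b1 * s2) = 0)
    (h3 : a0 + a1 * s3 + t3 * (b0 + b1 * s3) = 0) (hb : b1 ≠ 0) :
    (t + t2) * (t3 + t1) * ((s + s1) * (s3 + s2)) =
      (s + s2) * (s3 + s1) * ((t + t1) * (t3 + t2)) :=
  mul_left_cancel₀ hb (by grind)

lemma mob_gcd {r j : ℕ} (hq : Fintype.card F = 2 ^ r) (hj1 : 1 ≤ j) (a0 a1 b0 b1 : F)
    (hb : b1 ≠ 0) (E : Finset F) (hE : ∀ s ∈ E, a0 + a1 * s + s ^ 2 ^ j * (b0 + b1 * s) = 0) :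
    E.card ≤ 2 ^ Nat.gcd j r + 1 := by
  classical
  have hg : 1 ≤ Nat.gcd j r := Nat.gcd_pos_of_pos_left _ hj1
  have := two_le_pow hg
  by_contra hc
  obtain ⟨s1, s2, s3, h1, h2, h3, h12, h13, h23⟩ := two_lt_card_iff.1 (show 2 < E.card by omega)
  have n23 : s3 + s2 ≠ 0 := by rw [Ne, CharTwo.add_eq_zero]; exact h23.symm
  have n13 : s3 + s1 ≠ 0 := by rw [Ne, CharTwo.add_eq_zero]; exact h13.symm
  have n12 : s1 + s2 ≠ 0 := by rw [Ne, CharTwo.add_eq_zero]; exact h12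
  have ns : ∀ s ∈ E.erase s1, s + s1 ≠ 0 := fun s hs => by
    rw [Ne, CharTwo.add_eq_zero]; exact (mem_erase.1 hs).1
  have := fix_card (Nat.gcd j r) hg
    ((E.erase s1).image fun s => (s + s2) * (s3 + s1) / ((s + s1) * (s3 + s2))) (fun x hx => by
      obtain ⟨s, hs, rfl⟩ := mem_image.1 hx
      refine fix_gcd hq ?_
      have k := cross4 (hE s (mem_erase.1 hs).2) (hE s1 h1) (hE s2 h2) (hE s3 h3) hb
      have n1 := mul_ne_zero (ns s hs) n23
      rw [div_pow, div_eq_div_iff (pow_ne_zero _ n1) n1]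
      simp only [mul_pow, add_pow_char_pow]
      exact k)
  rw [card_image_of_injOn, card_erase_of_mem h1] at this
  · omega
  · intro s hs s' hs' h
    have n1 := mul_ne_zero (ns s hs) n23
    have n2 := mul_ne_zero (ns s' hs') n23
    rw [div_eq_div_iff n1 n2] at h
    refine mul_left_cancel₀ (mul_ne_zero (mul_ne_zero n12 n13) n23) ?_
    grind

/-- the line `a` has level at most `j` -/
def LL (φ : (Fin 3 → F) → Fin 3 → F) (j : ℕ) (a : Fin 3 → F) : Prop :=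
  ∀ x y : Fin 3 → F, dt a x = 0 → dt a y = 0 →
    DegLE (fun t => NN φ (cr x y) (y + t • x) ^ 2 ^ (j - 1)) (2 ^ j)

lemma ex_det {a : Fin 3 → F} (h : a ≠ 0) : ∃ z, dt a z ≠ 0 := by
  obtain ⟨i, hi⟩ := Function.ne_iff.1 h
  exact ⟨Pi.single i 1, by fin_cases i <;> simpa [dt] using hi⟩

lemma span_line {x y p : Fin 3 → F} (h : cr x y ≠ 0) (hp : dt (cr x y) p = 0) :
    ∃ u v : F, p = u • y + v • x := by
  obtain ⟨z, hz⟩ := ex_det h
  refine ⟨dt (cr x p) z / dt (cr x y) z, dt (cr p y) z / dt (cr x y) z, ?_⟩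
  apply v3 <;> simp only [Pi.add_apply, Pi.smul_apply, smul_eq_mul] <;> field_simp <;>
    simp only [dt, cr0, cr1, cr2] at hp ⊢ <;> grind

lemma par_line {a x y : Fin 3 → F} (h : a ≠ 0) (hx : dt a x = 0) (hy : dt a y = 0) :
    ∃ u : F, cr x y = u • a := by
  obtain ⟨z, hz⟩ := ex_det h
  refine ⟨dt (cr x y) z / dt a z, ?_⟩
  apply v3 <;> simp only [Pi.smul_apply, smul_eq_mul] <;> field_simp <;>
    simp only [dt, cr0, cr1, cr2] at hx hy ⊢ <;> grind

lemma ll_of_basis {φ : (Fin 3 → F) → Fin 3 → F} (hφ : Hom φ) {j : ℕ} (hj : 1 ≤ j)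
    {x y : Fin 3 → F} (h : cr x y ≠ 0) {P : F[X]} (hP : P.natDegree ≤ 2 ^ j)
    (hf : ∀ t, NN φ (cr x y) (y + t • x) ^ 2 ^ (j - 1) = P.eval t)
    (ht : NN φ (cr x y) x ^ 2 ^ (j - 1) = P.coeff (2 ^ j)) : LL φ j (cr x y) := by
  have key : ∀ u v : F, NN φ (cr x y) (u • y + v • x) ^ 2 ^ (j - 1) =
      ∑ k ∈ range (2 ^ j + 1), P.coeff k * (u ^ (2 ^ j - k) * v ^ k) := fun u v => by
    by_cases hu : u = 0
    · rw [hu, zero_smul, zero_add, hφ.NN _ _ _ (by simp [dt]; grind), mul_pow, sq_pow hj, ht,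
        sum_range_succ, sum_eq_zero, Nat.sub_self]
      · ring
      · intro k hk
        rw [zero_pow (by have := mem_range.1 hk; omega)]; ring
    · rw [show u • y + v • x = u • (y + (v / u) • x) by apply v3 <;> simp <;> field_simp,
        hφ.NN _ _ _ (dt_cr_line x y _), mul_pow, sq_pow hj, hf,
        eval_eq_sum_range' (Nat.lt_succ_of_le hP), mul_sum]
      refine sum_congr rfl fun k hk => ?_
      rw [← Nat.sub_add_cancel (Nat.le_of_lt_succ (mem_range.1 hk)), pow_add, div_pow,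
        Nat.add_sub_cancel]
      field_simp
  intro x' y' hx hy
  obtain ⟨u1, v1, rfl⟩ := span_line h hx
  obtain ⟨u0, v0, rfl⟩ := span_line h hy
  refine ⟨C ((u1 * v0 + v1 * u0) ^ 2 ^ j) * ∑ k ∈ range (2 ^ j + 1), C (P.coeff k) *
    ((C u0 + C u1 * X) ^ (2 ^ j - k) * (C v0 + C v1 * X) ^ k), ?_, fun t => ?_⟩
  · refine (natDegree_C_mul_le _ _).trans (natDegree_sum_le_of_forall_le _ _ fun k hk => ?_)
    have := mem_range.1 hk
    compute_degree; omega
  · beta_reduce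
    rw [show cr (u1 • y + v1 • x) (u0 • y + v0 • x) = (u1 * v0 + v1 * u0) • cr x y by
      apply v3 <;> simp <;> grind, show u0 • y + v0 • x + t • (u1 • y + v1 • x) =
      (u0 + u1 * t) • y + (v0 + v1 * t) • x by apply v3 <;> simp <;> ring]
    simp only [NN_smul, mul_pow, sq_pow hj, key, eval_mul, eval_C, eval_finsetSum, eval_pow,
      eval_add, eval_X]

lemma top_coeff {φ : (Fin 3 → F) → Fin 3 → F} (hφ : Hom φ) {r j : ℕ}
    (hq : Fintype.card F = 2 ^ r) (hj1 : 1 ≤ j) (hj : j < r) (h : Lev φ j) {x y : Fin 3 → F}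
    {P : F[X]} (hP : P.natDegree ≤ 2 ^ j)
    (hf : ∀ t, NN φ (cr x y) (y + t • x) ^ 2 ^ (j - 1) = P.eval t) (t0 : F) :
    NN φ (cr x y) x ^ 2 ^ (j - 1) = P.coeff (2 ^ j) ∧
      cf φ j (2 ^ j - 1) (y + t0 • x) x = (derivative P).eval t0 := by
  have hle := two_pow_le hq hj
  have h2 := two_le_pow hj1
  obtain ⟨Q, hQ, hg⟩ := h (y + t0 • x) x
  beta_reduce at hg
  have e : cr (y + t0 • x) x = cr x y := by apply v3 <;> simp <;> grind
  have k := rev_coeff (taylor t0 P) Q (2 ^ j) (by rwa [natDegree_taylor]) hQ (by omega)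
    (fun t ht => by
      rw [← hg, taylor_eval, ← hf, e, ← sq_pow hj1, ← mul_pow, ← hφ.NN _ _ _ (dt_cr_line x y _)]
      congr 2
      apply v3 <;> simp <;> field_simp <;> ring)
  constructor
  · have := k 0 (by omega)
    rw [coeff_zero_eq_eval_zero, ← hg, e, zero_smul, add_zero, Nat.sub_zero, taylor_coeff] at this
    rw [this, eq_C_of_natDegree_le_zero ((natDegree_hasseDeriv_le P (2 ^ j)).trans (by omega)),
      eval_C, hasseDeriv_coeff]
    simp
  · rw [cf_eq hq hj hQ hg (by omega) (by omega), k _ (by omega),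
      show 2 ^ j - (2 ^ j - 1) = 1 by omega, taylor_coeff_one]

lemma drop_line {φ : (Fin 3 → F) → Fin 3 → F} (hφ : Hom φ) {r j : ℕ}
    (hq : Fintype.card F = 2 ^ r) (hj1 : 1 ≤ j) (hj : j + 1 < r) (h : Lev φ (j + 1))
    {x y : Fin 3 → F} (hxy : cr x y ≠ 0) (E : Finset F)
    (hE : ∀ t ∈ E, cf φ (j + 1) (2 ^ (j + 1) - 1) (y + t • x) x = 0) (hc : 2 ^ j ≤ E.card) :
    LL φ j (cr x y) := by
  classical
  obtain ⟨P, hP, hf⟩ := h x y
  beta_reduce at hf
  have k := top_coeff hφ hq (by omega) hj h hP hf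
  have h2 := two_le_pow hj1
  have hdd : derivative (derivative P) = 0 := by
    ext n
    simp only [coeff_derivative, coeff_zero]
    have : ((n + 1 : ℕ) : F) * (n : F) = 0 := by
      rw [← Nat.cast_mul, CharP.cast_eq_zero_iff F 2, mul_comm]
      exact (Nat.even_mul_succ_self n).two_dvd
    push_cast at this ⊢
    grind
  have e1 := expand_contract 2 hdd two_ne_zero
  have hR : contract 2 (derivative P) = 0 := by
    refine eq_zero_of_natDegree_lt_card_of_eval_eq_zero' _ (E.image (· ^ 2)) (fun s hs => ?_) ?_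
    · obtain ⟨t, ht, rfl⟩ := mem_image.1 hs
      rw [← expand_eval, e1, ← (k t).2, hE t ht]
    · have h3 := congrArg natDegree e1
      have h4 := natDegree_derivative_le P
      rw [natDegree_expand] at h3
      rw [card_image_of_injective (f := (· ^ 2)) _ (frobenius_inj F 2)]
      rw [pow_succ] at hP
      omega
  rw [hR, map_zero] at e1
  have e2 := expand_contract 2 e1.symm two_ne_zero
  obtain ⟨Q, hQ⟩ := map_surjective (frobenius F 2) (surjective_frobenius F 2) (contract 2 P)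
  have e3 : Q ^ 2 = P := by rw [← map_frobenius_expand, map_expand, hQ, e2]
  have hQd : Q.natDegree ≤ 2 ^ j := by
    rw [← e3, natDegree_pow, pow_succ] at hP; omega
  have sq : ∀ z : F, z ^ 2 ^ (j + 1 - 1) = (z ^ 2 ^ (j - 1)) ^ 2 := fun z => by
    rw [← pow_mul, pow2 hj1]; rfl
  refine ll_of_basis hφ hj1 hxy hQd (fun t => frobenius_inj F 2 ?_) (frobenius_inj F 2 ?_)
  · simp only [frobenius_def]
    rw [← sq, hf, ← e3, eval_pow]
  · simp only [frobenius_def]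
    rw [← sq, (k 0).1, ← e3, pow_succ' 2 j, coeff_pow_of_natDegree_le hQd]

lemma LL.kappa {φ : (Fin 3 → F) → Fin 3 → F} {r j : ℕ} (hq : Fintype.card F = 2 ^ r)
    (hj1 : 1 ≤ j) (hj : j + 1 < r) {a x y : Fin 3 → F} (h : LL φ j a) (hx : dt a x = 0)
    (hy : dt a y = 0) : cf φ (j + 1) (2 ^ (j + 1) - 1) x y = 0 := by
  obtain ⟨P, hP, hf⟩ := h x y hx hy
  have h2 := two_le_pow hj1
  rw [cf_eq (P := P ^ 2 ^ 1) hq hj (by rw [natDegree_pow, pow_succ 2 j]; omega) (fun t => by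
    rw [eval_pow, ← hf, up_pow hj1 (Nat.le_succ j)]; simp) (by rw [pow_succ]; omega)
    (by omega), coeff_pow_two_pow, if_neg (by rw [pow_succ 2 j]; omega)]

lemma TrD.ll {φ : (Fin 3 → F) → Fin 3 → F} {j : ℕ} (hj : 1 ≤ j) {a b c g : Fin 3 → F}
    (h : TrD φ 1 a b c g) : LL φ j a := by
  intro x y hx hy
  have ha : a ≠ 0 := by
    rintro rfl
    simpa [dt] using h.1
  obtain ⟨u, hu⟩ := par_line ha hx hy
  by_cases h0 : u = 0
  · exact ⟨0, by simp, fun t => by simp only [hu, h0, zero_smul, NN_zero]; simp⟩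
  · obtain ⟨P, hP, hf, -⟩ := TrD.poly le_rfl (hu ▸ h.smul le_rfl h0)
    have e : 2 ^ (j - 1) * 2 ^ 1 = 2 ^ j := pow2 hj
    exact e ▸ (DegLE.pow ⟨P, hP, hf⟩ (2 ^ (j - 1))).congr fun t => up_pow le_rfl hj _

lemma pencil_roots {φ : (Fin 3 → F) → Fin 3 → F} (hφ : Hom φ) {r j : ℕ}
    (hq : Fintype.card F = 2 ^ r) (hj2 : 2 ≤ j) (hj : j < r) (h : Lev φ j) {x y1 : Fin 3 → F}
    (h1 : cf φ j (2 ^ j - 1) x y1 ≠ 0) (y0 : Fin 3 → F) (E : Finset F)
    (hE : ∀ s ∈ E, cf φ j (2 ^ j - 1) x (y0 + s • y1) = 0) : E.card ≤ 2 ^ Nat.gcd j r + 1 := by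
  have h4 : 2 ^ 2 ≤ 2 ^ j := Nat.pow_le_pow_right (by norm_num) hj2
  have hle := two_pow_le hq hj
  obtain ⟨P, Q, hP, hQ, hs⟩ := cf_shape hq (by omega) hj h (2 ^ j - 1) (by omega) (by omega) x y0 y1
  have := cf_link hφ hq (by omega) hj h _ (by omega) (by omega) (by omega) x y0 y1 hP hQ hs
  rw [show 2 ^ j - (2 ^ j - 1) = 1 by omega] at this hP hQ
  refine mob_gcd hq (by omega) (P.coeff 0) (P.coeff 1) (Q.coeff 0) (Q.coeff 1) (this ▸ h1) E
    fun s hs' => ?_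
  rw [← hE s hs', hs, eval_eq_sum_range' (n := 2) (by omega),
    eval_eq_sum_range' (n := 2) (by omega)]
  simp [sum_range_succ]

end Pool.Agent.MP_9c0e17_co
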