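import Pool.Agent.MP_9c0e17_co.Main

set_option autoImplicit false
set_option linter.unusedSectionVars false

namespace Pool.Agent.MP_9c0e17_co
open Polynomial Finset

section field
variable {F : Type*} [Field F] [Fintype F] [CharP F 2]

/-- the oval property on all lines -/
def Inj (φ : (Fin 3 → F) → Fin 3 → F) : Prop := ∀ x y : Fin 3 → F, cr x y ≠ 0 →
  Function.Injective fun u : F => NN φ (cr x y) (y + u • x) + u ^ 2 * NN φ (cr x y) x

lemma NN_zero (φ : (Fin 3 → F) → Fin 3 → F) (p : Fin 3 → F) : NN φ 0 p = 0 := by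
  simp [NN, e2, dq]

theorem lev_top {φ : (Fin 3 → F) → Fin 3 → F} {j : ℕ} (hφ : Hom φ)
    (hq : Fintype.card F = 2 ^ (j + 1)) (hj : 1 ≤ j) (h : Inj φ) : Lev φ j := by
  classical
  intro x y
  by_cases h0 : cr x y = 0
  · exact ⟨0, by simp, fun t => by simp only [h0, NN_zero]; simp⟩
  have h2 := two_le_pow hj
  have he := pow2 hj
  rw [pow_succ] at hq
  obtain ⟨P, hP, hf⟩ := exists_poly fun t => NN φ (cr x y) (y + t • x) ^ 2 ^ (j - 1)
  refine ⟨P, ?_, hf⟩
  have key : ∀ t0 : F, (hasseDeriv (2 ^ j) P).eval t0 = NN φ (cr x y) x ^ 2 ^ (j - 1) := by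
    intro t0
    have e : cr (y + t0 • x) x = cr x y := by apply v3 <;> simp <;> grind
    have h1 := (Finite.injective_iff_bijective.1 (h (y + t0 • x) x (e ▸ h0))).sum_comp
      (· ^ 2 ^ (j - 1))
    rw [FiniteField.sum_pow_lt_card_sub_one F _ (by omega)] at h1
    simp only [e, add_pow_char_pow, mul_pow, sq_pow hj] at h1
    rw [sum_add_distrib, ← sum_mul, FiniteField.sum_pow_lt_card_sub_one F _ (by omega), zero_mul,
      add_zero, Fintype.sum_eq_add_sum_compl 0, zero_smul, add_zero, CharTwo.add_eq_zero] at h1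
    rw [← taylor_coeff, ← mom_coeff _ (by rwa [natDegree_taylor]) _ (by omega) (by omega), h1,
      ← Equiv.sum_comp (Equiv.inv F), Fintype.sum_eq_add_sum_compl 0]
    simp only [Equiv.inv_apply, inv_zero]
    rw [zero_pow (by omega), mul_zero, zero_add]
    refine sum_congr rfl fun u hu => ?_
    have hu : u ≠ 0 := by simpa using hu
    have e2 : x + u • (y + t0 • x) = u • (y + (u⁻¹ + t0) • x) := by
      apply v3 <;> simp <;> field_simp <;> ring
    rw [e2, hφ.NN _ _ _ (dt_cr_line x y _), mul_pow, sq_pow hj, taylor_eval, ← hf, mul_comm]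
    congr 1
    have h1 : u ^ (Fintype.card F - 1) = 1 := FiniteField.pow_card_sub_one_eq_one u hu
    rw [inv_pow]
    refine inv_eq_of_mul_eq_one_right ?_
    rw [← pow_add, Nat.sub_add_cancel (by omega), h1]
  have h3 : hasseDeriv (2 ^ j) P = C (NN φ (cr x y) x ^ 2 ^ (j - 1)) :=
    eq_of_eval _ _ ∅ (Fintype.card F - 1) (fun t _ => by simp [key])
      ((natDegree_hasseDeriv_le _ _).trans (by omega)) (by simp) (by simp only [card_empty]; omega)
  refine natDegree_le_iff_coeff_eq_zero.2 fun i hi => ?_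
  by_cases hi' : i ≤ Fintype.card F - 1
  · have h4 := congrArg (coeff · (i - 2 ^ j)) h3
    have h5 := lucas j 1 1 (i - 2 ^ j) 0 (by omega) (by omega)
    simp only [hasseDeriv_coeff, coeff_C, if_neg (show i - 2 ^ j ≠ 0 by omega)] at h4
    rw [mul_one, add_zero, add_comm] at h5
    rw [cast_of_modEq h5, Nat.sub_add_cancel hi.le] at h4
    simpa using h4
  · exact coeff_eq_zero_of_natDegree_lt (by omega)

lemma Inj.cf_ne {φ : (Fin 3 → F) → Fin 3 → F} {r : ℕ} (h : Inj φ) (hφ : Hom φ)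
    (hq : Fintype.card F = 2 ^ r) (hr : 2 ≤ r) (hl : Lev φ 1) (x y : Fin 3 → F)
    (hxy : cr x y ≠ 0) : cf φ 1 1 x y ≠ 0 := fun h0 => by
  refine zero_ne_one (h x y hxy ?_)
  simp only [quadline hφ hq hr hl x y, h0]
  grind

end field

open IsLocalRing Matrix in
lemma Dat.inj {R : Type*} [CommRing R] [Fintype R] [IsLocalRing R] {r : ℕ} {K : Set (Fin 3 → R)}
    {φ : (Fin 3 → ResidueField R) → Fin 3 → ResidueField R} (D : Dat r K φ)
    [Fintype (ResidueField R)] [CharP (ResidueField R) 2] : Inj φ := by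
  intro x y hxy u v huv
  by_contra hne
  obtain ⟨z, hz⟩ : ∃ z, dt (cr x y) z ≠ 0 := by
    obtain ⟨i, hi⟩ := Function.ne_iff.1 hxy
    exact ⟨Pi.single i 1, by fin_cases i <;> simpa [dt] using hi⟩
  obtain ⟨A, hA⟩ := ex_sqrt (NN φ (cr x y) x)
  obtain ⟨B, hB⟩ := ex_sqrt (NN φ (cr x y) (y + u • x) + u ^ 2 * NN φ (cr x y) x)
  obtain ⟨η, h1, h2⟩ : ∃ η : Fin 3 → ResidueField R, dq x η = A ^ 2 ∧ dq y η = B ^ 2 := by
    refine ⟨fun i => ((A * cr y z i + B * cr z x i) / dt (cr x y) z) ^ 2, ?_, ?_⟩ <;>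
      simp only [dq] <;> field_simp <;> simp [dt] <;> grind
  have tw0 : tw (0 : ResidueField R) = 0 := by simpa using D.G.tw_res 0
  have hp : ∀ p, dt (cr x y) p = 0 → NN φ (cr x y) p = dq p η →
      (fun i => sq' (cr x y i) + tw (η i)) ⬝ᵥ sv φ p = 0 := fun p a b => by
    rw [D.dot _ _ _ a, b, CharTwo.add_self_eq_zero, tw0]
  have hq : ∀ w : ResidueField R, dq (y + w • x) η = dq y η + w ^ 2 * dq x η := fun w => by
    simp [dq]; grind
  have horb : ∀ p p', sv φ p' ∈ orb (sv φ p) → cr p p' = 0 := by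
    rintro p p' ⟨w, hw⟩
    have k := fun i => congrArg (fun z => residue R (z i)) hw
    simp only [Pi.smul_apply, smul_eq_mul, map_mul, D.res_sv] at k
    have k0 := k 0
    have k1 := k 1
    have k2 := k 2
    apply v3 <;> refine pow_eq_zero_iff two_ne_zero |>.1 ?_ <;> simp <;> grind
  have n1 : ∀ w : ResidueField R, cr x (y + w • x) ≠ 0 := fun w => by
    convert hxy using 1; apply v3 <;> simp <;> grind
  have n2 : ∀ p p' : Fin 3 → ResidueField R, cr p p' ≠ 0 → p ≠ 0 ∧ p' ≠ 0 := fun p p' h => by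
    constructor <;> rintro rfl <;> exact h (by apply v3 <;> simp)
  simp only at huv
  obtain ⟨i, hi⟩ := Function.ne_iff.1 hxy
  rcases D.H.col ⟨i, by rw [← residue_ne_zero_iff_isUnit]; simpa [D.G.res_tw] using hi⟩
    (D.mem _ (n2 _ _ hxy).1) (D.mem _ (n2 _ _ (n1 u)).2) (D.mem _ (n2 _ _ (n1 v)).2)
    (hp x (by simp [dt]; grind) (by rw [h1, hA])) (hp _ (dt_cr_line x y u) (by rw [hq]; grind))
    (hp _ (dt_cr_line x y v) (by rw [hq]; grind)) with h | h | h
  · exact n1 u (horb _ _ h)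
  · exact n1 v (horb _ _ h)
  · have := horb _ _ h
    rw [show cr (y + u • x) (y + v • x) = (u - v) • cr x y by apply v3 <;> simp <;> grind,
      smul_eq_zero] at this
    exact this.elim (sub_ne_zero.2 hne) hxy

end Pool.Agent.MP_9c0e17_co
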