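import Pool.Agent.MP_9c0e17_co.Level

set_option autoImplicit false
set_option linter.unusedSectionVars false

namespace Pool.Agent.MP_9c0e17_co
open Polynomial Finset

variable {F : Type*} [Field F] [Fintype F] [CharP F 2]

/-- all lines have level at most `j` -/
def Lev (φ : (Fin 3 → F) → Fin 3 → F) (j : ℕ) : Prop :=
  ∀ x y : Fin 3 → F, DegLE (fun t => NN φ (cr x y) (y + t • x) ^ 2 ^ (j - 1)) (2 ^ j)

/-- coefficients of the line polynomial -/
def cf (φ : (Fin 3 → F) → Fin 3 → F) (j m : ℕ) (x y : Fin 3 → F) : F :=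
  ∑ t : F, NN φ (cr x y) (y + t • x) ^ 2 ^ (j - 1) * t ^ (Fintype.card F - 1 - m)

lemma e2_line (x y : Fin 3 → F) (t : F) : e2 (cr x y) (y + t • x) =
    e2 (cr x y) y + dq (cr x y) (x * y) * t + e2 (cr x y) x * t ^ 2 := by
  simp [e2, dq]; grind

lemma dt_cr_line (x y : Fin 3 → F) (t : F) : dt (cr x y) (y + t • x) = 0 := by
  simp [dt]; grind

lemma pow2 {j : ℕ} (hj : 1 ≤ j) : 2 ^ (j - 1) * 2 = 2 ^ j := by
  rw [← pow_succ]; congr 1; omega

lemma sq_pow {R : Type*} [Monoid R] {j : ℕ} (hj : 1 ≤ j) (t : R) :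
    (t ^ 2) ^ 2 ^ (j - 1) = t ^ 2 ^ j := by
  rw [← pow_mul, mul_comm, pow2 hj]

lemma Lev.dq {φ : (Fin 3 → F) → Fin 3 → F} {j : ℕ} (h : Lev φ j) (hj : 1 ≤ j) (x y : Fin 3 → F) :
    DegLE (fun t => dq (cr x y) (φ (y + t • x)) ^ 2 ^ (j - 1)) (2 ^ j) := by
  have h2 := (degLE_quad (e2 (cr x y) y) (Pool.Agent.MP_9c0e17_co.dq (cr x y) (x * y))
    (e2 (cr x y) x)).pow (2 ^ (j - 1))
  rw [pow2 hj] at h2
  refine ((h x y).add h2).congr fun t => ?_
  rw [← e2_line, ← add_pow_char_pow, NN]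
  congr 1; grind

lemma two_pow_le {r j : ℕ} (hq : Fintype.card F = 2 ^ r) (hj : j < r) :
    2 * 2 ^ j ≤ Fintype.card F := by
  rw [hq, ← pow_succ']; exact Nat.pow_le_pow_right (by norm_num) hj

lemma cf_shape {φ : (Fin 3 → F) → Fin 3 → F} {r j : ℕ} (hq : Fintype.card F = 2 ^ r)
    (hj1 : 1 ≤ j) (hj : j < r) (h : Lev φ j) (m : ℕ) (hm1 : 1 ≤ m) (hm2 : m < 2 ^ j)
    (x y0 y1 : Fin 3 → F) :
    ∃ P Q : F[X], P.natDegree ≤ 2 ^ j - m ∧ Q.natDegree ≤ 2 ^ j - m ∧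
      ∀ s, cf φ j m x (y0 + s • y1) = P.eval s + s ^ 2 ^ j * Q.eval s := by
  have hle := two_pow_le hq hj
  have he := pow2 hj1
  obtain ⟨P, Q, hP, hQ, hPQ⟩ := level
    (fun s t => dq (cr x (y0 + s • y1 + t • x)) (φ (y0 + s • y1 + t • x)) ^ 2 ^ (j - 1))
    (fun s t => dq (cr y1 (y0 + s • y1 + t • x)) (φ (y0 + s • y1 + t • x)) ^ 2 ^ (j - 1))
    r j hq hj (fun m c => (h.dq hj1 (x + m • y1) (y0 + c • y1)).congr fun t => by
      have e : y0 + c • y1 + t • (x + m • y1) = y0 + (m * t + c) • y1 + t • x := by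
        apply v3 <;> simp <;> ring
      rw [e, ← sq_pow hj1, ← mul_pow, ← add_pow_char_pow]
      congr 1; simp [dq]; grind)
    (fun t => (h.dq hj1 y1 (y0 + t • x)).congr fun s => by
      have e : y0 + t • x + s • y1 = y0 + s • y1 + t • x := by
        apply v3 <;> simp <;> ring
      rw [e]; congr 1; simp [dq]; grind) m hm1 hm2
  have key : ∀ s : F, cf φ j m x (y0 + s • y1) = P.eval s + s ^ 2 ^ j * Q.eval s +
      if m = 2 ^ (j - 1) then dq (cr x (y0 + s • y1)) (x * (y0 + s • y1)) ^ 2 ^ (j - 1)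
      else 0 := by
    intro s
    obtain ⟨y, hy⟩ : ∃ y, y = y0 + s • y1 := ⟨_, rfl⟩
    have h3 := mom_coeff (C (e2 (cr x y) y ^ 2 ^ (j - 1)) +
      C (dq (cr x y) (x * y) ^ 2 ^ (j - 1)) * X ^ 2 ^ (j - 1) +
      C (e2 (cr x y) x ^ 2 ^ (j - 1)) * X ^ 2 ^ j) (by
        refine natDegree_add_le_of_degree_le (natDegree_add_le_of_degree_le ?_ ?_) ?_
        · simp
        · exact (natDegree_C_mul_X_pow_le _ _).trans (by omega)
        · exact (natDegree_C_mul_X_pow_le _ _).trans (by omega)) m hm1 (by omega)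
    simp only [coeff_add, coeff_C_mul_X_pow, coeff_C, if_neg (show m ≠ 0 by omega),
      if_neg (show m ≠ 2 ^ j by omega), zero_add, add_zero] at h3
    rw [← hPQ s, ← hy, ← h3, cf, ← sum_add_distrib]
    refine sum_congr rfl fun t _ => ?_
    have e : cr x (y + t • x) = cr x y := by apply v3 <;> simp <;> grind
    rw [← add_mul, e, NN, e2_line, add_pow_char_pow, add_pow_char_pow, add_pow_char_pow,
      mul_pow, mul_pow, sq_pow hj1]
    simp only [eval_add, eval_mul, eval_C, eval_pow, eval_X]; ring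
  by_cases hme : m = 2 ^ (j - 1)
  · refine ⟨P + (C (dq (cr x y0) (x * y0) ^ m) + C (dq (cr x y0) (x * y1) ^ m) * X ^ m),
      Q + (C (dq (cr x y1) (x * y0) ^ m) + C (dq (cr x y1) (x * y1) ^ m) * X ^ m), ?_, ?_,
      fun s => ?_⟩
    · refine natDegree_add_le_of_degree_le hP (natDegree_add_le_of_degree_le (by simp) ?_)
      exact (natDegree_C_mul_X_pow_le _ _).trans (by omega)
    · refine natDegree_add_le_of_degree_le hQ (natDegree_add_le_of_degree_le (by simp) ?_)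
      exact (natDegree_C_mul_X_pow_le _ _).trans (by omega)
    · have e : dq (cr x (y0 + s • y1)) (x * (y0 + s • y1)) =
          (dq (cr x y0) (x * y0) + dq (cr x y0) (x * y1) * s) +
          s ^ 2 * (dq (cr x y1) (x * y0) + dq (cr x y1) (x * y1) * s) := by
        simp [dq]; grind
      rw [key, if_pos hme, e, add_pow_char_pow, mul_pow, add_pow_char_pow, add_pow_char_pow,
        mul_pow, mul_pow, sq_pow hj1, ← hme]
      simp only [eval_add, eval_mul, eval_C, eval_pow, eval_X]; ring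
  · exact ⟨P, Q, hP, hQ, fun s => by rw [key, if_neg hme, add_zero]⟩

lemma cf_smul {φ : (Fin 3 → F) → Fin 3 → F} (hφ : Hom φ) {j : ℕ} (hj1 : 1 ≤ j) (m : ℕ)
    (hm : m ≤ 2 * 2 ^ j) (hm' : m ≤ Fintype.card F - 1) (x y : Fin 3 → F) (c : F) (hc : c ≠ 0) :
    cf φ j m x (c • y) = c ^ (2 * 2 ^ j - m) * cf φ j m x y := by
  unfold cf
  rw [← Equiv.sum_comp (Equiv.mulLeft₀ c hc), mul_sum]
  refine sum_congr rfl fun t _ => ?_
  have e1 : cr x (c • y) = c • cr x y := by apply v3 <;> simp <;> ring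
  have e2 : c • y + (c * t) • x = c • (y + t • x) := by apply v3 <;> simp <;> ring
  simp only [Equiv.mulLeft₀_apply]
  rw [e1, e2, NN_smul, hφ.NN _ _ _ (dt_cr_line x y t), mul_pow, mul_pow, sq_pow hj1, mul_pow]
  have h1 : c ^ (Fintype.card F - 1) = 1 := FiniteField.pow_card_sub_one_eq_one c hc
  have h2 : c ^ 2 ^ j * c ^ 2 ^ j * c ^ (Fintype.card F - 1 - m) = c ^ (2 * 2 ^ j - m) := by
    rw [← pow_add, ← pow_add, show 2 ^ j + 2 ^ j + (Fintype.card F - 1 - m) =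
      (2 * 2 ^ j - m) + (Fintype.card F - 1) by omega, pow_add, h1, mul_one]
  rw [← h2]; ring

lemma deg_shape {P Q : F[X]} {d n : ℕ} (hP : P.natDegree ≤ n) (hQ : Q.natDegree ≤ n) :
    (P + X ^ d * Q).natDegree ≤ d + n :=
  natDegree_add_le_of_degree_le (by omega)
    (natDegree_mul_le.trans (by rw [natDegree_X_pow]; omega))

lemma cf_link {φ : (Fin 3 → F) → Fin 3 → F} (hφ : Hom φ) {r j : ℕ} (hq : Fintype.card F = 2 ^ r)
    (hj1 : 1 ≤ j) (hj : j < r) (h : Lev φ j) (m : ℕ) (hm1 : 1 ≤ m) (hm2 : m < 2 ^ j)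
    (hm3 : 2 * 2 ^ j - m + 1 < Fintype.card F) (x y0 y1 : Fin 3 → F) {P Q : F[X]}
    (hP : P.natDegree ≤ 2 ^ j - m) (hQ : Q.natDegree ≤ 2 ^ j - m)
    (hPQ : ∀ s, cf φ j m x (y0 + s • y1) = P.eval s + s ^ 2 ^ j * Q.eval s) :
    Q.coeff (2 ^ j - m) = cf φ j m x y1 := by
  have hle := two_pow_le hq hj
  obtain ⟨P', Q', hP', hQ', hPQ'⟩ := cf_shape hq hj1 hj h m hm1 hm2 x y1 y0
  have e : 2 ^ j + (2 ^ j - m) = 2 * 2 ^ j - m := by omega
  have := rev_coeff (P + X ^ 2 ^ j * Q) (P' + X ^ 2 ^ j * Q') (2 * 2 ^ j - m)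
    (e ▸ deg_shape hP hQ) (e ▸ deg_shape hP' hQ') hm3 (fun t ht => by
      simp only [eval_add, eval_mul, eval_pow, eval_X]
      rw [← hPQ, ← hPQ', ← cf_smul hφ hj1 m (by omega) (by omega) x _ t ht]
      congr 1
      apply v3 <;> simp <;> field_simp <;> ring) 0 (by omega)
  rw [coeff_zero_eq_eval_zero, Nat.sub_zero, ← e, coeff_add, add_comm (2 ^ j), coeff_X_pow_mul,
    coeff_eq_zero_of_natDegree_lt (by omega), zero_add] at this
  rw [← this]
  simp only [eval_add, eval_mul, eval_pow, eval_X]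
  rw [← hPQ']; simp

/-- data of a translation oval on the line `a` -/
def TrD (φ : (Fin 3 → F) → Fin 3 → F) (j : ℕ) (a b c g : Fin 3 → F) : Prop :=
  dt (cr a b) c ≠ 0 ∧ ∀ p, dt a p = 0 →
    NN φ a p ^ 2 ^ (j - 1) = dt b p ^ (2 ^ j - 1) * dt c p + dt g p ^ 2 ^ j

lemma TrD.smul {φ : (Fin 3 → F) → Fin 3 → F} {j : ℕ} (hj : 1 ≤ j) {a b c g : Fin 3 → F}
    (h : TrD φ j a b c g) {u : F} (hu : u ≠ 0) :
    TrD φ j (u • a) b ((u ^ 2 ^ j) • c) (u • g) := by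
  refine ⟨?_, fun p hp => ?_⟩
  · have : dt (cr (u • a) b) ((u ^ 2 ^ j) • c) = u * u ^ 2 ^ j * dt (cr a b) c := by
      simp [dt]; ring
    rw [this]; exact mul_ne_zero (mul_ne_zero hu (pow_ne_zero _ hu)) h.1
  · have e0 : dt (u • a) p = u * dt a p := by simp [dt]; ring
    have e1 : dt ((u ^ 2 ^ j) • c) p = u ^ 2 ^ j * dt c p := by simp [dt]; ring
    have e2 : dt (u • g) p = u * dt g p := by simp [dt]; ring
    rw [e0] at hp
    rw [NN_smul, mul_pow, sq_pow hj, h.2 p ((mul_eq_zero.1 hp).resolve_left hu), e1, e2, mul_pow]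
    ring

/-- the three possible coefficient patterns -/
def PT (d : ℕ) (c : ℕ → F) (t0 : F) : Prop :=
  ∃ l : F, l ≠ 0 ∧ ∀ m, 1 ≤ m → m < d → c m = l * t0 ^ (d - 1 - m)

/-- second pattern -/
def ST (d : ℕ) (c : ℕ → F) : Prop := c 1 ≠ 0 ∧ ∀ m, 2 ≤ m → m < d → c m = 0

/-- third pattern -/
def LT (d : ℕ) (c : ℕ → F) : Prop :=
  (∀ m, Odd m → m < d → c m = 0) ∧ ∃ m, 2 ≤ m ∧ m + 2 ≤ d ∧ c m ≠ 0

lemma dt_line (b x y : Fin 3 → F) (t : F) : dt b (y + t • x) = dt b y + dt b x * t := by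
  simp [dt]; ring

lemma TrD.poly {φ : (Fin 3 → F) → Fin 3 → F} {j : ℕ} (hj : 1 ≤ j) {x y b c g : Fin 3 → F}
    (h : TrD φ j (cr x y) b c g) : ∃ P : F[X], P.natDegree ≤ 2 ^ j ∧
      (∀ t, NN φ (cr x y) (y + t • x) ^ 2 ^ (j - 1) = P.eval t) ∧
      (dt b x ≠ 0 → PT (2 ^ j) P.coeff (dt b y / dt b x)) ∧
      (dt b x = 0 → ST (2 ^ j) P.coeff) := by
  have hdet : dt b x * dt c y + dt b y * dt c x ≠ 0 := by
    have := h.1
    contrapose! this
    simp only [dt, cr0, cr1, cr2] at this ⊢; grind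
  obtain ⟨n, hn⟩ : ∃ n, 2 ^ j = n + 1 := ⟨2 ^ j - 1, by have : 0 < 2 ^ j := by positivity
                                                        omega⟩
  have hn1 : 1 ≤ n := by
    have := pow2 hj
    omega
  have hf : ∀ t, NN φ (cr x y) (y + t • x) ^ 2 ^ (j - 1) = (dt b y + dt b x * t) ^ n *
      (dt c y + dt c x * t) + (dt g y ^ (n + 1) + dt g x ^ (n + 1) * t ^ (n + 1)) := fun t => by
    rw [h.2 _ (dt_cr_line x y t), dt_line, dt_line, dt_line, add_pow_char_pow, mul_pow, hn]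
    rfl
  by_cases hb : dt b x = 0
  · refine ⟨C (dt b y ^ n * dt c y + dt g y ^ (n + 1)) + C (dt b y ^ n * dt c x) * X +
      C (dt g x ^ (n + 1)) * X ^ (n + 1), ?_, fun t => ?_, fun h => absurd hb h, fun _ => ⟨?_, ?_⟩⟩
    · rw [hn]; compute_degree
    · rw [hf, hb]; simp; ring
    · rw [hb] at hdet
      simp only [coeff_add, coeff_C_mul_X_pow, coeff_C, coeff_C_mul_X]
      rw [if_neg (by omega), if_neg (show 1 ≠ n + 1 by omega)]
      have h1 : dt b y ≠ 0 := by rintro h; simp [h] at hdet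
      have h2 : dt c x ≠ 0 := by rintro h; simp [h] at hdet
      simp [h1, h2]
    · intro m h1 h2
      simp only [coeff_add, coeff_C_mul_X_pow, coeff_C, coeff_C_mul_X]
      rw [if_neg (by omega), if_neg (by omega), if_neg (by omega)]; simp
  · obtain ⟨t0, ht0⟩ : ∃ t0, t0 = dt b y / dt b x := ⟨_, rfl⟩
    have e0 : dt b y = dt b x * t0 := by rw [ht0]; field_simp
    refine ⟨C (dt b x ^ n * dt c x * t0 ^ (n + 1) + dt g y ^ (n + 1)) +
      C (dt b x ^ n * (dt c y + dt c x * t0)) * (X + C t0) ^ n +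
      C (dt b x ^ n * dt c x + dt g x ^ (n + 1)) * X ^ (n + 1), ?_, fun t => ?_,
      fun _ => ⟨dt b x ^ n * (dt c y + dt c x * t0), ?_, fun m h1 h2 => ?_⟩,
      fun h => absurd h hb⟩
    · rw [hn]; compute_degree
    · have e1 : (t + t0) ^ (n + 1) = t ^ (n + 1) + t0 ^ (n + 1) := by
        rw [← hn, add_pow_char_pow]
      rw [hf, e0, show dt b x * t0 + dt b x * t = dt b x * (t + t0) by ring, mul_pow]
      simp only [eval_add, eval_mul, eval_C, eval_pow, eval_X]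
      rw [pow_succ (t + t0)] at e1
      have : dt c y + dt c x * t = dt c x * (t + t0) + (dt c y + dt c x * t0) := by grind
      rw [this]
      linear_combination (dt b x ^ n * dt c x) * e1
    · refine mul_ne_zero (pow_ne_zero _ hb) ?_
      rw [e0] at hdet
      intro h0
      apply hdet
      linear_combination dt b x * h0
    · simp only [coeff_add, coeff_X_pow, coeff_C, coeff_C_mul, coeff_X_add_C_pow]
      rw [if_neg (by omega), if_neg (by omega), ← ht0, show n = 2 ^ j - 1 by omega,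
        cast_of_modEq (choose_full j m h2)]
      simp

lemma cf_eq {φ : (Fin 3 → F) → Fin 3 → F} {r j : ℕ} (hq : Fintype.card F = 2 ^ r)
    (hj : j < r) {x y : Fin 3 → F} {P : F[X]} (hP : P.natDegree ≤ 2 ^ j)
    (h : ∀ t, NN φ (cr x y) (y + t • x) ^ 2 ^ (j - 1) = P.eval t) {m : ℕ} (h1 : 1 ≤ m)
    (h2 : m < 2 ^ j) : cf φ j m x y = P.coeff m := by
  have hle := two_pow_le hq hj
  unfold cf
  simp_rw [h]
  exact mom_coeff P (by omega) m h1 (by omega)

lemma TrD.pt {φ : (Fin 3 → F) → Fin 3 → F} {r j : ℕ} (hq : Fintype.card F = 2 ^ r) (hj1 : 1 ≤ j)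
    (hj : j < r) {x y b c g : Fin 3 → F} (h : TrD φ j (cr x y) b c g) (hb : dt b x ≠ 0) :
    PT (2 ^ j) (fun m => cf φ j m x y) (dt b y / dt b x) := by
  obtain ⟨P, hP, hf, h1, -⟩ := h.poly hj1
  obtain ⟨l, hl, h1⟩ := h1 hb
  exact ⟨l, hl, fun m a b => (cf_eq hq hj hP hf a b).trans (h1 m a b)⟩

lemma TrD.st {φ : (Fin 3 → F) → Fin 3 → F} {r j : ℕ} (hq : Fintype.card F = 2 ^ r) (hj1 : 1 ≤ j)
    (hj : j < r) {x y b c g : Fin 3 → F} (h : TrD φ j (cr x y) b c g) (hb : dt b x = 0) :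
    ST (2 ^ j) (fun m => cf φ j m x y) := by
  obtain ⟨P, hP, hf, -, h1⟩ := h.poly hj1
  have := pow2 hj1
  have : 0 < 2 ^ (j - 1) := by positivity
  obtain ⟨h1, h2⟩ := h1 hb
  exact ⟨(cf_eq hq hj hP hf le_rfl (by omega)).trans_ne h1,
    fun m a b => (cf_eq hq hj hP hf (by omega) b).trans (h2 m a b)⟩

lemma coeff_pow_two_pow (P : F[X]) (k m : ℕ) : (P ^ 2 ^ k).coeff m =
    if 2 ^ k ∣ m then P.coeff (m / 2 ^ k) ^ 2 ^ k else 0 := by
  rw [← map_iterateFrobenius_expand, coeff_map, coeff_expand (by positivity)]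
  split_ifs <;> simp [iterateFrobenius_def]

lemma up_pow {i j : ℕ} (hi : 1 ≤ i) (hij : i ≤ j) (z : F) :
    z ^ 2 ^ (j - 1) = (z ^ 2 ^ (i - 1)) ^ 2 ^ (j - i) := by
  rw [← pow_mul, ← pow_add]; congr 2; omega

lemma TrD.lt {φ : (Fin 3 → F) → Fin 3 → F} {r i j : ℕ} (hq : Fintype.card F = 2 ^ r) (hi : 1 ≤ i)
    (hij : i < j) (hj : j < r) {x y b c g : Fin 3 → F} (h : TrD φ i (cr x y) b c g) :
    LT (2 ^ j) (fun m => cf φ j m x y) := by
  obtain ⟨P, hP, hf, h1, h2⟩ := h.poly hi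
  have e : 2 ^ (j - i) * 2 ^ i = 2 ^ j := by rw [← pow_add]; congr 1; omega
  have hP' : (P ^ 2 ^ (j - i)).natDegree ≤ 2 ^ j :=
    natDegree_pow_le.trans (e ▸ Nat.mul_le_mul_left _ hP)
  have hf' : ∀ t, NN φ (cr x y) (y + t • x) ^ 2 ^ (j - 1) = (P ^ 2 ^ (j - i)).eval t := fun t => by
    rw [up_pow hi hij.le, hf, eval_pow]
  have k1 := pow2 (show 1 ≤ j - i by omega)
  have k2 := pow2 hi
  have k3 : 0 < 2 ^ (j - i - 1) := by positivity
  have k4 : 0 < 2 ^ (i - 1) := by positivity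
  refine ⟨fun m ho hm => ?_, ?_⟩
  · refine (cf_eq hq hj hP' hf' ho.pos hm).trans ?_
    rw [coeff_pow_two_pow, if_neg]
    rintro ⟨c, rfl⟩
    rw [← k1, mul_right_comm] at ho
    exact absurd ho (Nat.not_odd_iff_even.2 (even_two.mul_left _))
  · have main : ∀ m', 1 ≤ m' → m' < 2 ^ i → P.coeff m' ≠ 0 →
        ∃ m, 2 ≤ m ∧ m + 2 ≤ 2 ^ j ∧ cf φ j m x y ≠ 0 := fun m' a b c => by
      have : 2 ^ (j - i) * (m' + 1) ≤ 2 ^ j := e ▸ Nat.mul_le_mul_left _ b
      refine ⟨2 ^ (j - i) * m', by nlinarith, by nlinarith, ?_⟩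
      rw [cf_eq hq hj hP' hf' (by nlinarith) (by nlinarith), coeff_pow_two_pow,
        if_pos (dvd_mul_right _ _), Nat.mul_div_cancel_left _ (by omega)]
      exact pow_ne_zero _ c
    by_cases hb : dt b x = 0
    · exact main 1 le_rfl (by omega) (h2 hb).1
    · obtain ⟨l, hl, h1⟩ := h1 hb
      refine main (2 ^ i - 1) (by omega) (by omega) ?_
      rw [h1 _ (by omega) (by omega)]; simpa using hl

lemma lev_of_tr {φ : (Fin 3 → F) → Fin 3 → F} {j : ℕ}
    (h : ∀ a, a ≠ 0 → ∃ i, 1 ≤ i ∧ i ≤ j ∧ ∃ b c g, TrD φ i a b c g) : Lev φ j := by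
  intro x y
  by_cases h0 : cr x y = 0
  · refine ⟨0, by simp, fun t => ?_⟩
    simp only [h0]
    simp [NN, e2, dq]
  · obtain ⟨i, hi, hij, b, c, g, h⟩ := h _ h0
    obtain ⟨P, hP, hf, -⟩ := h.poly hi
    have e : 2 ^ (j - i) * 2 ^ i = 2 ^ j := by rw [← pow_add]; congr 1; omega
    exact e ▸ (DegLE.pow ⟨P, hP, hf⟩ (2 ^ (j - i))).congr fun t => up_pow hi hij _

end Pool.Agent.MP_9c0e17_co
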