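import Pool.Agent.MP_9c0e17_co.Basic

set_option autoImplicit false
set_option linter.unusedSectionVars false

namespace Pool.Agent.MP_9c0e17_co
open Polynomial Finset

variable {F : Type*} [Field F] [Fintype F] [CharP F 2]

/-- double moment -/
def mu (f : F → F → F) (i k : ℕ) : F := ∑ s : F, ∑ t : F, f s t * s ^ i * t ^ k

lemma lev_expand (A B : F → F → F) (d e0 e' k : ℕ) :
    ∑ l ∈ range (e' + 1), (e'.choose l : F) * ((∑ m : F, m ^ (e0 + l)) * mu A (e' - l) (k + l)
      + (∑ m : F, m ^ (e0 + l + d)) * mu B (e' - l) (k + l)) = ∑ m : F, ∑ c : F, m ^ e0 * c ^ e' *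
      ∑ t : F, (A (m * t + c) t + m ^ d * B (m * t + c) t) * t ^ k := by
  have h2 : ∀ m : F, ∑ c : F, m ^ e0 * c ^ e' *
      ∑ t : F, (A (m * t + c) t + m ^ d * B (m * t + c) t) * t ^ k =
      ∑ s : F, ∑ t : F, m ^ e0 * (m * t + s) ^ e' * ((A s t + m ^ d * B s t) * t ^ k) := by
    intro m
    simp_rw [mul_sum]
    rw [sum_comm, sum_comm (f := fun s t : F =>
      m ^ e0 * (m * t + s) ^ e' * ((A s t + m ^ d * B s t) * t ^ k))]
    refine sum_congr rfl fun t _ => ?_
    refine (Equiv.sum_comp (Equiv.addLeft (m * t)) _).symm.trans (sum_congr rfl fun s _ => ?_)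
    have : m * t + (m * t + s) = s := by grind
    simp only [Equiv.coe_addLeft, this]
  simp_rw [h2, add_pow, mu, mul_add, sum_mul, mul_sum, ← sum_add_distrib]
  rw [sum_comm]
  refine sum_congr rfl fun m _ => ?_
  rw [sum_comm]
  refine sum_congr rfl fun s _ => ?_
  rw [sum_comm]
  refine sum_congr rfl fun t _ => ?_
  rw [sum_mul]
  refine sum_congr rfl fun l _ => ?_
  simp only [pow_add, mul_pow]; ring

lemma lev_id (A B : F → F → F) (d : ℕ)
    (h1 : ∀ m c : F, DegLE (fun t => A (m * t + c) t + m ^ d * B (m * t + c) t) d)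
    (e0 e' k : ℕ) (hk : d + k < Fintype.card F - 1) :
    ∑ l ∈ range (e' + 1), (e'.choose l : F) * ((∑ m : F, m ^ (e0 + l)) * mu A (e' - l) (k + l)
      + (∑ m : F, m ^ (e0 + l + d)) * mu B (e' - l) (k + l)) = 0 :=
  (lev_expand A B d e0 e' k).trans
    (sum_eq_zero fun m _ => sum_eq_zero fun c _ => by rw [(h1 m c).mom k hk, mul_zero])

lemma dvd_cases {Q n : ℕ} (h : Q ∣ n) (h1 : 0 < n) (h2 : n < 3 * Q) : n = Q ∨ n = 2 * Q := by
  obtain ⟨c, rfl⟩ := h
  rcases c with _ | _ | _ | c
  · omega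
  · omega
  · omega
  · have : Q * (c + 1 + 1 + 1) = Q * c + 3 * Q := by ring
    omega

lemma lev_key (A B : F → F → F) (d : ℕ)
    (h1 : ∀ m c : F, DegLE (fun t => A (m * t + c) t + m ^ d * B (m * t + c) t) d)
    (Q : ℕ) (hQ : Q = Fintype.card F - 1) (i m l0 : ℕ) (hl1 : 1 ≤ l0) (hl2 : l0 ≤ i) (hi : i ≤ Q)
    (hm : 1 ≤ m) (hl3 : l0 + m ≤ Q) (hl4 : d < l0 + m)
    (hC : ((Q - (i - l0)).choose l0 : F) = 1)
    (hB : ∀ l ≤ Q - (i - l0), Q ∣ Q - l0 + l + d → mu B (Q - (i - l0) - l) (Q - m - l0 + l) = 0) :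
    mu A (Q - i) (Q - m) = 0 := by
  have h := lev_id A B d h1 (Q - l0) (Q - (i - l0)) (Q - m - l0) (by omega)
  simp_rw [psum, ← hQ] at h
  rw [sum_eq_single l0] at h
  · have e1 : Q - l0 + l0 = Q := by omega
    have e2 : Q - (i - l0) - l0 = Q - i := by omega
    have e3 : Q - m - l0 + l0 = Q - m := by omega
    have hb := hB l0 (by omega)
    rw [e1, e2, e3] at h hb
    rw [hC, if_pos ⟨by omega, dvd_rfl⟩] at h
    split_ifs at h with h'
    · rw [hb h'.2] at h; simpa using h
    · simpa using h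
  · intro l hl hne
    have hl := mem_range.1 hl
    rw [if_neg, zero_mul, zero_add]
    · split_ifs with h'
      · rw [hB l (by omega) h'.2]; simp
      · simp
    · rintro ⟨h0, h'⟩
      have := dvd_cases h' (by omega) (by omega)
      omega
  · intro h; exact absurd (mem_range.2 (by omega)) h

lemma mu_B (B : F → F → F) (d : ℕ) (h2 : ∀ t : F, DegLE (fun s => B s t) d) (i k : ℕ)
    (h : d + i < Fintype.card F - 1) : mu B i k = 0 := by
  unfold mu
  rw [sum_comm]
  refine sum_eq_zero fun t _ => ?_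
  rw [← sum_mul, (h2 t).mom i h, zero_mul]

lemma lev_vanish (A B : F → F → F) (r j : ℕ) (hq : Fintype.card F = 2 ^ r) (hj : j < r)
    (h1 : ∀ m c : F, DegLE (fun t => A (m * t + c) t + m ^ 2 ^ j * B (m * t + c) t) (2 ^ j))
    (h2 : ∀ t : F, DegLE (fun s => B s t) (2 ^ j)) (m i : ℕ) (hm1 : 1 ≤ m) (hm2 : m < 2 ^ j)
    (hi : i ≤ Fintype.card F - 1)
    (hi2 : (2 ^ j - m < i ∧ i < 2 ^ j) ∨ 2 * 2 ^ j - m < i) :
    mu A (Fintype.card F - 1 - i) (Fintype.card F - 1 - m) = 0 := by
  obtain ⟨Q, hQ⟩ : ∃ Q, Q = Fintype.card F - 1 := ⟨_, rfl⟩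
  obtain ⟨d, hd⟩ : ∃ d, d = 2 ^ j := ⟨_, rfl⟩
  obtain ⟨n, hn⟩ : ∃ n, 2 * n = 2 ^ (r - j) := ⟨2 ^ (r - j - 1), by
    rw [← pow_succ']; congr 1; omega⟩
  have hn0 : 0 < n := by
    have : 0 < 2 ^ (r - j) := by positivity
    omega
  have hqd : Q + 1 = d * (2 * n) := by
    rw [hn, hd, ← pow_add, hQ, hq, Nat.add_sub_cancel' hj.le]
    have : 0 < 2 ^ r := by positivity
    omega
  have hq' : Q = 2 ^ r - 1 := by rw [hQ, hq]
  obtain ⟨n, rfl⟩ : ∃ n', n = n' + 1 := ⟨n - 1, by omega⟩
  have hqd2 : Q + 1 = d * (2 * n) + 2 * d := by rw [hqd]; ring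
  have hfull : ∀ l ≤ Q, (Q.choose l : F) = 1 := fun l hl => by
    have : 0 < 2 ^ r := by positivity
    rw [hq', cast_of_modEq (choose_full r l (by omega)), Nat.cast_one]
  rw [← hd] at h1 h2 hm2 hi2
  rw [← hQ] at hi ⊢
  rcases hi2 with ⟨ha, hb⟩ | ha
  · refine lev_key A B d h1 Q hQ i m i (by omega) le_rfl hi hm1 (by omega) (by omega) ?_ ?_
    · rw [Nat.sub_self, Nat.sub_zero, hfull i hi]
    · intro l hl hdv
      have := dvd_cases hdv (by omega) (by omega)
      exact mu_B B d h2 _ _ (by omega)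
  rcases lt_trichotomy i (2 * d) with hb | hb | hb
  · refine lev_key A B d h1 Q hQ i m (i - d) (by omega) (by omega) hi hm1 (by omega) (by omega)
      ?_ ?_
    · have h := lucas j (2 * n) 0 (d - 1) (i - d) (by omega) (by omega)
      rw [← hd] at h
      have e1 : Q - (i - (i - d)) = d * (2 * n) + (d - 1) := by omega
      rw [e1, show i - d = d * 0 + (i - d) by simp, cast_of_modEq h, hd, Nat.cast_mul,
        cast_of_modEq (choose_full j _ (by omega))]
      simp
    · intro l hl hdv
      have := dvd_cases hdv (by omega) (by omega)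
      omega
  · have hn1 : 0 < n := by
      rcases n with _ | n
      · omega
      · omega
    have hdn : 2 * d ≤ d * (2 * n) := by nlinarith
    refine lev_key A B d h1 Q hQ i m i (by omega) le_rfl hi hm1 (by omega) (by omega) ?_ ?_
    · rw [Nat.sub_self, Nat.sub_zero, hfull i hi]
    · intro l hl hdv
      have := dvd_cases hdv (by omega) (by omega)
      obtain rfl : l = d := by omega
      have h := lev_id A B l h1 (Q - l) (Q - l) (Q - m - l) (by omega)
      simp_rw [psum, ← hQ] at h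
      rw [sum_eq_single 0] at h
      · rw [if_neg, if_pos] at h
        · have e1 : Q - (i - i) - l = Q - l - 0 := by omega
          have e2 : Q - m - i + l = Q - m - l + 0 := by omega
          rw [e1, e2]; simpa using h
        · rw [show Q - l + 0 + l = Q by omega]; exact ⟨by omega, dvd_rfl⟩
        · rintro ⟨h0, h'⟩
          have := dvd_cases h' (by omega) (by omega)
          omega
      · intro l' hl' hne
        have hl' := mem_range.1 hl'
        rw [if_neg (c := Q - l + l' + l ≠ 0 ∧ _), zero_mul, add_zero]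
        · split_ifs with h'
          · have := dvd_cases h'.2 (by omega) (by omega)
            obtain rfl : l' = l := by omega
            have h := lucas j (2 * n) 1 (l' - 1) 0 (by omega) (by omega)
            rw [← hd] at h
            have e1 : Q - l' = l' * (2 * n) + (l' - 1) := by omega
            rw [← e1, mul_one, add_zero] at h
            rw [cast_of_modEq h]
            simp [CharTwo.two_eq_zero]
          · simp
        · rintro ⟨h0, h'⟩
          have := dvd_cases h' (by omega) (by omega)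
          omega
      · simp
  · have hd0 : 0 < d := by omega
    have hdm := Nat.div_add_mod i d
    have hlt := Nat.mod_lt i hd0
    have hk : i / d < 2 * (n + 1) := by
      rw [Nat.div_lt_iff_lt_mul hd0, mul_comm]; omega
    have hk2 : d * (i / d) ≤ d * (2 * n) + d := by
      have : i / d ≤ 2 * n + 1 := by omega
      calc d * (i / d) ≤ d * (2 * n + 1) := Nat.mul_le_mul_left d this
        _ = _ := by ring
    have hk3 : 2 * d ≤ d * (i / d) := by
      have : 2 ≤ i / d := by rw [Nat.le_div_iff_mul_le hd0]; omega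
      nlinarith
    refine lev_key A B d h1 Q hQ i m (d * (i / d)) (by omega) (by omega) hi hm1 (by omega)
      (by omega) ?_ ?_
    · have h := lucas j (2 * n + 1) (i / d) (d - 1 - i % d) 0 (by omega) (by omega)
      rw [← hd] at h
      have e1 : Q - (i - d * (i / d)) = d * (2 * n + 1) + (d - 1 - i % d) := by
        rw [mul_add]; omega
      rw [e1, show d * (i / d) = d * (i / d) + 0 by simp, cast_of_modEq h, Nat.cast_mul,
        show 2 * n + 1 = 2 ^ (r - j) - 1 by omega, cast_of_modEq (choose_full _ _ (by omega))]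
      simp
    · intro l hl hdv
      have := dvd_cases hdv (by omega) (by omega)
      exact mu_B B d h2 _ _ (by omega)

/-- shape of a polynomial from vanishing coefficients -/
lemma shape_of_coeff (P : F[X]) (d n : ℕ) (hn : n < d)
    (h : ∀ i, (n < i ∧ i < d) ∨ d + n < i → P.coeff i = 0) :
    ∃ A B : F[X], A.natDegree ≤ n ∧ B.natDegree ≤ n ∧ P = A + X ^ d * B := by
  refine ⟨∑ i ∈ range (n + 1), monomial i (P.coeff i),
    ∑ i ∈ range (n + 1), monomial i (P.coeff (d + i)), ?_, ?_, ?_⟩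
  · exact natDegree_sum_le_of_forall_le _ _ fun i hi =>
      (natDegree_monomial_le _).trans (by have := mem_range.1 hi; omega)
  · exact natDegree_sum_le_of_forall_le _ _ fun i hi =>
      (natDegree_monomial_le _).trans (by have := mem_range.1 hi; omega)
  · ext i
    rw [coeff_add, coeff_X_pow_mul', finsetSum_coeff, finsetSum_coeff]
    simp only [coeff_monomial, sum_ite_eq', mem_range]
    split_ifs with h1 h2 h3 h4 h5
    · omega
    · omega
    · simp
    · rw [zero_add]; congr 1; omega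
    · rw [h i (by omega)]; simp
    · rw [h i (by omega)]; simp

theorem level (A B : F → F → F) (r j : ℕ) (hq : Fintype.card F = 2 ^ r) (hj : j < r)
    (h1 : ∀ m c : F, DegLE (fun t => A (m * t + c) t + m ^ 2 ^ j * B (m * t + c) t) (2 ^ j))
    (h2 : ∀ t : F, DegLE (fun s => B s t) (2 ^ j)) (m : ℕ) (hm1 : 1 ≤ m) (hm2 : m < 2 ^ j) :
    ∃ P Q : F[X], P.natDegree ≤ 2 ^ j - m ∧ Q.natDegree ≤ 2 ^ j - m ∧
      ∀ s, ∑ t : F, A s t * t ^ (Fintype.card F - 1 - m) = P.eval s + s ^ 2 ^ j * Q.eval s := by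
  obtain ⟨P, hP, hf⟩ := exists_poly (fun s => ∑ t : F, A s t * t ^ (Fintype.card F - 1 - m))
  obtain ⟨P1, P2, hP1, hP2, e⟩ := shape_of_coeff P (2 ^ j) (2 ^ j - m) (by omega) (fun i hi => by
    by_cases hi' : i ≤ Fintype.card F - 1
    · rw [← mom_coeff P hP i (by omega) hi', ← lev_vanish A B r j hq hj h1 h2 m i hm1 hm2 hi'
        (by omega)]
      refine sum_congr rfl fun s _ => ?_
      rw [← hf s, sum_mul]
      exact sum_congr rfl fun t _ => by ring
    · exact coeff_eq_zero_of_natDegree_lt (by omega))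
  exact ⟨P1, P2, hP1, hP2, fun s => (hf s).trans (by rw [e]; simp)⟩

end Pool.Agent.MP_9c0e17_co
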