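import Pool.Agent.MP_9c0e17_co.Ring
import Pool.Agent.MP_9c0e17_co.Cubic

set_option autoImplicit false
set_option linter.unusedSectionVars false

namespace Pool.Agent.MP_9c0e17_co
open IsLocalRing Matrix

variable {R : Type*} [CommRing R] [Fintype R] [IsLocalRing R]

/-- the section attached to `φ` -/
noncomputable def sv (φ : (Fin 3 → ResidueField R) → Fin 3 → ResidueField R)
    (p : Fin 3 → ResidueField R) : Fin 3 → R := fun i => sq' (p i) + tw (φ p i)

/-- the data attached to an arc -/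
structure Dat (r : ℕ) (K : Set (Fin 3 → R))
    (φ : (Fin 3 → ResidueField R) → Fin 3 → ResidueField R) : Prop where
  G : Gal R
  hq : Nat.card (ResidueField R) = 2 ^ r
  hr : 1 ≤ r
  H : Arc ((2 ^ r) ^ 2 + 2 ^ r + 1) K
  h0 : φ 0 = 0
  mem : ∀ p, p ≠ 0 → sv φ p ∈ K

lemma ex_dat [CharP R 4] {r : ℕ} (hr : 1 ≤ r) (hm : maximalIdeal R = Ideal.span {(2 : R)})
    (hc : Fintype.card R = 2 ^ (2 * r)) {K : Set (Fin 3 → R)} (H : Arc (4 ^ r + 2 ^ r + 1) K) :
    ∃ φ, Dat r K φ := by
  classical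
  have G : Gal R := ⟨hm, by simpa using CharP.cast_eq_zero R 4, fun h => by
    have := (CharP.cast_eq_zero_iff R 4 2).1 (by simpa using h)
    omega⟩
  have hq : Nat.card (ResidueField R) = 2 ^ r := by
    have := G.card_eq
    rw [Nat.card_eq_fintype_card, hc, pow_mul'] at this
    exact (Nat.pow_left_injective two_ne_zero this).symm
  rw [show 4 ^ r = (2 ^ r) ^ 2 by rw [← pow_mul, pow_mul']; rfl] at H
  have : ∀ p : Fin 3 → ResidueField R, ∃ v : Fin 3 → ResidueField R, (p = 0 → v = 0) ∧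
      (p ≠ 0 → (fun i => sq' (p i) + tw (v i)) ∈ K) := fun p => by
    by_cases hp : p = 0
    · exact ⟨0, fun _ => rfl, fun h => absurd hp h⟩
    · obtain ⟨x, hx, h⟩ := H.surj G hq (fun i => p i ^ 2) fun h => hp (funext fun i => by
        simpa using congrFun h i)
      choose v hv using fun i => G.decomp (x i) (h i)
      exact ⟨v, fun h => absurd h hp, fun _ => by rwa [← funext hv]⟩
  choose φ h0 h1 using this
  exact ⟨φ, G, hq, hr, H, h0 0 rfl, h1⟩

lemma par_of_dq {F : Type*} [Field F] [CharP F 2] {p χ : Fin 3 → F} (hp : p ≠ 0)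
    (h : ∀ a, dt a p = 0 → dq a χ = 0) : ∃ c, ∀ i, χ i = c * p i ^ 2 := by
  obtain ⟨k, hk⟩ := Function.ne_iff.1 hp
  have h0 := h ![0, p 2, p 1] (by simp [dt]; grind)
  have h1 := h ![p 2, 0, p 0] (by simp [dt]; grind)
  have h2 := h ![p 1, p 0, 0] (by simp [dt]; grind)
  refine ⟨χ k / p k ^ 2, fun i => ?_⟩
  simp [dq] at h0 h1 h2 hk
  fin_cases i <;> fin_cases k <;> simp at hk ⊢ <;> field_simp <;> grind

namespace Dat
variable {r : ℕ} {K : Set (Fin 3 → R)} {φ : (Fin 3 → ResidueField R) → Fin 3 → ResidueField R}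
  (D : Dat r K φ)
include D

lemma res_sv (p : Fin 3 → ResidueField R) (i : Fin 3) : residue R (sv φ p i) = p i ^ 2 := by
  simp [sv, D.G.res_tw]

lemma uniq {x x' : Fin 3 → R} (hx : x ∈ K) (hx' : x' ∈ K)
    (h : ∀ i, residue R (x' i) = residue R (x i)) : ∃ c : R, x' = (1 + 2 * c) • x := by
  refine D.H.uniq D.G ?_ hx hx' h
  have := two_le_pow D.hr
  rw [← Nat.card_eq_fintype_card, D.G.card_eq, D.hq]; omega

lemma dot (a η p : Fin 3 → ResidueField R) (h : dt a p = 0) :
    (fun i => sq' (a i) + tw (η i)) ⬝ᵥ sv φ p = tw (NN φ a p + dq p η) := by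
  unfold sv
  rw [D.G.dot, h, D.G.sq_zero, zero_add, NN]

lemma hom : Hom φ := by
  intro a p c hp
  by_cases h0 : c • p = 0
  · rw [h0, D.h0]
    rcases smul_eq_zero.1 h0 with rfl | rfl <;> simp [dq, D.h0]
  obtain ⟨hc, hp0⟩ := smul_ne_zero_iff.1 h0
  have hu : IsUnit (sq' c) := by rw [← residue_ne_zero_iff_isUnit]; simpa using hc
  obtain ⟨k, hk⟩ := D.uniq (D.H.h2 _ (D.mem p hp0) hu.unit) (D.mem _ h0) fun i => by
    simp [D.res_sv, mul_pow]
  have h1 := D.dot a 0 (c • p) (by rw [← mul_zero c, ← hp]; simp [dt]; ring)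
  rw [hk, dotProduct_smul, dotProduct_smul, D.dot a 0 p hp, smul_eq_mul, smul_eq_mul, D.G.mul_tw,
    D.G.mul_tw] at h1
  have h2 := D.G.tw_inj h1
  simp [NN, e2, dq, D.G.res_two] at h2 ⊢
  linear_combination -h2

lemma trD {a b c e : Fin 3 → R} {α : Fin 3 → ResidueField R} (hα : ∀ i, α i ^ 2 = residue R (a i))
    {j : ℕ} (hj : 1 ≤ j) (hdet : IsUnit (Matrix.of ![a, b, c]).det)
    (h : ∀ x ∈ K, ∀ w : R, a ⬝ᵥ x = 2 * w →
      (w + e ⬝ᵥ x) ^ 2 ^ j - (b ⬝ᵥ x) ^ (2 ^ j - 1) * (c ⬝ᵥ x) ∈ Ideal.span {(2 : R)}) :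
    ∃ b' c' g, TrD φ j α b' c' g := by
  have := D.G.charP
  have : Finite (ResidueField R) := Finite.of_surjective _ residue_surjective
  have := Fintype.ofFinite (ResidueField R)
  choose η hη using fun i => D.G.decomp (a i) (hα i).symm
  choose b' hb using fun i => ex_sqrt (residue R (b i))
  choose c' hc using fun i => ex_sqrt (residue R (c i))
  choose g hg using fun i => ex_sqrt (residue R (e i) + η i)
  refine ⟨b', c', g, fun h0 => ?_, fun p hp => ?_⟩
  · rw [← residue_ne_zero_iff_isUnit] at hdet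
    apply hdet
    have := congrArg (· ^ 2) h0
    simp [det_fin_three, ← hα, ← hb, ← hc, dt] at this ⊢
    grind
  by_cases hp0 : p = 0
  · have := two_le_pow hj
    simp [hp0, NN, e2, dq, dt, D.h0]
  have h1 := h _ (D.mem p hp0) (lf (NN φ α p + dq p η)) (by rw [funext hη, D.dot _ _ _ hp]; rfl)
  rw [← D.G.hm, ← residue_eq_zero_iff] at h1
  simp only [map_sub, map_mul, map_pow, map_add, res_lf, dotProduct, Fin.sum_univ_three,
    D.res_sv, ← hb, ← hc, sub_eq_zero] at h1
  have e1 : NN φ α p + dq p η + (residue R (e 0) * p 0 ^ 2 + residue R (e 1) * p 1 ^ 2 +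
      residue R (e 2) * p 2 ^ 2) = NN φ α p + dt g p ^ 2 := by
    have := hg 0; have := hg 1; have := hg 2
    simp only [dq, dt]; grind
  have e2 : ∀ b : Fin 3 → ResidueField R, b 0 ^ 2 * p 0 ^ 2 + b 1 ^ 2 * p 1 ^ 2 + b 2 ^ 2 * p 2 ^ 2
      = dt b p ^ 2 := fun b => by simp only [dt]; grind
  rw [e1, e2, e2, ← pow2 hj, pow_mul, pow2 hj, add_pow_char_pow, sq_pow hj,
    ← pow_mul (dt b' p), pow_mul' (dt b' p), ← mul_pow] at h1
  have h2 := frobenius_inj _ 2 (show frobenius _ 2 (NN φ α p ^ 2 ^ (j - 1) + dt g p ^ 2 ^ j) =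
    frobenius _ 2 (dt b' p ^ (2 ^ j - 1) * dt c' p) from h1)
  grind

theorem finish (hr : 4 ≤ r) {N S : Fin 3 → Fin 3 → ResidueField R}
    (hN : ∀ p a, dt a p = 0 → dq a (φ p) = dq a (qm N S p)) (hS : ∀ a, a ≠ 0 → cub S a ≠ 0)
    (T : Type*) [CommRing T] [IsLocalRing T] [Algebra R T]
    (hT : maximalIdeal T = Ideal.span {(2 : T)}) (b : Module.Basis (Fin 3) R T) :
    ∃ M : Matrix (Fin 3) (Fin 3) R, IsUnit M.det ∧ K = M.mulVec ''
      {y | ∃ (u : Rˣ) (x : T), x ^ (8 ^ r - 1) = 1 ∧ y = b.equivFun ((u : R) • x)} := by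
  have G := D.G
  have := G.charP
  have : Finite (ResidueField R) := Finite.of_surjective _ residue_surjective
  have := Fintype.ofFinite (ResidueField R)
  have G' : Gal T := ⟨hT, by rw [← map_ofNat (algebraMap R T), G.h4, map_zero], fun h => by
    have : (2 : R) • b 0 = 0 := by rw [Algebra.smul_def, map_ofNat, h, zero_mul]
    exact G.h2 (by simpa using congrArg (b.repr · 0) this)⟩
  have := G'.charP
  have : IsLocalHom (algebraMap R T) := ⟨fun x hx => by
    by_contra h
    obtain ⟨y, rfl⟩ := G.not_unit h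
    rw [← residue_ne_zero_iff_isUnit] at hx
    simp [map_ofNat (algebraMap R T), G'.res_two] at hx⟩
  have : Finite T := Finite.of_equiv _ b.equivFun.toEquiv.symm
  have : Finite (ResidueField T) := Finite.of_surjective _ residue_surjective
  have hE : Nat.card (ResidueField T) = (2 ^ r) ^ 3 := by
    have h := G'.card_eq
    rw [Nat.card_congr b.equivFun.toEquiv, Nat.card_fun, G.card_eq, D.hq, Nat.card_fin,
      ← pow_mul, mul_comm, pow_mul] at h
    exact (Nat.pow_left_injective two_ne_zero h).symm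
  have hE3 : Module.finrank (ResidueField R) (ResidueField T) = 3 := by
    have : Module.Finite (ResidueField R) (ResidueField T) := Module.Finite.of_finite
    have h := Module.natCard_eq_pow_finrank (K := ResidueField R) (V := ResidueField T)
    rw [hE, D.hq] at h
    exact (Nat.pow_right_injective (two_le_pow D.hr) h).symm
  obtain ⟨l, hl, l0, l1, l2⟩ := cubic_sing (Nat.card_eq_fintype_card.symm.trans D.hq) hr S hS
    (ResidueField T) hE3
  obtain ⟨ι, hι⟩ : ∃ ι : (Fin 3 → ResidueField R) → ResidueField T,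
    ∀ p, ι p = dt (fun i => algebraMap _ _ (p i)) l := ⟨_, fun _ => rfl⟩
  have hsq : ∀ a, algebraMap R T (sq' a) = sq' (algebraMap _ (ResidueField T) a) := fun a => by
    obtain ⟨a, rfl⟩ := residue_surjective a
    rw [ResidueField.algebraMap_residue, G.sq_res, G'.sq_res, map_pow]
  have htw : ∀ a, algebraMap R T (tw a) = tw (algebraMap _ (ResidueField T) a) := fun a => by
    obtain ⟨a, rfl⟩ := residue_surjective a
    rw [ResidueField.algebraMap_residue, G.tw_res, G'.tw_res, map_mul, map_ofNat]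
  have tw0 : tw (0 : ResidueField T) = 0 := by simpa using G'.tw_res 0
  obtain ⟨L, hL⟩ : ∃ L : Matrix (Fin 3) (Fin 3) R, ∀ y, L *ᵥ y =
      b.equivFun (∑ i, algebraMap R T (y i) * sq' (l i)) :=
    ⟨Matrix.of fun k i => b.repr (sq' (l i)) k, fun y => by
      funext k
      simp only [← Algebra.smul_def]
      simp [mulVec, dotProduct, mul_comm]⟩
  have hLd : IsUnit L.det := by
    rw [← residue_ne_zero_iff_isUnit, RingHom.map_det]
    intro h0
    obtain ⟨v, hv, h0⟩ := exists_mulVec_eq_zero_iff.2 h0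
    obtain ⟨v, rfl⟩ := (residue_surjective (R := R)).comp_left v
    have h1 : ∀ k, ∃ y, (L *ᵥ v) k = 2 * y := fun k => G.res_zero.1 (by
      rw [← Pi.zero_apply (M := fun _ => ResidueField R) k, ← h0]
      simp [mulVec, dotProduct])
    choose y hy using h1
    have h2 : ∑ i, algebraMap R T (v i) * sq' (l i) = 2 * b.equivFun.symm y := by
      apply b.equivFun.injective
      rw [← hL, ← map_ofNat (algebraMap R T), ← Algebra.smul_def, map_smul,
        LinearEquiv.apply_symm_apply]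
      funext k; simp [hy]
    have h3 := congrArg (residue T) h2
    choose w hw using fun i => ex_sqrt (residue R (v i))
    simp only [map_add, map_mul, G'.res_two, zero_mul, res_sq, Fin.sum_univ_three,
      ← ResidueField.algebraMap_residue, ← hw, map_pow] at h3
    have h4 := hl w (pow_eq_zero_iff two_ne_zero |>.1 (by simp only [dt]; grind))
    exact hv (funext fun i => by simp [← hw, h4])
  have hM1 : (1 + Matrix.of fun i k => tw (N i k) : Matrix (Fin 3) (Fin 3) R) *
      (1 + Matrix.of fun i k => tw (N i k)) = 1 := by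
    have h4 := G.h4
    simp only [add_mul, mul_add, Matrix.one_mul, Matrix.mul_one]
    ext i k
    simp only [Matrix.add_apply, mul_apply, of_apply, tw, Fin.sum_univ_three]
    linear_combination (lf (N i k) + lf (N i 0) * lf (N 0 k) + lf (N i 1) * lf (N 1 k) +
      lf (N i 2) * lf (N 2 k)) * h4
  have key : ∀ p, p ≠ 0 → ∃ u : Rˣ, ((1 + Matrix.of fun i k => tw (N i k)) * L⁻¹) *ᵥ
      b.equivFun (sq' (ι p)) = (u : R) • sv φ p := fun p hp => by
    have h1 : L *ᵥ (fun i => sq' (p i) + tw (qm 0 S p i)) = b.equivFun (sq' (ι p)) := by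
      rw [hL]; congr 1
      have := G'.dot (fun i => algebraMap _ _ (p i)) (fun i => algebraMap _ _ (qm 0 S p i)) l 0
      simp only [dotProduct, Pi.zero_apply, tw0, add_zero] at this
      simp only [map_add, hsq, htw, this, hι, add_eq_left]
      rw [← tw0]; congr 1
      simp [e2, dq, qm] at l0 l1 l2 ⊢
      grind
    obtain ⟨c, hc⟩ := par_of_dq (χ := φ p + qm N S p) hp fun a ha => by
      have := hN p a ha
      simp only [dq, Pi.add_apply] at this ⊢
      grind
    have hu : IsUnit (1 + tw c) := by rw [← residue_ne_zero_iff_isUnit]; simp [G.res_tw]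
    refine ⟨hu.unit, ?_⟩
    rw [← h1, mulVec_mulVec, Matrix.mul_assoc, nonsing_inv_mul _ hLd, Matrix.mul_one, add_mulVec,
      one_mulVec]
    funext i
    have := hc i
    simp only [Pi.add_apply, mulVec, dotProduct, of_apply, Fin.sum_univ_three, IsUnit.unit_spec,
      Pi.smul_apply, smul_eq_mul, add_mul, one_mul, mul_comm (tw _), G.mul_tw, D.res_sv, map_add,
      res_sq, G.res_tw] at this ⊢
    simp only [sv, add_assoc, ← G.tw_add]
    congr 2
    simp [qm] at this ⊢
    grind
  refine ⟨_, (by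
    rw [det_mul]
    exact (isUnit_det_of_left_inverse hM1).mul (isUnit_nonsing_inv_det _ hLd)), ?_⟩
  have := Fintype.ofFinite (ResidueField T)
  have hQ : 8 ^ r = Fintype.card (ResidueField T) := by
    rw [← Nat.card_eq_fintype_card, hE, ← pow_mul, pow_mul']; rfl
  have hinj : ∀ p, ι p = 0 → p = 0 := fun p h => hl p (hι p ▸ h)
  ext y
  constructor
  · intro hy
    choose p hp using fun i => ex_sqrt (residue R (y i))
    have hp0 : p ≠ 0 := by
      rintro rfl
      obtain ⟨i, hi⟩ := D.H.h1 y hy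
      exact (residue_ne_zero_iff_isUnit _).2 hi (by simp [← hp])
    obtain ⟨c, hc⟩ := D.uniq (D.mem p hp0) hy fun i => by rw [D.res_sv, hp]
    obtain ⟨u, hu⟩ := key p hp0
    have hv : IsUnit (1 + 2 * c) := by rw [← residue_ne_zero_iff_isUnit]; simp [G.res_two]
    refine ⟨_, ⟨hv.unit * u⁻¹, sq' (ι p), ?_, rfl⟩, ?_⟩
    · obtain ⟨z, hz⟩ := residue_surjective (ι p)
      rw [← hz, G'.sq_res, ← pow_mul, pow_mul', ← G'.sq_res, map_pow, hz, hQ,
        FiniteField.pow_card_sub_one_eq_one _ fun h => hp0 (hinj p h)]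
      simpa using G'.sq_res 1
    · rw [map_smul, mulVec_smul, hu, hc, smul_smul]; simp
  · rintro ⟨_, ⟨u, x, hx, rfl⟩, rfl⟩
    have h8 : 8 ^ r = 2 * (4 * 8 ^ (r - 1)) := by
      rw [← mul_assoc, show 2 * 4 = 8 by rfl, ← pow_succ']; congr 1; omega
    have hx1 : x = sq' (residue T (x ^ (4 * 8 ^ (r - 1)))) := by
      rw [G'.sq_res, ← pow_mul', ← h8, ← Nat.sub_add_cancel (Nat.one_le_pow r 8 (by norm_num)),
        pow_succ, hx, one_mul]
    have hbij : Function.Bijective ι := Function.Injective.bijective_of_nat_card_le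
      (fun p p' h => sub_eq_zero.1 (hinj _ (by
        rw [hι, hι] at h
        rw [hι, ← sub_eq_zero.2 h]; simp [dt]; ring))) (by
        rw [hE, Nat.card_fun, D.hq, Nat.card_fin])
    obtain ⟨p, hp⟩ := hbij.2 (residue T (x ^ (4 * 8 ^ (r - 1))))
    have hp0 : p ≠ 0 := by
      rintro rfl
      rw [← hp, hι] at hx1
      have : 1 < 8 ^ r := Nat.one_lt_pow (by omega) (by norm_num)
      simp only [dt, Pi.zero_apply, map_zero, zero_mul, add_zero, G'.sq_zero] at hx1
      rw [hx1, zero_pow (by omega)] at hx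
      exact zero_ne_one hx
    obtain ⟨v, hv⟩ := key p hp0
    rw [hx1, ← hp, map_smul, mulVec_smul, hv]
    exact D.H.h2 _ (D.H.h2 _ (D.mem p hp0) v) u

end Dat

end Pool.Agent.MP_9c0e17_co
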