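import Pool.Agent.MP_9c0e17_co.Drop

set_option autoImplicit false
set_option linter.unusedSectionVars false

namespace Pool.Agent.MP_9c0e17_co
open Polynomial Finset

variable {F : Type*} [Field F] [Fintype F] [CharP F 2] [DecidableEq F]

lemma card_line {a : Fin 3 → F} (ha : a ≠ 0) :
    (univ.filter fun p => dt a p = 0).card = Fintype.card F ^ 2 := by
  obtain ⟨x, y, rfl⟩ := ex_pt ha
  rw [sq, ← Fintype.card_prod, ← card_univ, ← card_image_of_injective
    (f := fun w : F × F => w.1 • y + w.2 • x)]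
  · congr 1; ext p
    simp only [mem_filter, mem_univ, true_and, mem_image]
    constructor
    · intro h
      obtain ⟨u, v, rfl⟩ := span_line ha h
      exact ⟨(u, v), rfl⟩
    · rintro ⟨w, rfl⟩; simp [dt]; grind
  · intro w w' h
    obtain ⟨z, hz⟩ := ex_det ha
    have h1 := congrArg (dt (cr x z)) h
    have h2 := congrArg (dt (cr y z)) h
    simp only [dt, cr0, cr1, cr2, Pi.add_apply, Pi.smul_apply, smul_eq_mul] at h1 h2 hz
    exact Prod.ext (mul_left_cancel₀ hz (by grind)) (mul_left_cancel₀ hz (by grind))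

lemma card_point {a b : Fin 3 → F} (h : cr a b ≠ 0) :
    (univ.filter fun p => dt a p = 0 ∧ dt b p = 0).card = Fintype.card F := by
  rw [← card_univ, ← card_image_of_injective (f := fun u : F => u • cr a b) _
    (smul_left_injective F h)]
  congr 1; ext p
  simp only [mem_filter, mem_univ, true_and, mem_image]
  constructor
  · rintro ⟨h1, h2⟩
    by_cases hp : p = 0
    · exact ⟨0, by simp [hp]⟩
    · obtain ⟨u, hu⟩ := par_line (x := a) (y := b) hp (by rw [← h1]; simp [dt]; ring)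
        (by rw [← h2]; simp [dt]; ring)
      have : u ≠ 0 := by rintro rfl; simp [hu] at h
      exact ⟨u⁻¹, by rw [hu, inv_smul_smul₀ this]⟩
  · rintro ⟨w, rfl⟩; simp [dt]; grind

lemma rich_points (A : Finset (Fin 3 → F)) (h0 : ∀ a ∈ A, a ≠ 0)
    (h : ∀ a ∈ A, ∀ b ∈ A, a ≠ b → cr a b ≠ 0) (n k : ℕ) (hq : Fintype.card F = 4 * k)
    (hA : A.card = 3 * n * (4 * k)) (hn : 9 * n ^ 2 + 3 * n + 3 * k < 7 * n * k) :
    (4 * k - 1) * (4 * k * (n + k)) <
      (univ.filter fun p => p ≠ 0 ∧ n < (A.filter fun a => dt a p = 0).card).card := by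
  obtain ⟨f, hf⟩ : ∃ f : (Fin 3 → F) → ℕ, ∀ p, f p = (A.filter fun a => dt a p = 0).card :=
    ⟨_, fun _ => rfl⟩
  simp only [← hf]
  have f0 : f 0 = A.card := by simp [hf, dt]
  have s1 : ∑ p, f p = A.card * (4 * k) ^ 2 := by
    simp only [hf, card_filter]
    rw [sum_comm, ← smul_eq_mul, ← sum_const]
    exact sum_congr rfl fun a ha => by rw [← card_filter, card_line (h0 a ha), hq]
  have s2 : ∑ p, f p ^ 2 = A.card * ((4 * k) ^ 2 + (A.card - 1) * (4 * k)) := by
    simp only [hf, card_filter, sq, sum_mul_sum, ite_zero_mul_ite_zero, mul_one]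
    rw [sum_comm, ← smul_eq_mul, ← sum_const]
    refine sum_congr rfl fun a ha => ?_
    rw [sum_comm, ← add_sum_erase _ _ ha, ← card_erase_of_mem ha, ← smul_eq_mul (A.erase a).card,
      ← sum_const]
    congr 1
    · simp only [and_self]; rw [← card_filter, card_line (h0 a ha), hq, sq]
    · exact sum_congr rfl fun b hb => by
        rw [← card_filter, card_point (h a ha b (mem_erase.1 hb).2 (mem_erase.1 hb).1.symm), hq]
  obtain ⟨G, hG⟩ : ∃ G, G = univ.filter fun p => p ≠ 0 ∧ n < f p := ⟨_, rfl⟩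
  rw [← hG]
  have hsub : G ⊆ univ.erase 0 := fun p hp => by
    rw [hG] at hp; simpa using (mem_filter.1 hp).2.1
  rw [← add_sum_erase _ _ (mem_univ 0), f0] at s1 s2
  have c1 := sq_sum_le_card_mul_sum_sq (s := G) (f := f)
  have c2 : ∑ p ∈ G, f p ^ 2 ≤ ∑ p ∈ univ.erase 0, f p ^ 2 := sum_le_sum_of_subset hsub
  have c3 : ∑ p ∈ univ.erase 0 \ G, f p ≤ (univ.erase (0 : Fin 3 → F)).card * n :=
    (sum_le_card_nsmul _ _ n fun p hp => by
      rw [hG] at hp; simp at hp; exact hp.2 hp.1).trans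
      (Nat.mul_le_mul_right _ (card_le_card sdiff_subset))
  rw [← sum_sdiff hsub] at s1
  rw [card_erase_of_mem (mem_univ _), card_univ, Fintype.card_fun, hq, Fintype.card_fin] at c3
  generalize ∑ p ∈ G, f p = T at *
  generalize ∑ p ∈ G, f p ^ 2 = T2 at *
  generalize ∑ p ∈ univ.erase 0 \ G, f p = T' at *
  generalize ∑ p ∈ univ.erase 0, f p ^ 2 = S2 at *
  generalize G.card = g at *
  rw [hA] at s1 s2
  have hk : 1 ≤ k := by rcases k with _ | k <;> omega
  have hn1 : 1 ≤ n := by rcases n with _ | n <;> omega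
  have a1 : 1 ≤ 3 * n * (4 * k) := by nlinarith
  have a2 : 1 ≤ (4 * k) ^ 3 := Nat.one_le_pow _ _ (by omega)
  have a3 : 1 ≤ 4 * k := by omega
  by_contra hc
  rw [not_lt] at hc
  zify [a1, a2, a3] at hn c3 s1 s2 c2 c1 hc hk hn1
  obtain ⟨q, hq'⟩ : ∃ q : ℤ, q = 4 * k := ⟨_, rfl⟩
  rw [← hq'] at c3 s1 s2 hc
  obtain ⟨p, rfl⟩ : ∃ p : ℕ, q = p + 2 := ⟨(q - 2).toNat, by omega⟩
  rw [show (p + 2 - 1 : ℤ) = p + 1 by ring] at hc
  have b1 : (p + 1) * (2 * n * (p + 2) ^ 2 : ℤ) ≤ T := by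
    have : (0 : ℤ) ≤ n * ((2 * p + 3) * (p + 1)) := by positivity
    linear_combination this + c3 - s1
  have b2 : (S2 : ℤ) = (p + 1) * (3 * n * (p + 2) * (p + 2 + 3 * n * (p + 2))) := by
    linear_combination s2
  have b3 : ((p + 1) * (2 * n * (p + 2) ^ 2 : ℤ)) ^ 2 ≤ (p + 1) * ((p + 2) * (n + k)) * S2 :=
    (pow_le_pow_left₀ (by positivity) b1 2).trans (c1.trans (mul_le_mul hc c2 (by positivity)
      (by positivity)))
  have b4 : (0 : ℤ) < (p + 1) ^ 2 * (p + 2) ^ 3 * n := by positivity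
  rw [b2] at b3
  have b5 : ((p + 1) ^ 2 * (p + 2) ^ 3 * n : ℤ) * (4 * n * (p + 2)) ≤
      (p + 1) ^ 2 * (p + 2) ^ 3 * n * (3 * (n + k) * (1 + 3 * n)) := by linear_combination b3
  have b6 := le_of_mul_le_mul_left b5 b4
  rw [hq'] at b6
  nlinarith

theorem drop_many {φ : (Fin 3 → F) → Fin 3 → F} (hφ : Hom φ) {r j : ℕ}
    (hq : Fintype.card F = 2 ^ r) (hj1 : 1 ≤ j) (hj : j + 1 < r) (h : Lev φ (j + 1))
    (A : Finset (Fin 3 → F)) (hA : ∀ a ∈ A, ∀ b ∈ A, a ≠ b → cr a b ≠ 0)
    (hc : ∀ a ∈ A, ∃ b c g, TrD φ 1 a b c g) (n k : ℕ) (hk : Fintype.card F = 4 * k)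
    (hAc : A.card = 3 * n * (4 * k)) (hn : 9 * n ^ 2 + 3 * n + 3 * k < 7 * n * k)
    (hg : 2 ^ Nat.gcd (j + 1) r + 1 ≤ n) : Lev φ j := by
  have h0 : ∀ a ∈ A, a ≠ 0 := fun a ha h => by
    obtain ⟨b, c, g, ht⟩ := hc a ha
    simpa [h, dt] using ht.1
  have hk0 : ∀ x y : Fin 3 → F, cf φ (j + 1) (2 ^ (j + 1) - 1) x y ≠ 0 → cr x y ≠ 0 :=
    fun x y h h' => h (by simp only [cf, h', NN_zero]; simp)
  have hG : ∀ x, x ≠ 0 → n < (A.filter fun a => dt a x = 0).card →
      ∀ y, cf φ (j + 1) (2 ^ (j + 1) - 1) x y = 0 := by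
    intro x hx hn y1
    by_contra h1
    obtain ⟨y0, hdet⟩ := ex_det (hk0 x y1 h1)
    have hb : ∀ a ∈ A.filter fun a => dt a x = 0, dt a y1 ≠ 0 := fun a ha h' => by
      obtain ⟨b, c, g, ht⟩ := hc a (mem_filter.1 ha).1
      exact h1 ((ht.ll hj1).kappa hq hj1 hj (mem_filter.1 ha).2 h')
    have := pencil_roots hφ hq (by omega) hj h h1 y0
      ((A.filter fun a => dt a x = 0).image fun a => dt a y0 / dt a y1) (fun s hs => by
        obtain ⟨a, ha, rfl⟩ := mem_image.1 hs
        obtain ⟨b, c, g, ht⟩ := hc a (mem_filter.1 ha).1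
        refine (ht.ll hj1).kappa hq hj1 hj (mem_filter.1 ha).2 ?_
        rw [dt_line, mul_div_cancel₀ _ (hb a ha), CharTwo.add_self_eq_zero])
    rw [card_image_of_injOn] at this
    · omega
    · intro a ha b hb' hab
      by_contra hne
      refine hA a (mem_filter.1 ha).1 b (mem_filter.1 hb').1 hne ?_
      have e1 := (mem_filter.1 ha).2
      have e2 := (mem_filter.1 hb').2
      simp only at hab
      rw [div_eq_div_iff (hb a ha) (hb b hb')] at hab
      simp only [dt, cr0, cr1, cr2] at e1 e2 hab hdet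
      apply v3 <;> refine mul_left_cancel₀ hdet ?_ <;> simp <;> grind
  have hall : ∀ x y : Fin 3 → F, cf φ (j + 1) (2 ^ (j + 1) - 1) x y = 0 := by
    intro x y1
    by_contra h1
    obtain ⟨y0, hdet⟩ := ex_det (hk0 x y1 h1)
    have hr := rich_points A h0 hA n k hk hAc hn
    obtain ⟨G, hG'⟩ : ∃ G, G = univ.filter fun p => p ≠ 0 ∧
      n < (A.filter fun a => dt a p = 0).card := ⟨_, rfl⟩
    rw [← hG'] at hr
    have gG : ∀ p ∈ G, ∀ y, cf φ (j + 1) (2 ^ (j + 1) - 1) p y = 0 := fun p hp => by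
      rw [hG'] at hp; exact hG p (mem_filter.1 hp).2.1 (mem_filter.1 hp).2.2
    have gs : ∀ p ∈ G, ∀ c : F, c ≠ 0 → c • p ∈ G := fun p hp c hc => by
      rw [hG', mem_filter] at hp ⊢
      refine ⟨mem_univ _, smul_ne_zero hc hp.2.1, hp.2.2.trans_eq ?_⟩
      congr 1
      refine filter_congr fun a _ => ?_
      rw [show dt a (c • p) = c * dt a p by simp [dt]; ring]; simp [hc]
    have hle : 2 ^ j ≤ k := by
      have := two_pow_le hq hj
      rw [pow_succ] at this; omega
    have hline : ∀ y, cf φ (j + 1) (2 ^ (j + 1) - 1) x y ≠ 0 →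
        (univ.filter fun t : F => y + t • x ∈ G).card < k := fun y hy => by
      by_contra hc
      exact hy ((drop_line hφ hq hj1 hj h (hk0 x y hy) _ (fun t ht => gG _ (mem_filter.1 ht).2 x)
        (hle.trans (not_lt.1 hc))).kappa hq hj1 hj (by simp [dt]; grind) (by simp [dt]; grind))
    have hB := (pencil_roots hφ hq (by omega) hj h h1 y0 (univ.filter fun s =>
      cf φ (j + 1) (2 ^ (j + 1) - 1) x (y0 + s • y1) = 0) fun s hs => (mem_filter.1 hs).2).trans hg
    have hcov : G ⊆ ((univ.erase (0 : F)) ×ˢ ((univ.filter fun t : F => y1 + t • x ∈ G).image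
        (fun t => y1 + t • x) ∪ univ.biUnion fun s : F =>
        (univ.filter fun t : F => y0 + s • y1 + t • x ∈ G).image
        (fun t => y0 + s • y1 + t • x))).image fun w => w.1 • w.2 := by
      intro p hp
      obtain ⟨α, β, γ, rfl⟩ : ∃ α β γ : F, p = α • x + β • y0 + γ • y1 :=
        ⟨dt (cr p y1) y0 / dt (cr x y1) y0, dt (cr x y1) p / dt (cr x y1) y0,
          dt (cr x p) y0 / dt (cr x y1) y0, by
          apply v3 <;> simp only [Pi.add_apply, Pi.smul_apply, smul_eq_mul] <;> field_simp <;>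
            simp only [dt, cr0, cr1, cr2] <;> grind⟩
      simp only [mem_image, mem_product, mem_erase, mem_univ, and_true, mem_union, mem_biUnion,
        mem_filter, true_and, Prod.exists]
      by_cases hβ : β = 0
      · by_cases hγ : γ = 0
        · have hα : α ≠ 0 := by
            rintro rfl
            rw [hG'] at hp
            simp [hβ, hγ] at hp
          have := gs _ hp _ (inv_ne_zero hα)
          simp [hβ, hγ, hα] at this
          exact absurd (gG _ this y1) h1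
        · have e : γ⁻¹ • (α • x + β • y0 + γ • y1) = y1 + (α / γ) • x := by
            apply v3 <;> simp [hβ] <;> field_simp <;> ring
          exact ⟨γ, _, ⟨hγ, .inl ⟨α / γ, e ▸ gs _ hp _ (inv_ne_zero hγ), rfl⟩⟩,
            by rw [← e, smul_inv_smul₀ hγ]⟩
      · have e : β⁻¹ • (α • x + β • y0 + γ • y1) = y0 + (γ / β) • y1 + (α / β) • x := by
          apply v3 <;> simp <;> field_simp <;> ring
        exact ⟨β, _, ⟨hβ, .inr ⟨γ / β, α / β, e ▸ gs _ hp _ (inv_ne_zero hβ), rfl⟩⟩,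
          by rw [← e, smul_inv_smul₀ hβ]⟩
    have c1 := (card_le_card hcov).trans card_image_le
    rw [card_product, card_erase_of_mem (mem_univ _), card_univ, hk] at c1
    have c2 := lt_of_mul_lt_mul_left (hr.trans_le c1) (Nat.zero_le _)
    have c3 := c2.trans_le ((card_union_le _ _).trans (add_le_add card_image_le
      (card_biUnion_le.trans (sum_le_sum fun s _ => card_image_le))))
    have c4 := hline y1 h1
    rw [← sum_filter_add_sum_filter_not univ
      (fun s => cf φ (j + 1) (2 ^ (j + 1) - 1) x (y0 + s • y1) = 0)] at c3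
    have c5 := sum_le_card_nsmul (univ.filter fun s =>
      cf φ (j + 1) (2 ^ (j + 1) - 1) x (y0 + s • y1) = 0)
      (fun s : F => (univ.filter fun t : F => y0 + s • y1 + t • x ∈ G).card) (4 * k)
      fun s _ => (card_le_univ _).trans_eq hk
    have c6 := sum_le_card_nsmul (univ.filter fun s =>
      ¬cf φ (j + 1) (2 ^ (j + 1) - 1) x (y0 + s • y1) = 0)
      (fun s : F => (univ.filter fun t : F => y0 + s • y1 + t • x ∈ G).card) (k - 1)
      fun s hs => by have := hline _ (mem_filter.1 hs).2; omega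
    have c7 := Nat.mul_le_mul_right (k - 1) ((card_le_univ (univ.filter fun s : F =>
      ¬cf φ (j + 1) (2 ^ (j + 1) - 1) x (y0 + s • y1) = 0)).trans_eq hk)
    have c8 := Nat.mul_le_mul_right (4 * k) hB
    rw [smul_eq_mul] at c5 c6
    have c9 : 4 * k * (k - 1) + 4 * k = 4 * k * k := by
      rw [← Nat.mul_succ]; congr 1; omega
    have c10 : 4 * k * (n + k) = n * (4 * k) + 4 * k * k := by ring
    omega
  intro x y
  by_cases hxy : cr x y = 0
  · exact ⟨0, by simp, fun t => by simp only [hxy, NN_zero]; simp⟩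
  · exact drop_line hφ hq hj1 hj h hxy univ (fun t _ => hall _ _) (by
      have := two_pow_le hq hj
      rw [pow_succ] at this; rw [card_univ]; omega) x y (by simp [dt]; grind) (by simp [dt]; grind)

theorem lev_one_of_many {φ : (Fin 3 → F) → Fin 3 → F} (hφ : Hom φ) {r : ℕ}
    (hq : Fintype.card F = 2 ^ r) (hr : 5 ≤ r) (h : Inj φ)
    (A : Finset (Fin 3 → F)) (hA : ∀ a ∈ A, ∀ b ∈ A, a ≠ b → cr a b ≠ 0)
    (hc : ∀ a ∈ A, ∃ b c g, TrD φ 1 a b c g)
    (hAc : 3 * 2 ^ r * (2 ^ (r / r.minFac) + 1) ≤ A.card) : Lev φ 1 := by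
  obtain ⟨k, hk⟩ : ∃ k, k = 2 ^ (r - 2) := ⟨_, rfl⟩
  have hk4 : 2 ^ r = 4 * k := by
    rw [hk, show 4 = 2 ^ 2 by rfl, ← pow_add]; congr 1; omega
  have h32 : 2 ^ 5 ≤ 2 ^ r := Nat.pow_le_pow_right (by norm_num) hr
  obtain ⟨g, hg⟩ : ∃ g, g = r / r.minFac := ⟨_, rfl⟩
  have hm := (Nat.minFac_prime (show r ≠ 1 by omega)).two_le
  have hg2 : g + g ≤ r := by
    have := Nat.div_le_div_left (a := r) hm (by norm_num)
    omega
  have hs : 2 ^ g * 2 ^ g ≤ 4 * k := by
    rw [← pow_add, ← hk4]; exact Nat.pow_le_pow_right (by norm_num) hg2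
  rw [← hg, hk4] at hAc
  obtain ⟨A', hA', hc'⟩ := exists_subset_card_eq hAc
  have hn : 9 * (2 ^ g + 1) ^ 2 + 3 * (2 ^ g + 1) + 3 * k < 7 * (2 ^ g + 1) * k := by
    rcases le_or_gt g 2 with h | h
    · interval_cases g <;> omega
    · have : 2 ^ 3 ≤ 2 ^ g := Nat.pow_le_pow_right (by norm_num) h
      generalize 2 ^ g = s at *
      nlinarith [Nat.mul_le_mul_left (7 * s + 4) hs, Nat.mul_le_mul_right (s * s) this,
        Nat.mul_le_mul_right s this]
  have key : ∀ i, i + 2 ≤ r → Lev φ (r - 1 - i) := by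
    intro i
    induction i with
    | zero => intro _; exact lev_top hφ (by rw [hq]; congr 1; omega) (by omega) h
    | succ i ih =>
      intro hi
      refine drop_many hφ hq (by omega) (by omega) (by convert ih (by omega) using 1; omega) A'
        (fun a ha b hb => hA a (hA' ha) b (hA' hb)) (fun a ha => hc a (hA' ha)) (2 ^ g + 1) k
        (hq.trans hk4) (by rw [hc']; ring) hn ?_
      obtain ⟨c, hc⟩ := Nat.gcd_dvd_right (r - 1 - (i + 1) + 1) r
      have h1 := Nat.gcd_le_left (n := r) (show 0 < r - 1 - (i + 1) + 1 by omega)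
      generalize Nat.gcd (r - 1 - (i + 1) + 1) r = e at *
      have hc2 : 2 ≤ c := by
        rcases c with _ | _ | c <;> omega
      have := Nat.minFac_le_of_dvd hc2 (show c ∣ r from ⟨e, by rw [hc, mul_comm]⟩)
      have : e ≤ g := by
        rw [hg, Nat.le_div_iff_mul_le (by omega)]
        exact (Nat.mul_le_mul_left e this).trans hc.ge
      have := Nat.pow_le_pow_right (n := 2) (by norm_num) this
      omega
  convert key (r - 2) (by omega) using 1; omega

end Pool.Agent.MP_9c0e17_co
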