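import Pool.Agent.MP_9c0e17_co.Geom

set_option autoImplicit false
set_option linter.unusedSectionVars false

namespace Pool.Agent.MP_9c0e17_co
open Polynomial Finset

variable {F : Type*} [Field F] [Fintype F] [CharP F 2]

lemma mob_aux {n : ℕ} (hn : 2 ≤ n) (a0 a1 b0 b1 : F) (E : Finset F)
    (hE : ∀ s ∈ E, a0 + a1 * s + s ^ n * (b0 + b1 * s) = 0) (hc : n + 1 < E.card) :
    a0 = 0 ∧ a1 = 0 ∧ b0 = 0 ∧ b1 = 0 := by
  have h := eq_zero_of_natDegree_lt_card_of_eval_eq_zero'
    (C a0 + C a1 * X + C b0 * X ^ n + C b1 * X ^ (n + 1)) E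
    (fun s hs => by rw [← hE s hs]; simp; ring) (lt_of_le_of_lt (by compute_degree) hc)
  have k := fun i => congrArg (fun P : F[X] => P.coeff i) h
  simp only [coeff_add, coeff_C_mul_X_pow, coeff_C, coeff_C_mul_X, coeff_zero] at k
  have k0 := k 0
  have k1 := k 1
  have k2 := k n
  have k3 := k (n + 1)
  rw [if_pos rfl, if_neg (by omega), if_neg (by omega), if_neg (by omega)] at k0
  rw [if_neg (by omega), if_pos rfl, if_neg (by omega), if_neg (by omega)] at k1
  rw [if_neg (by omega), if_neg (by omega), if_pos rfl, if_neg (by omega)] at k2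
  rw [if_neg (by omega), if_neg (by omega), if_neg (by omega), if_pos rfl] at k3
  simp only [add_zero, zero_add] at k0 k1 k2 k3
  exact ⟨k0, k1, k2, k3⟩

lemma two_le_pow {j : ℕ} (hj : 1 ≤ j) : 2 ≤ 2 ^ j := by
  have := pow2 hj
  have : 0 < 2 ^ (j - 1) := by positivity
  omega

lemma mob_roots {r j : ℕ} (hq : Fintype.card F = 2 ^ r) (hj1 : 1 ≤ j) (hj : j < r)
    (a0 a1 b0 b1 : F) (E : Finset F)
    (hE : ∀ s ∈ E, a0 + a1 * s + s ^ 2 ^ j * (b0 + b1 * s) = 0)
    (hc : 2 ^ j + 1 < E.card ∨ 2 ^ (r - j) + 1 < E.card) :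
    a0 = 0 ∧ a1 = 0 ∧ b0 = 0 ∧ b1 = 0 := by
  rcases hc with hc | hc
  · exact mob_aux (two_le_pow hj1) _ _ _ _ E hE hc
  · have h := mob_aux (two_le_pow (show 1 ≤ r - j by omega)) (a0 ^ 2 ^ (r - j)) (b0 ^ 2 ^ (r - j))
      (a1 ^ 2 ^ (r - j)) (b1 ^ 2 ^ (r - j)) E (fun s hs => by
        have h := congrArg (· ^ 2 ^ (r - j)) (hE s hs)
        simp only [add_pow_char_pow, mul_pow] at h
        rw [← pow_mul, ← pow_add, Nat.add_sub_cancel' hj.le, ← hq, FiniteField.pow_card,
          zero_pow (by positivity)] at h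
        rw [← h]; ring) hc
    have hp : 2 ^ (r - j) ≠ 0 := by positivity
    simp only [pow_eq_zero_iff hp] at h
    tauto

lemma PT.ne {d : ℕ} (hd : 2 ≤ d) {c : ℕ → F} {t0 : F} (h : PT d c t0) : c (d - 1) ≠ 0 := by
  obtain ⟨l, hl, h⟩ := h
  rw [h _ (by omega) (by omega)]; simpa using hl

lemma ST.eq {d : ℕ} (hd : 3 ≤ d) {c : ℕ → F} (h : ST d c) : c (d - 1) = 0 :=
  h.2 _ (by omega) (by omega)

lemma LT.eq {d : ℕ} (hd : 1 ≤ d) (he : Even d) {c : ℕ → F} (h : LT d c) : c (d - 1) = 0 :=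
  h.1 _ (Nat.Even.sub_odd hd he odd_one) (by omega)

lemma PT.step {d : ℕ} {c : ℕ → F} {t0 : F} (h : PT d c t0) {m : ℕ} (h1 : 1 ≤ m) (h2 : m + 1 < d) :
    c m = c (m + 1) * t0 := by
  obtain ⟨l, -, h⟩ := h
  rw [h m h1 (by omega), h (m + 1) (by omega) h2, show d - 1 - m = d - 1 - (m + 1) + 1 by omega]
  ring

lemma even_pow {j : ℕ} (hj : 1 ≤ j) : Even (2 ^ j) := by
  rw [← pow2 hj]; exact even_two.mul_left _

theorem pencilA {r j : ℕ} (hq : Fintype.card F = 2 ^ r) (hj2 : 2 ≤ j) (hj : j + 2 ≤ r)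
    (hr : 5 ≤ r) (c : F → ℕ → F) (P Q : ℕ → F[X])
    (hP : ∀ m, 1 ≤ m → m < 2 ^ j → (P m).natDegree ≤ 2 ^ j - m ∧ (Q m).natDegree ≤ 2 ^ j - m ∧
      ∀ s, c s m = (P m).eval s + s ^ 2 ^ j * (Q m).eval s)
    (ht : ∀ s, (∃ t0, PT (2 ^ j) (c s) t0) ∨ ST (2 ^ j) (c s) ∨ LT (2 ^ j) (c s))
    (hb : (Q (2 ^ j - 1)).coeff 1 ≠ 0) (s0 : F) : c s0 (2 ^ j - 1) ≠ 0 := by
  classical
  obtain ⟨d, hd⟩ : ∃ d, d = 2 ^ j := ⟨_, rfl⟩
  have hd4 : 4 ≤ d := by
    rw [hd]; exact Nat.pow_le_pow_right (n := 2) (by norm_num) hj2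
  have hev : Even d := hd ▸ even_pow (by omega)
  have hfrob : ∀ x y : F[X], (x + y) ^ d = x ^ d + y ^ d := fun x y => by
    rw [hd, add_pow_char_pow]
  have hmob := mob_roots (F := F) hq (show 1 ≤ j by omega) (show j < r by omega)
  rw [← hd] at hP ht hb hmob ⊢
  obtain ⟨D, hD⟩ : ∃ D : ℕ → F[X], ∀ m, D m = P m + X ^ d * Q m := ⟨_, fun _ => rfl⟩
  have hDe : ∀ m, 1 ≤ m → m < d → ∀ s, c s m = (D m).eval s := fun m h1 h2 s => by
    rw [(hP m h1 h2).2.2, hD]; simp
  have hDd : ∀ m, 1 ≤ m → m < d → (D m).natDegree ≤ d + (d - m) := fun m h1 h2 => by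
    rw [hD]; exact deg_shape (hP m h1 h2).1 (hP m h1 h2).2.1
  obtain ⟨h1, h2, -⟩ := hP (d - 1) (by omega) (by omega)
  have e1 := eq_X_add_C_of_natDegree_le_one (p := P (d - 1)) (by omega)
  have e2 := eq_X_add_C_of_natDegree_le_one (p := Q (d - 1)) (by omega)
  generalize (P (d - 1)).coeff 1 = a1 at e1
  generalize (P (d - 1)).coeff 0 = a0 at e1
  generalize (Q (d - 1)).coeff 0 = b0 at e2
  generalize (Q (d - 1)).coeff 1 = b1 at e2 hb
  have hK : D (d - 1) = C a1 * X + C a0 + X ^ d * (C b1 * X + C b0) := by rw [hD, ← e1, ← e2]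
  obtain ⟨E, hE⟩ : ∃ E : Finset F, ∀ s, s ∈ E ↔ c s (d - 1) = 0 :=
    ⟨univ.filter fun s => c s (d - 1) = 0, by simp⟩
  have hEc : E.card ≤ d + 1 ∧ E.card ≤ 2 ^ (r - j) + 1 := by
    by_contra hc
    refine hb (hmob a0 a1 b0 b1 E (fun s hs => ?_) (by omega)).2.2.2
    have := (hE s).1 hs
    rw [hDe _ (by omega) (by omega), hK] at this
    rw [← this]; simp; ring
  have hcount : 3 * d + E.card < Fintype.card F := by
    have hqd : Fintype.card F = d * 2 ^ (r - j) := by
      rw [hq, hd, ← pow_add]; congr 1; omega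
    rcases eq_or_lt_of_le hj with h | h
    · have h32 : 2 ^ 5 ≤ 2 ^ r := Nat.pow_le_pow_right (by norm_num) hr
      rw [show r - j = 2 by omega] at hEc hqd
      omega
    · have : 2 ^ 3 ≤ 2 ^ (r - j) := Nat.pow_le_pow_right (by norm_num) (by omega)
      nlinarith
  have hpt : ∀ s, s ∉ E → ∃ t0, PT d (c s) t0 := fun s hs => by
    rcases ht s with h | h | h
    · exact h
    · exact absurd ((hE s).2 (h.eq (by omega))) hs
    · exact absurd ((hE s).2 (h.eq (by omega) hev)) hs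
  have hid : ∀ m, 1 ≤ m → m + 1 < d → D m * D (d - 1) = D (m + 1) * D (d - 2) := by
    intro m h1 h2
    refine eq_of_eval _ _ E (3 * d) (fun s hs => ?_) ?_ ?_ hcount
    · obtain ⟨t0, h⟩ := hpt s hs
      simp only [eval_mul]
      rw [← hDe _ h1 (by omega), ← hDe _ (by omega) (by omega), ← hDe _ (by omega) (by omega),
        ← hDe _ (by omega) (by omega), h.step h1 h2, h.step (m := d - 2) (by omega) (by omega),
        show d - 2 + 1 = d - 1 by omega]
      ring
    · have := hDd m h1 (by omega)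
      have := hDd (d - 1) (by omega) (by omega)
      exact natDegree_mul_le.trans (by omega)
    · have := hDd (m + 1) (by omega) (by omega)
      have := hDd (d - 2) (by omega) (by omega)
      exact natDegree_mul_le.trans (by omega)
  have hK0 : D (d - 1) ≠ 0 := by
    intro h0
    have : E = univ := eq_univ_of_forall fun s => by
      rw [hE, hDe _ (by omega) (by omega), h0, eval_zero]
    rw [this, card_univ] at hcount
    omega
  have key : ∀ s, (D (d - 1)).IsRoot s → d - 2 ∣ rootMultiplicity s (D (d - 1)) := by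
    intro s hs
    obtain ⟨m, hm1, hm2, hm⟩ : ∃ m, 1 ≤ m ∧ m + 2 ≤ d ∧ ¬(D m).IsRoot s := by
      rcases ht s with ⟨t0, h⟩ | h | h
      · exact absurd ((hDe _ (by omega) (by omega) s).trans hs) (h.ne (by omega))
      · exact ⟨1, le_rfl, by omega, fun h' => h.1 ((hDe _ le_rfl (by omega) s).trans h')⟩
      · obtain ⟨m, a, b, h⟩ := h.2
        exact ⟨m, by omega, b, fun h' => h ((hDe _ (by omega) (by omega) s).trans h')⟩
    have hD2 : D (d - 2) ≠ 0 := by
      intro h0
      have := hid m hm1 (by omega)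
      rw [h0, mul_zero] at this
      rw [(mul_eq_zero.1 this).resolve_right hK0] at hm
      exact hm (by simp)
    have ind : ∀ i, i + 2 ≤ d → D (d - 1 - i) ≠ 0 ∧
        rootMultiplicity s (D (d - 1 - i)) + i * rootMultiplicity s (D (d - 1)) =
          rootMultiplicity s (D (d - 1)) + i * rootMultiplicity s (D (d - 2)) := by
      intro i
      induction i with
      | zero => intro _; simpa using hK0
      | succ i ih =>
        intro hi
        obtain ⟨h0, h1⟩ := ih (by omega)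
        have h2 := hid (d - 1 - (i + 1)) (by omega) (by omega)
        rw [show d - 1 - (i + 1) + 1 = d - 1 - i by omega] at h2
        have h3 := mul_ne_zero h0 hD2
        have h4 := congrArg (rootMultiplicity s) h2
        rw [rootMultiplicity_mul h3, rootMultiplicity_mul (h2 ▸ h3)] at h4
        refine ⟨left_ne_zero_of_mul (h2 ▸ h3), ?_⟩
        rw [add_mul, add_mul]; omega
    have i1 := (ind (d - 1 - m) (by omega)).2
    have i2 := (ind (d - 2) (by omega)).2
    rw [show d - 1 - (d - 1 - m) = m by omega, rootMultiplicity_eq_zero hm] at i1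
    have hpos := (rootMultiplicity_pos hK0).2 hs
    generalize rootMultiplicity s (D (d - 1)) = vK at *
    generalize rootMultiplicity s (D (d - 2)) = vD at *
    generalize rootMultiplicity s (D (d - 1 - (d - 2))) = v1 at *
    have hle : d - 1 - m ≤ d - 2 := by omega
    generalize d - 1 - m = i at *
    generalize d - 2 = n at *
    have hlt : vD < vK := by
      by_contra h
      have := Nat.mul_le_mul_left i (not_lt.1 h)
      omega
    obtain ⟨δ, rfl⟩ : ∃ δ, vK = vD + δ := ⟨vK - vD, by omega⟩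
    have a1 : vD + δ = i * δ := by rw [mul_add] at i1; omega
    have a2 : n * δ ≤ vD + δ := by rw [mul_add] at i2; omega
    have a3 := Nat.mul_le_mul_right δ hle
    exact ⟨δ, by omega⟩
  intro hs0
  rw [hDe _ (by omega) (by omega)] at hs0
  have hnot1 : ∀ s, (D (d - 1)).IsRoot s → 1 < rootMultiplicity s (D (d - 1)) := fun s hs => by
    have := Nat.le_of_dvd ((rootMultiplicity_pos hK0).2 hs) (key s hs)
    omega
  have hder := ((one_lt_rootMultiplicity_iff_isRoot hK0).1 (hnot1 s0 hs0)).2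
  have hdz : (d : F) = 0 := by
    obtain ⟨k, rfl⟩ := hev
    push_cast; grind
  rw [hK] at hder hs0
  simp [derivative_X_pow, hdz] at hder hs0
  obtain ⟨s1, hs1⟩ : ∃ s1, s1 = b0 / b1 := ⟨_, rfl⟩
  have hb0 : b0 = b1 * s1 := by rw [hs1]; field_simp
  have hfac : D (d - 1) = C b1 * (X - C s1) * (X - C s0) ^ d := by
    have ea1 : a1 = s0 ^ d * b1 := by grind
    have ea0 : a0 = s0 ^ d * b0 := by grind
    rw [hK, CharTwo.sub_eq_add, CharTwo.sub_eq_add, hfrob, ea1, ea0, hb0]
    simp only [map_mul, map_pow]; ring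
  have hne : C b1 * (X - C s1) ≠ 0 := mul_ne_zero (C_ne_zero.2 hb) (X_sub_C_ne_zero _)
  have hroot : (D (d - 1)).IsRoot s1 := by rw [hfac]; simp
  by_cases h01 : s1 = s0
  · have h := key s1 hroot
    rw [hfac, h01, rootMultiplicity_mul_X_sub_C_pow (h01 ▸ hne), rootMultiplicity_mul (h01 ▸ hne),
      rootMultiplicity_C, rootMultiplicity_X_sub_C_self] at h
    have h3 : d - 2 ∣ 3 := by
      have := (Nat.dvd_add_right (dvd_refl (d - 2))).1 (show d - 2 ∣ d - 2 + 3 by
        convert h using 1; omega)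
      exact this
    have := Nat.le_of_dvd (by norm_num) h3
    obtain ⟨k, hk⟩ := hev
    obtain rfl : d = 4 := by omega
    norm_num at h3
  · have h := hnot1 s1 hroot
    rw [hfac, rootMultiplicity_mul (hfac ▸ hK0), rootMultiplicity_mul hne, rootMultiplicity_C,
      rootMultiplicity_X_sub_C_self, rootMultiplicity_eq_zero (by simp [sub_eq_zero, h01])] at h
    omega

lemma dvd_of_pow_dvd (K D : F[X]) (hK : K ≠ 0) (hd : K.natDegree ≤ 3) (h : K ^ 3 ∣ D ^ 4) :
    K ∣ D := by
  classical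
  obtain ⟨k, e, hk, he, hu⟩ := extract_gcd K D
  rw [gcd_isUnit_iff] at hu
  generalize gcd K D = g at *
  have hg : g ≠ 0 := by rintro rfl; simp [hk] at hK
  have h1 : k ^ 3 ∣ g * e ^ 4 := by
    have : g ^ 3 * k ^ 3 ∣ g ^ 3 * (g * e ^ 4) := by
      rw [hk, he] at h; convert h using 1 <;> ring
    exact (mul_dvd_mul_iff_left (pow_ne_zero 3 hg)).1 this
  have h2 : k ^ 3 ∣ g := (hu.pow (m := 3) (n := 4)).dvd_of_dvd_mul_right h1
  have h3 : k ^ 4 ∣ K := by rw [hk, pow_succ]; exact mul_dvd_mul_right h2 k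
  have h4 := natDegree_le_of_dvd h3 hK
  rw [natDegree_pow] at h4
  have hk0 : k ≠ 0 := by rintro rfl; simp [hk] at hK
  have h5 : IsUnit k := by
    rw [isUnit_iff_degree_eq_zero, degree_eq_natDegree hk0, show k.natDegree = 0 by omega]; rfl
  rw [hk, he, h5.mul_right_dvd]; exact dvd_mul_right _ _

theorem pencilB {d : ℕ} (hq : Fintype.card F = 2 * d) (hd : 16 ≤ d) (hev : Even d)
    (c : F → ℕ → F) (D : ℕ → F[X])
    (hD : ∀ m, 1 ≤ m → m < d → (D m).natDegree ≤ 2 * (d - m) + 1 ∧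
      ∀ s, c s m ^ 2 = (D m).eval s)
    (ht : ∀ s, (∃ t0, PT d (c s) t0) ∨ ST d (c s) ∨ LT d (c s)) (hK : D (d - 1) ≠ 0) :
    (∃ ρ : F[X], ρ.natDegree ≤ 2 ∧ ∀ s t0, PT d (c s) t0 → t0 ^ 2 = ρ.eval s) ∧
    ∀ E : Finset F, (∀ s, s ∉ E → c s (d - 1) ≠ 0) → E.card ≤ 2 → ∀ s, ¬LT d (c s) := by
  classical
  have hpt : ∀ s, c s (d - 1) ≠ 0 → ∃ t0, PT d (c s) t0 := fun s hs => by
    rcases ht s with h | h | h
    · exact h
    · exact absurd (h.eq (by omega)) hs
    · exact absurd (h.eq (by omega) hev) hs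
  have hK3 := (hD (d - 1) (by omega) (by omega)).1
  have hid : D (d - 1) ^ 3 * D (d - 5) = D (d - 2) ^ 4 := by
    refine eq_of_eval _ _ (D (d - 1)).roots.toFinset 20 (fun s hs => ?_) ?_ ?_ ?_
    · obtain ⟨t0, l, -, h⟩ := hpt s (fun h0 => hs (by
        rw [Multiset.mem_toFinset, mem_roots hK, IsRoot, ← (hD _ (by omega) (by omega)).2, h0]
        simp))
      simp only [eval_mul, eval_pow]
      rw [← (hD _ (by omega) (by omega)).2, ← (hD _ (by omega) (by omega)).2,
        ← (hD _ (by omega) (by omega)).2, h _ (by omega) (by omega), h _ (by omega) (by omega),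
        h _ (by omega) (by omega), show d - 1 - (d - 1) = 0 by omega,
        show d - 1 - (d - 5) = 4 by omega, show d - 1 - (d - 2) = 1 by omega]
      ring
    · have := (hD (d - 5) (by omega) (by omega)).1
      refine natDegree_mul_le.trans ?_
      rw [natDegree_pow]; omega
    · have := (hD (d - 2) (by omega) (by omega)).1
      rw [natDegree_pow]; omega
    · have := (Multiset.toFinset_card_le (D (d - 1)).roots).trans (card_roots' _)
      omega
  obtain ⟨ρ, hρ⟩ := dvd_of_pow_dvd _ _ hK (by omega) ⟨_, hid.symm⟩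
  have hdeg : ρ.natDegree ≤ 2 := by
    by_cases h0 : ρ = 0
    · simp [h0]
    · have h1 := congrArg natDegree hid
      have h2 := (hD (d - 5) (by omega) (by omega)).1
      have h3 := natDegree_mul_le (p := D (d - 1) ^ 3) (q := D (d - 5))
      rw [h1, hρ, natDegree_pow, natDegree_pow, natDegree_mul hK h0] at h3
      omega
  have hρ2 : ∀ s t0, PT d (c s) t0 → t0 ^ 2 = ρ.eval s := fun s t0 h => by
    have h1 := congrArg (eval s) hρ
    rw [eval_mul, ← (hD _ (by omega) (by omega)).2, ← (hD _ (by omega) (by omega)).2,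
      h.step (m := d - 2) (by omega) (by omega), show d - 2 + 1 = d - 1 by omega, mul_pow] at h1
    exact mul_left_cancel₀ (pow_ne_zero 2 (h.ne (by omega))) h1
  refine ⟨⟨ρ, hdeg, hρ2⟩, fun E hE hc s hs => ?_⟩
  have hst : ∀ m, 2 ≤ m → m + 1 < d → D m = D (m + 1) * ρ := fun m h1 h2 => by
    refine eq_of_eval _ _ E (2 * (d - m) + 1) (fun s hs => ?_) (hD _ (by omega) (by omega)).1 ?_
      (by omega)
    · obtain ⟨t0, h⟩ := hpt s (hE s hs)
      rw [eval_mul, ← (hD _ (by omega) (by omega)).2, ← (hD _ (by omega) (by omega)).2,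
        ← hρ2 s t0 h, h.step (by omega) h2, mul_pow]
    · have := (hD (m + 1) (by omega) (by omega)).1
      exact natDegree_mul_le.trans (by omega)
  have ind : ∀ i, i + 3 ≤ d → (D (d - 1 - i)).eval s = 0 := by
    intro i
    induction i with
    | zero =>
      intro _
      rw [Nat.sub_zero, ← (hD _ (by omega) (by omega)).2, hs.eq (by omega) hev]; simp
    | succ i ih =>
      intro hi
      rw [hst _ (by omega) (by omega), eval_mul, show d - 1 - (i + 1) + 1 = d - 1 - i by omega,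
        ih (by omega), zero_mul]
  obtain ⟨m, h1, h2, h3⟩ := hs.2
  have := ind (d - 1 - m) (by omega)
  rw [show d - 1 - (d - 1 - m) = m by omega, ← (hD _ (by omega) (by omega)).2] at this
  exact h3 (pow_eq_zero_iff (two_ne_zero) |>.1 this)

end Pool.Agent.MP_9c0e17_co
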