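import Pool.Agent.MP_9c0e17_co.Basic

set_option autoImplicit false
set_option linter.unusedSectionVars false

namespace Pool.Agent.MP_9c0e17_co
open IsLocalRing Matrix

/-- local ring of characteristic four with maximal ideal generated by two -/
structure Gal (A : Type*) [CommRing A] [IsLocalRing A] : Prop where
  hm : maximalIdeal A = Ideal.span {(2 : A)}
  h4 : (4 : A) = 0
  h2 : (2 : A) ≠ 0

section loc
variable {A : Type*} [CommRing A] [IsLocalRing A]

/-- a lift -/
noncomputable def lf (a : ResidueField A) : A := Function.surjInv residue_surjective a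

@[simp] lemma res_lf (a : ResidueField A) : residue A (lf a) = a :=
  Function.surjInv_eq residue_surjective a

/-- twice a lift -/
noncomputable def tw (a : ResidueField A) : A := 2 * lf a

/-- square of a lift -/
noncomputable def sq' (a : ResidueField A) : A := lf a ^ 2

@[simp] lemma res_sq (a : ResidueField A) : residue A (sq' a) = a ^ 2 := by simp [sq']

lemma ex_unit {a v : Fin 3 → A} (h : IsUnit (a ⬝ᵥ v)) : ∃ i, IsUnit (a i) := by
  by_contra h'
  push Not at h'
  rw [← residue_ne_zero_iff_isUnit] at h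
  simp only [← residue_ne_zero_iff_isUnit, not_not] at h'
  simp [dotProduct, h'] at h

namespace Gal
variable (G : Gal A)
include G

lemma res_zero {x : A} : residue A x = 0 ↔ ∃ y, x = 2 * y := by
  rw [residue_eq_zero_iff, G.hm, Ideal.mem_span_singleton]; rfl

lemma not_unit {x : A} (h : ¬IsUnit x) : ∃ y, x = 2 * y := by
  rwa [← residue_ne_zero_iff_isUnit, not_not, G.res_zero] at h

lemma res_two : residue A 2 = 0 := G.res_zero.2 ⟨1, by simp⟩

lemma charP : CharP (ResidueField A) 2 :=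
  (CharP.charP_iff_prime_eq_zero Nat.prime_two).2 (by simpa [map_ofNat] using G.res_two)

lemma lf_res (x : A) : ∃ y, lf (residue A x) = x + 2 * y := by
  obtain ⟨y, hy⟩ := G.res_zero.1 (show residue A (lf (residue A x) - x) = 0 by simp)
  exact ⟨y, by rw [← hy]; ring⟩

lemma tw_res (x : A) : tw (residue A x) = 2 * x := by
  obtain ⟨y, hy⟩ := G.lf_res x
  rw [tw, hy]; linear_combination y * G.h4

lemma sq_res (x : A) : sq' (residue A x) = x ^ 2 := by
  obtain ⟨y, hy⟩ := G.lf_res x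
  rw [sq', hy]; linear_combination (x * y + y ^ 2) * G.h4

lemma res_tw (a : ResidueField A) : residue A (tw a) = 0 := by simp [tw, G.res_two]

lemma tw_inj {a b : ResidueField A} (h : tw a = tw b) : a = b := by
  by_contra hne
  have : IsUnit (lf a - lf b) := by
    rw [← residue_ne_zero_iff_isUnit]; simpa [sub_eq_zero] using hne
  refine G.h2 (this.mul_left_eq_zero.1 ?_)
  rw [mul_sub]; exact sub_eq_zero.2 h

lemma tw_add (a b : ResidueField A) : tw (a + b) = tw a + tw b := by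
  obtain ⟨a, rfl⟩ := residue_surjective a
  obtain ⟨b, rfl⟩ := residue_surjective b
  rw [← map_add, G.tw_res, G.tw_res, G.tw_res, mul_add]

lemma mul_tw (x : A) (a : ResidueField A) : x * tw a = tw (residue A x * a) := by
  obtain ⟨a, rfl⟩ := residue_surjective a
  rw [← map_mul, G.tw_res, G.tw_res, mul_left_comm]

lemma sq_mul (a b : ResidueField A) : sq' (a * b) = sq' a * sq' b := by
  obtain ⟨a, rfl⟩ := residue_surjective a
  obtain ⟨b, rfl⟩ := residue_surjective b
  rw [← map_mul, G.sq_res, G.sq_res, G.sq_res, mul_pow]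

lemma sq_zero : sq' (0 : ResidueField A) = 0 := by simpa using G.sq_res 0

lemma decomp (x : A) {a : ResidueField A} (h : residue A x = a ^ 2) : ∃ b, x = sq' a + tw b := by
  obtain ⟨y, hy⟩ := G.res_zero.1 (show residue A (x - sq' a) = 0 by simp [h])
  exact ⟨residue A y, by rw [G.tw_res, ← hy]; ring⟩

lemma card_eq : Nat.card A = Nat.card (ResidueField A) ^ 2 := by
  rw [sq, ← Nat.card_prod]
  refine (Nat.card_eq_of_bijective (fun p : ResidueField A × ResidueField A => lf p.1 + tw p.2)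
    ⟨fun p q h => ?_, fun x => ?_⟩).symm
  · have h1 := congrArg (residue A) h
    simp only [map_add, res_lf, G.res_tw, add_zero] at h1
    simp only [h1, add_right_inj] at h
    exact Prod.ext h1 (G.tw_inj h)
  · obtain ⟨y, hy⟩ := G.lf_res x
    exact ⟨(residue A x, residue A y), by
      simp only [hy, G.tw_res]; linear_combination y * G.h4⟩

lemma card_units : Nat.card Aˣ = (Nat.card (ResidueField A) - 1) * Nat.card (ResidueField A) := by
  rw [← Nat.card_units, ← Nat.card_prod]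
  have hu : ∀ p : (ResidueField A)ˣ × ResidueField A, IsUnit (lf (p.1 : ResidueField A) + tw p.2) :=
    fun p => by rw [← residue_ne_zero_iff_isUnit]; simp [G.res_tw]
  refine (Nat.card_eq_of_bijective (fun p => (hu p).unit) ⟨fun p q h => ?_, fun x => ?_⟩).symm
  · have h : lf (p.1 : ResidueField A) + tw p.2 = lf (q.1 : ResidueField A) + tw q.2 :=
      congrArg Units.val h
    have h1 := congrArg (residue A) h
    simp only [map_add, res_lf, G.res_tw, add_zero] at h1
    simp only [h1, add_right_inj] at h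
    exact Prod.ext (Units.ext h1) (G.tw_inj h)
  · obtain ⟨y, hy⟩ := G.lf_res x
    refine ⟨(Units.mk0 (residue A x) ((residue_ne_zero_iff_isUnit _).2 x.isUnit), residue A y),
      Units.ext ?_⟩
    simp only [IsUnit.unit_spec, Units.val_mk0, hy, G.tw_res]
    linear_combination y * G.h4

lemma dot (a η p v : Fin 3 → ResidueField A) :
    (fun i => sq' (a i) + tw (η i)) ⬝ᵥ (fun i => sq' (p i) + tw (v i)) =
      sq' (dt a p) + tw (e2 a p + dq a v + dq p η) := by
  obtain ⟨a, rfl⟩ := (residue_surjective (R := A)).comp_left a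
  obtain ⟨η, rfl⟩ := (residue_surjective (R := A)).comp_left η
  obtain ⟨p, rfl⟩ := (residue_surjective (R := A)).comp_left p
  obtain ⟨v, rfl⟩ := (residue_surjective (R := A)).comp_left v
  simp only [dotProduct, Fin.sum_univ_three, dt, e2, dq, Function.comp, ← map_mul, ← map_add,
    ← map_pow, G.tw_res, G.sq_res]
  linear_combination (η 0 * v 0 + η 1 * v 1 + η 2 * v 2 - (a 0 * p 0 * (a 1 * p 1) +
    a 0 * p 0 * (a 2 * p 2) + a 1 * p 1 * (a 2 * p 2))) * G.h4

end Gal
end loc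

/-- the arc conditions -/
structure Arc {R : Type*} [CommRing R] (n : ℕ) (K : Set (Fin 3 → R)) : Prop where
  h1 : ∀ x ∈ K, ∃ i, IsUnit (x i)
  h2 : ∀ x ∈ K, ∀ u : Rˣ, (u : R) • x ∈ K
  h3 : K.ncard = n * Nat.card Rˣ
  h4 : ∀ a : Fin 3 → R, (∃ i, IsUnit (a i)) → {x ∈ K | a ⬝ᵥ x = 0}.ncard ≤ 2 * Nat.card Rˣ

section arc
variable {R : Type*} [CommRing R] [Fintype R]

/-- unit orbit -/
def orb (x : Fin 3 → R) : Set (Fin 3 → R) := Set.range fun u : Rˣ => (u : R) • x

lemma orb_le (x : Fin 3 → R) : (orb x).ncard ≤ Nat.card Rˣ := by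
  rw [orb, ← Set.image_univ, ← Set.ncard_univ]; exact Set.ncard_image_le

lemma orb_card {x : Fin 3 → R} (h : ∃ i, IsUnit (x i)) : (orb x).ncard = Nat.card Rˣ := by
  obtain ⟨i, hi⟩ := h
  exact Set.ncard_range_of_injective fun u v h => Units.ext (hi.mul_right_cancel (congrFun h i))

lemma orb_disj {x y : Fin 3 → R} (h : y ∉ orb x) : Disjoint (orb x) (orb y) := by
  rw [Set.disjoint_left]
  rintro _ ⟨u, rfl⟩ ⟨v, hv⟩
  refine h ⟨v⁻¹ * u, ?_⟩
  simp only at hv ⊢
  rw [Units.val_mul, mul_smul, ← hv, smul_smul]; simp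

lemma Arc.col {n : ℕ} {K : Set (Fin 3 → R)} (H : Arc n K) {a x y z : Fin 3 → R}
    (ha : ∃ i, IsUnit (a i)) (hx : x ∈ K) (hy : y ∈ K) (hz : z ∈ K) (h1 : a ⬝ᵥ x = 0)
    (h2 : a ⬝ᵥ y = 0) (h3 : a ⬝ᵥ z = 0) : y ∈ orb x ∨ z ∈ orb x ∨ z ∈ orb y := by
  by_contra h
  push Not at h
  have hs : ∀ w ∈ K, a ⬝ᵥ w = 0 → orb w ⊆ {x ∈ K | a ⬝ᵥ x = 0} := by
    rintro w hw h0 _ ⟨u, rfl⟩
    exact ⟨H.h2 w hw u, by simp [h0]⟩
  have := (Set.ncard_le_ncard (Set.union_subset (Set.union_subset (hs x hx h1) (hs y hy h2))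
    (hs z hz h3))).trans (H.h4 a ha)
  rw [Set.ncard_union_eq (Set.disjoint_union_left.2 ⟨orb_disj h.2.1, orb_disj h.2.2⟩),
    Set.ncard_union_eq (orb_disj h.1), orb_card (H.h1 x hx), orb_card (H.h1 y hy),
    orb_card (H.h1 z hz)] at this
  have : 0 < Nat.card Rˣ := Nat.card_pos
  omega

variable [IsLocalRing R]

lemma Arc.uniq {n : ℕ} {K : Set (Fin 3 → R)} (H : Arc n K) (G : Gal R)
    (hn : Fintype.card R + 2 < n) {x x' : Fin 3 → R} (hx : x ∈ K) (hx' : x' ∈ K)
    (h : ∀ i, residue R (x' i) = residue R (x i)) : ∃ c : R, x' = (1 + 2 * c) • x := by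
  classical
  have hv : ∀ i, ∃ y, x' i - x i = 2 * y := fun i => G.res_zero.1 (by simp [h])
  choose v hv using hv
  obtain rfl : x' = x + (2 : R) • v := by funext i; simp [← hv]
  by_cases hc : ∃ k, IsUnit ((x ⨯₃ v) k)
  swap
  · push Not at hc
    obtain ⟨i, u, hu⟩ := H.h1 x hx
    obtain ⟨y0, h0⟩ := G.not_unit (hc 0)
    obtain ⟨y1, h1⟩ := G.not_unit (hc 1)
    obtain ⟨y2, h2⟩ := G.not_unit (hc 2)
    have h4 := G.h4
    have hu' : (u⁻¹ : Rˣ) * x i = 1 := by rw [← hu]; simp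
    refine ⟨v i * (u⁻¹ : Rˣ), ?_⟩
    generalize ((u⁻¹ : Rˣ) : R) = w at hu'
    simp [cross_apply] at h0 h1 h2
    funext j
    fin_cases i <;> fin_cases j <;> simp at hu' ⊢ <;> grind
  exfalso
  obtain ⟨k, hk⟩ := hc
  obtain ⟨m, hm⟩ : ∃ m : Fin 3 → R, IsUnit ((x ⨯₃ v) ⬝ᵥ m) := ⟨Pi.single k 1, by simpa using hk⟩
  have hxx : x + (2 : R) • v ∉ orb x := by
    rintro ⟨u, hu⟩
    have := congrArg (fun z => (x ⨯₃ z) k) hu
    simp at this
    exact G.h2 (hk.mul_left_eq_zero.1 this.symm)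
  have ua : ∀ c : R, ∃ i, IsUnit ((m ⨯₃ x + c • (x ⨯₃ v)) i) := fun c => ex_unit (v := v) (by
    convert hm using 1; simp [cross_apply, dotProduct, Fin.sum_univ_three]; ring)
  have ub : ∀ c : R, ∃ i, IsUnit ((x ⨯₃ v + c • (m ⨯₃ x)) i) := fun c => ex_unit (v := m) (by
    convert hm using 1; simp [cross_apply, dotProduct, Fin.sum_univ_three]; ring)
  have hw : ∀ c : R, ∃ w, ∀ y ∈ K, (m ⨯₃ x + c • (x ⨯₃ v)) ⬝ᵥ y = 0 → y ∈ orb x ∨ y ∈ orb w := by
    intro c
    by_cases h : ∃ w ∈ K, (m ⨯₃ x + c • (x ⨯₃ v)) ⬝ᵥ w = 0 ∧ w ∉ orb x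
    · obtain ⟨w, hw, h0, h1⟩ := h
      refine ⟨w, fun y hy h2 => (H.col (ua c) hx hw hy ?_ h0 h2).resolve_left h1⟩
      simp [cross_apply, dotProduct, Fin.sum_univ_three]; ring
    · push Not at h
      exact ⟨x, fun y hy h2 => .inl (h y hy h2)⟩
  choose w hw using hw
  have hsub : K ⊆ orb x ∪ orb (x + (2 : R) • v) ∪ ⋃ c, orb (w c) := by
    intro y hy
    have : (∃ c : R, (m ⨯₃ x) ⬝ᵥ y + c * ((x ⨯₃ v) ⬝ᵥ y) = 0) ∨
        ∃ c : R, (x ⨯₃ v) ⬝ᵥ y + 2 * c * ((m ⨯₃ x) ⬝ᵥ y) = 0 := by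
      generalize (m ⨯₃ x) ⬝ᵥ y = A
      generalize (x ⨯₃ v) ⬝ᵥ y = B
      by_cases hB : IsUnit B
      · obtain ⟨u, rfl⟩ := hB
        exact .inl ⟨-A * (u⁻¹ : Rˣ), by simp⟩
      obtain ⟨B, rfl⟩ := G.not_unit hB
      by_cases hA : IsUnit A
      · obtain ⟨u, rfl⟩ := hA
        exact .inr ⟨-B * (u⁻¹ : Rˣ), by simp [mul_assoc]⟩
      obtain ⟨A, rfl⟩ := G.not_unit hA
      by_cases hB : IsUnit B
      · obtain ⟨u, rfl⟩ := hB
        exact .inl ⟨-A * (u⁻¹ : Rˣ), by linear_combination (-2 * A) * u.inv_mul⟩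
      obtain ⟨B, rfl⟩ := G.not_unit hB
      exact .inr ⟨0, by linear_combination B * G.h4⟩
    rcases this with ⟨c, hc⟩ | ⟨c, hc⟩
    · rcases hw c y hy (by simpa using hc) with h | h
      · exact .inl (.inl h)
      · exact .inr (Set.mem_iUnion.2 ⟨c, h⟩)
    · refine .inl ((H.col (ub (2 * c)) hx hx' hy ?_ ?_ (by simpa using hc)).resolve_left hxx)
      · simp [cross_apply, dotProduct, Fin.sum_univ_three]; ring
      · have h4 := G.h4
        simp [cross_apply, dotProduct, Fin.sum_univ_three]; grind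
  have h1 := (Set.ncard_le_ncard hsub).trans ((Set.ncard_union_le _ _).trans (add_le_add
    ((Set.ncard_union_le _ _).trans (add_le_add (orb_le _) (orb_le _)))
    ((Set.ncard_iUnion_le_of_fintype _).trans (Finset.sum_le_card_nsmul _ _ _
      fun c _ => orb_le (w c)))))
  rw [H.h3, Finset.card_univ, smul_eq_mul] at h1
  have : 0 < Nat.card Rˣ := Nat.card_pos
  nlinarith

lemma Arc.surj {q : ℕ} {K : Set (Fin 3 → R)} (H : Arc (q ^ 2 + q + 1) K) (G : Gal R)
    (hq : Nat.card (ResidueField R) = q) (ξ : Fin 3 → ResidueField R) (hξ : ξ ≠ 0) :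
    ∃ x ∈ K, ∀ i, residue R (x i) = ξ i := by
  classical
  have : Finite (ResidueField R) := Finite.of_surjective _ residue_surjective
  have := Fintype.ofFinite (ResidueField R)
  have hq2 : 1 < q := hq ▸ Finite.one_lt_card
  have hR : Fintype.card R = q ^ 2 := by rw [← Nat.card_eq_fintype_card, G.card_eq, hq]
  by_contra h
  push Not at h
  have := Finset.card_le_mul_card_image_of_maps_to (f := fun x i => residue R (x i))
    (s := K.toFinset) (t := Finset.univ \ {0, ξ}) (fun x hx => by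
      rw [Set.mem_toFinset] at hx
      obtain ⟨i, hi⟩ := H.h1 x hx
      obtain ⟨j, hj⟩ := h x hx
      simp only [Finset.mem_sdiff, Finset.mem_univ, Finset.mem_insert, Finset.mem_singleton,
        true_and, not_or]
      exact ⟨fun h => (residue_ne_zero_iff_isUnit _).2 hi (congrFun h i),
        fun h => hj (congrFun h j)⟩) q (fun b _ => by
      rcases (K.toFinset.filter fun x => (fun i => residue R (x i)) = b).eq_empty_or_nonempty
        with h0 | ⟨x, hx⟩
      · simp [h0]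
      · rw [Finset.mem_filter, Set.mem_toFinset] at hx
        refine (Finset.card_le_card (t := Finset.univ.image fun c : ResidueField R => (1 + tw c) • x)
          fun y hy => ?_).trans (Finset.card_image_le.trans ?_)
        · rw [Finset.mem_filter, Set.mem_toFinset] at hy
          obtain ⟨c, hc⟩ := H.uniq G (by omega) hx.1 hy.1
            fun i => congrFun (hy.2.trans hx.2.symm) i
          exact Finset.mem_image.2 ⟨residue R c, Finset.mem_univ _, by rw [G.tw_res, hc]⟩
        · rw [Finset.card_univ, ← Nat.card_eq_fintype_card, hq])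
  rw [← Set.ncard_eq_toFinset_card', H.h3, G.card_units, hq,
    Finset.card_sdiff_of_subset (Finset.subset_univ _), Finset.card_pair hξ.symm,
    Finset.card_univ, Fintype.card_fun, ← Nat.card_eq_fintype_card, hq, Fintype.card_fin] at this
  obtain ⟨p, rfl⟩ : ∃ p, q = p + 2 := ⟨q - 2, by omega⟩
  rw [show (p + 2) ^ 3 - 2 = p ^ 3 + 6 * p ^ 2 + 12 * p + 6 by
    rw [Nat.sub_eq_iff_eq_add (by nlinarith [Nat.zero_le (p ^ 3), Nat.zero_le (p ^ 2)])]; ring,
    show p + 2 - 1 = p + 1 by omega] at this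
  nlinarith [Nat.zero_le (p ^ 4), Nat.zero_le (p ^ 3), Nat.zero_le (p ^ 2)]

end arc

end Pool.Agent.MP_9c0e17_co
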