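import Pool.Agent.MP_9c0e17_co.SymT

/- Arcs containing a union of cosets of the Teichmueller group. -/

set_option autoImplicit false
set_option linter.unusedSectionVars false

namespace Pool.Agent.MP_9c0e17_co.Sym
open Polynomial Finset
open scoped Classical

section field
variable {F : Type*} [Field F] [Fintype F]

lemma equi2 {G : Type*} [CommGroup G] [Finite G] (x y : F → G) (κ : ℝ) (hκ : 0 ≤ κ)
    (hW : ∀ χ ψ : G →* ℂˣ, (χ, ψ) ≠ (1, 1) →
      ‖∑ t : F, (χ (x t) : ℂ) * ψ (y t)‖ ≤ κ * √(Fintype.card F : ℝ)) (Y : Finset G)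
    (h : κ * (Nat.card G : ℝ) ^ 2 < Y.card * √(Fintype.card F : ℝ)) : ∃ t, x t ∈ Y ∧ y t ∈ Y := by
  by_contra hn
  push Not at hn
  have hc := CommGroup.card_monoidHom_of_hasEnoughRootsOfUnity G ℂ
  have : Finite (G →* ℂˣ) := Nat.finite_of_card_ne_zero (by rw [hc]; exact Nat.card_pos.ne')
  have := Fintype.ofFinite (G →* ℂˣ)
  have h0 : ∀ a : G, ∑ φ : G →* ℂˣ, (φ a : ℂ) = if a = 1 then (Nat.card G : ℂ) else 0 := fun a => by
    split_ifs with ha
    · simp [ha, ← hc]
    obtain ⟨χ, hχ⟩ := CommGroup.exists_apply_ne_one_of_hasEnoughRootsOfUnity G ℂ ha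
    refine eq_zero_of_mul_eq_self_left (mt Units.val_eq_one.1 hχ) ?_
    rw [mul_sum]
    exact Fintype.sum_bijective _ (Group.mulLeft_bijective χ) _ _ fun χ' => by simp
  obtain ⟨H, hH⟩ : ∃ H : (G →* ℂˣ) → ℂ, ∀ χ, H χ = ∑ g ∈ Y, (χ g⁻¹ : ℂ) := ⟨_, fun _ => rfl⟩
  have h1 : ∀ z, ∑ χ, H χ * χ z = if z ∈ Y then (Nat.card G : ℂ) else 0 := fun z => by
    simp only [hH, sum_mul, ← Units.val_mul, ← map_mul]
    rw [sum_comm]
    simp only [h0, inv_mul_eq_one, sum_ite_eq']
  have h2 : ∑ χ, ‖H χ‖ ^ 2 = Y.card * Nat.card G := by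
    have e : ∀ (χ : G →* ℂˣ) (g : G), (starRingEnd ℂ) (χ g⁻¹ : ℂ) = χ g := fun χ g => by
      have : ‖(χ g⁻¹ : ℂ)‖ ^ Nat.card G = 1 := by
        rw [← norm_pow, ← Units.val_pow_eq_pow_val, ← map_pow, pow_card_eq_one']; simp
      rw [← Complex.inv_eq_conj ((pow_eq_one_iff_of_nonneg (norm_nonneg _) Nat.card_pos.ne').1 this)]
      simp
    have : ∑ χ, H χ * (starRingEnd ℂ) (H χ) = Y.card * Nat.card G := by
      rw [sum_congr rfl fun χ _ => show H χ * (starRingEnd ℂ) (H χ) = ∑ g ∈ Y, H χ * χ g by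
        rw [← mul_sum, hH, map_sum]; simp only [e], sum_comm,
        sum_congr rfl fun g hg => (h1 g).trans (if_pos hg), sum_const, nsmul_eq_mul]
    simp only [Complex.mul_conj, Complex.normSq_eq_norm_sq] at this
    exact_mod_cast this
  have h3 : ∑ p : (G →* ℂˣ) × (G →* ℂˣ), H p.1 * H p.2 * ∑ t : F, (p.1 (x t) : ℂ) * p.2 (y t) = 0 := by
    simp only [mul_sum]
    rw [sum_comm]
    refine sum_eq_zero fun t _ => ?_
    rw [Fintype.sum_prod_type, sum_congr rfl fun χ _ => sum_congr rfl fun ψ _ =>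
      mul_mul_mul_comm (H χ) (H ψ) (χ (x t)) (ψ (y t)), ← sum_mul_sum, h1, h1]
    by_cases ht : x t ∈ Y
    · rw [if_neg (hn t ht), mul_zero]
    · rw [if_neg ht, zero_mul]
  rw [← add_sum_erase _ _ (mem_univ (1, 1)), add_eq_zero_iff_eq_neg] at h3
  have h4 := congrArg norm h3
  rw [norm_neg] at h4
  have h5 := h4.trans_le ((norm_sum_le_of_le
    (n := fun p => ‖H p.1‖ * ‖H p.2‖ * (κ * √(Fintype.card F : ℝ))) _ fun p hp => by
      rw [norm_mul, norm_mul]
      exact mul_le_mul_of_nonneg_left (hW _ _ (mem_erase.1 hp).1) (by positivity)).trans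
    (sum_le_sum_of_subset_of_nonneg (erase_subset _ _) fun _ _ _ => by positivity))
  rw [← sum_mul, Fintype.sum_prod_type] at h5
  simp only [hH 1, MonoidHom.one_apply, Units.val_one, sum_const, nsmul_eq_mul, mul_one, card_univ,
    norm_mul, Complex.norm_natCast, ← sum_mul_sum] at h5
  have h6 := sq_sum_le_card_mul_sum_sq (s := univ) (f := fun χ : G →* ℂˣ => ‖H χ‖)
  rw [h2, card_univ, ← Nat.card_eq_fintype_card, hc, sq] at h6
  have h7 := Real.mul_self_sqrt (Nat.cast_nonneg (α := ℝ) (Fintype.card F))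
  have h8 := Real.sqrt_nonneg (Fintype.card F : ℝ)
  generalize √(Fintype.card F : ℝ) = s at *
  have h9 : 0 < (Y.card : ℝ) * s := lt_of_le_of_lt (by positivity) h
  have := mul_le_mul_of_nonneg_right h6 (mul_nonneg hκ h8)
  have := mul_lt_mul_of_pos_right h h9
  rw [← h7] at h5
  nlinarith

variable {E : Type*} [Field E] [Fintype E] [Algebra F E]

theorem cover2 [CharP F 2] (h3 : Module.finrank F E = 3) (B : Subgroup Eˣ) (P : Set Eˣ)
    (hP : ∀ p ∈ P, ∀ b ∈ B, p * b ∈ P)
    (hB : (5 * B.index * Nat.card Eˣ) ^ 2 < P.ncard ^ 2 * Fintype.card F) {ω : E}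
    (hω : ∀ t, ω ≠ algebraMap F E t) (c : Eˣ) : ∃ t : F, ∃ u ∈ P, ∃ v ∈ P,
      (u : E) = c * (ω + algebraMap F E t) ∧ (v : E) = c * (ω + algebraMap F E t + 1) := by
  have : CharP E 2 := charP_of_injective_algebraMap (algebraMap F E).injective 2
  have hω' : ∀ t, ω + 1 ≠ algebraMap F E t := fun t h => hω (t - 1) (by simp [← h])
  have hu : ∀ t : F, IsUnit ((ω, ω + 1) - algebraMap F (E × E) t) := fun t =>
    Prod.isUnit_iff.2 ⟨(sub_ne_zero.2 (hω t)).isUnit, (sub_ne_zero.2 (hω' t)).isUnit⟩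
  obtain ⟨π, hπ⟩ : ∃ π, π = QuotientGroup.mk' B := ⟨_, rfl⟩
  have hs : Function.Surjective π := hπ ▸ QuotientGroup.mk'_surjective B
  obtain ⟨t, h1, h2⟩ := equi2 (fun t => π (MulEquiv.prodUnits (hu t).unit).1)
    (fun t => π (MulEquiv.prodUnits (hu t).unit).2) 5 (by norm_num) (fun χ ψ hne => by
      have := weil1 (ω, ω + 1) 5 (surj6 h3 hω) (MulChar.ofUnitHom
        (((χ.comp π).coprod (ψ.comp π)).comp MulEquiv.prodUnits.toMonoidHom)) fun h' => hne (by
          have k : ∀ a b : Eˣ, χ (π a) * ψ (π b) = 1 := fun a b => Units.ext (by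
            simpa using congrArg (fun χ : MulChar (E × E) ℂ =>
              χ (MulEquiv.prodUnits.symm (a, b) : (E × E)ˣ)) h')
          refine Prod.ext (MonoidHom.ext fun a => ?_) (MonoidHom.ext fun a => ?_) <;>
            obtain ⟨a, rfl⟩ := hs a
          · simpa using k a 1
          · simpa using k 1 a)
      refine le_of_eq_of_le (congrArg _ (sum_congr rfl fun t _ => ?_)) this
      exact (MulChar.ofUnitHom_coe (((χ.comp π).coprod (ψ.comp π)).comp
        MulEquiv.prodUnits.toMonoidHom) (hu t).unit).symm)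
    (P.toFinset.image fun p => π (c⁻¹ * p)) (by
      have k1 : P.ncard ≤ Nat.card B * (P.toFinset.image fun p => π (c⁻¹ * p)).card := by
        rw [Set.ncard_eq_toFinset_card']
        refine card_le_mul_card_image _ _ fun g hg => ?_
        obtain ⟨p, -, rfl⟩ := mem_image.1 hg
        rw [← SetLike.coe_sort_coe, Nat.card_eq_card_toFinset (B : Set Eˣ)]
        refine card_le_card_of_injOn (fun z => p⁻¹ * z) (fun z hz => ?_)
          (mul_right_injective _).injOn
        have := (mem_filter.1 hz).2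
        rw [hπ] at this
        simpa using QuotientGroup.eq.1 this.symm
      generalize (P.toFinset.image fun p => π (c⁻¹ * p)).card = m at *
      rw [← B.index_mul_card] at hB
      have k2 : (5 * B.index ^ 2) ^ 2 < m ^ 2 * Fintype.card F :=
        Nat.lt_of_mul_lt_mul_right (a := Nat.card B ^ 2) (by
          have := Nat.mul_le_mul_right (Fintype.card F) (Nat.pow_le_pow_left k1 2)
          nlinarith)
      refine lt_of_pow_lt_pow_left₀ 2 (by positivity) ?_
      rw [mul_pow (m : ℝ), Real.sq_sqrt (Nat.cast_nonneg _)]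
      exact_mod_cast k2)
  have k : ∀ z : Eˣ, π z ∈ P.toFinset.image (fun p => π (c⁻¹ * p)) → c * z ∈ P := fun z hz => by
    obtain ⟨p, hp, h⟩ := mem_image.1 hz
    rw [hπ] at h
    simpa [← mul_assoc] using hP p (by simpa using hp) _ (QuotientGroup.eq.1 h)
  refine ⟨t, _, k _ h1, _, k _ h2, ?_, ?_⟩
  · exact congrArg ((c : E) * ·) (CharTwo.sub_eq_add ω _)
  · exact congrArg ((c : E) * ·) ((CharTwo.sub_eq_add (ω + 1) _).trans (add_right_comm _ _ _))

end field

open IsLocalRing Matrix in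
theorem subarc {R : Type*} [CommRing R] [Fintype R] [IsLocalRing R] [CharP R 4] {r d : ℕ}
    (hr : 1 ≤ r) (hd : 1 ≤ d) (hm : maximalIdeal R = Ideal.span {(2 : R)})
    (hc : Fintype.card R = 2 ^ (2 * r)) {T : Type*} [CommRing T] [IsLocalRing T] [Algebra R T]
    (hT : maximalIdeal T = Ideal.span {(2 : T)}) (b : Module.Basis (Fin 3) R T) (A : Set T)
    (hA : ∀ a ∈ A, a ^ (8 ^ r - 1) = 1) (hA' : ∀ a ∈ A, ∀ t : T, t ^ (8 ^ r - 1) = 1 → a * t ^ d ∈ A)
    (hb : (5 * d * (8 ^ r - 1)) ^ 2 < A.ncard ^ 2 * 2 ^ r) {K : Set (Fin 3 → R)}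
    (h1 : ∀ x ∈ K, ∃ i, IsUnit (x i)) (h2 : ∀ x ∈ K, ∀ u : Rˣ, (u : R) • x ∈ K)
    (h4 : ∀ a : Fin 3 → R, (∃ i, IsUnit (a i)) → {x ∈ K | a ⬝ᵥ x = 0}.ncard ≤ 2 * Nat.card Rˣ)
    (h5 : ∀ a ∈ A, b.equivFun a ∈ K) :
    K ⊆ {y | ∃ (u : Rˣ) (t : T), t ^ (8 ^ r - 1) = 1 ∧ y = b.equivFun ((u : R) • t)} := by
  have G : Gal R := ⟨hm, by simpa using CharP.cast_eq_zero R 4, fun h => by
    have := (CharP.cast_eq_zero_iff R 4 2).1 (by simpa using h)
    omega⟩
  have hq : Nat.card (ResidueField R) = 2 ^ r := by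
    have := G.card_eq
    rw [Nat.card_eq_fintype_card, hc, pow_mul'] at this
    exact (Nat.pow_left_injective two_ne_zero this).symm
  have := G.charP
  have : Finite (ResidueField R) := Finite.of_surjective _ residue_surjective
  have := Fintype.ofFinite (ResidueField R)
  have G' : Gal T := ⟨hT, by rw [← map_ofNat (algebraMap R T), G.h4, map_zero], fun h => by
    have : (2 : R) • b 0 = 0 := by rw [Algebra.smul_def, map_ofNat, h, zero_mul]
    exact G.h2 (by simpa using congrArg (b.repr · 0) this)⟩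
  have := G'.charP
  have : IsLocalHom (algebraMap R T) := ⟨fun x hx => by
    by_contra h
    obtain ⟨y, rfl⟩ := G.not_unit h
    rw [← residue_ne_zero_iff_isUnit] at hx
    simp [map_ofNat (algebraMap R T), G'.res_two] at hx⟩
  have : Finite T := Finite.of_equiv _ b.equivFun.toEquiv.symm
  have : Finite (ResidueField T) := Finite.of_surjective _ residue_surjective
  have hE : Nat.card (ResidueField T) = (2 ^ r) ^ 3 := by
    have h := G'.card_eq
    rw [Nat.card_congr b.equivFun.toEquiv, Nat.card_fun, G.card_eq, hq, Nat.card_fin,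
      ← pow_mul, mul_comm, pow_mul] at h
    exact (Nat.pow_left_injective two_ne_zero h).symm
  have hE3 : Module.finrank (ResidueField R) (ResidueField T) = 3 := by
    have : Module.Finite (ResidueField R) (ResidueField T) := Module.Finite.of_finite
    have h := Module.natCard_eq_pow_finrank (K := ResidueField R) (V := ResidueField T)
    rw [hE, hq] at h
    exact (Nat.pow_right_injective (two_le_pow hr) h).symm
  have := Fintype.ofFinite (ResidueField T)
  have hQ : Fintype.card (ResidueField T) = 8 ^ r := by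
    rw [← Nat.card_eq_fintype_card, hE, ← pow_mul, pow_mul']; rfl
  have ht : ∀ p : ResidueField T, p ≠ 0 → sq' p ^ (8 ^ r - 1) = 1 := fun p hp => by
    obtain ⟨z, hz⟩ := residue_surjective p
    rw [← hz, G'.sq_res, ← pow_mul, pow_mul', ← G'.sq_res, map_pow, hz, ← hQ,
      FiniteField.pow_card_sub_one_eq_one _ hp]
    simpa using G'.sq_res 1
  have hs := step (K := K) G G' h1 (fun a x y z ha hx hy hz e1 e2 e3 => by
      by_contra h
      have k : ∀ x y : Fin 3 → R, (¬∃ u : R, y = u • x) → Disjoint (orb x) (orb y) :=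
        fun x y h => orb_disj fun ⟨u, hu⟩ => h ⟨u, hu.symm⟩
      rw [not_or, not_or] at h
      have hs : ∀ w ∈ K, a ⬝ᵥ w = 0 → orb w ⊆ {x ∈ K | a ⬝ᵥ x = 0} := by
        rintro w hw h0 _ ⟨u, rfl⟩
        exact ⟨h2 w hw u, by simp [h0]⟩
      have := (Set.ncard_le_ncard (Set.union_subset (Set.union_subset (hs x hx e1) (hs y hy e2))
        (hs z hz e3))).trans (h4 a ha)
      rw [Set.ncard_union_eq (Set.disjoint_union_left.2 ⟨k _ _ h.2.1, k _ _ h.2.2⟩),
        Set.ncard_union_eq (k _ _ h.1), orb_card (h1 x hx), orb_card (h1 y hy),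
        orb_card (h1 z hz)] at this
      have : 0 < Nat.card Rˣ := Nat.card_pos
      omega) hE3 b.equivFun.symm.toLinearMap (fun y hy i => by
      obtain ⟨z, hz⟩ := G'.res_zero.1 hy
      rw [← two (R := R), LinearEquiv.coe_coe, LinearEquiv.symm_apply_eq, map_smul] at hz
      simp [hz, G.res_two]) {p | sq' (p : ResidueField T) ∈ A}
    (fun p hp => ⟨_, h5 _ hp, b.equivFun.symm_apply_apply _⟩) fun ω hω => by
      refine cover2 hE3 (powMonoidHom d).range _ ?_ ?_ hω
      · rintro p hp _ ⟨s, rfl⟩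
        obtain ⟨z, hz⟩ := residue_surjective (s : ResidueField T)
        have := hA' _ hp _ (ht _ s.ne_zero)
        rwa [← hz, G'.sq_res, ← pow_mul, pow_mul', ← G'.sq_res, map_pow, hz, ← G'.sq_mul] at this
      · rw [IsCyclic.index_powMonoidHom_range, Nat.card_units, ← Nat.card_eq_fintype_card, hq,
          Nat.card_eq_fintype_card, hQ]
        refine (Nat.pow_le_pow_left (Nat.mul_le_mul_right _ (Nat.mul_le_mul_left 5
          (Nat.gcd_le_right _ hd))) 2).trans_lt (hb.trans_le (Nat.mul_le_mul_right _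
          (Nat.pow_le_pow_left ((Set.ncard_le_ncard fun a ha => ?_).trans (Set.ncard_image_le
          (f := fun p : (ResidueField T)ˣ => sq' (p : ResidueField T)))) 2)))
        have h8 : 8 ^ r = 2 * (4 * 8 ^ (r - 1)) := by
          rw [← mul_assoc, show 2 * 4 = 8 by rfl, ← pow_succ']; congr 1; omega
        have hx1 : sq' (residue T (a ^ (4 * 8 ^ (r - 1)))) = a := by
          rw [G'.sq_res, ← pow_mul', ← h8,
            ← Nat.sub_add_cancel (Nat.one_le_pow r 8 (by norm_num)), pow_succ, hA a ha, one_mul]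
        have hu : IsUnit a := IsUnit.of_pow_eq_one (hA a ha)
          (Nat.sub_ne_zero_of_lt (Nat.one_lt_pow (by omega) (by norm_num)))
        exact ⟨Units.mk0 _ ((residue_ne_zero_iff_isUnit _).2 (hu.pow _)),
          show sq' _ ∈ A from hx1.symm ▸ ha, hx1⟩
  intro x hx
  obtain ⟨u, p, hp, h⟩ := hs x hx
  exact ⟨u, _, ht p hp, (LinearEquiv.symm_apply_eq _).1 h⟩

end Pool.Agent.MP_9c0e17_co.Sym
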