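import Pool.Agent.MP_9c0e17_co.SymG

/- Finite matrix groups in characteristic two without perspectivities. -/

set_option autoImplicit false

namespace Pool.Agent.MP_9c0e17_co.Sym
open MulAction Matrix Polynomial
open scoped LinearAlgebra.Projectivization

variable {L : Type*} [Field L]

lemma rank_le {N : Matrix (Fin 3) (Fin 3) L} {v w : Fin 3 → L} (h : LinearIndependent L ![v, w])
    (hv : N *ᵥ v = 0) (hw : N *ᵥ w = 0) : N.rank ≤ 1 := by
  have h1 := LinearMap.finrank_range_add_finrank_ker N.mulVecLin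
  have h2 := Submodule.finrank_mono (show Submodule.span L (Set.range ![v, w]) ≤
    LinearMap.ker N.mulVecLin from Submodule.span_le.2 (by
      rintro _ ⟨i, rfl⟩; fin_cases i <;> simpa))
  rw [finrank_span_eq_card h] at h2
  simp only [Module.finrank_fintype_fun_eq_card, Fintype.card_fin] at h1 h2
  unfold Matrix.rank
  omega

lemma eig_pow {A : Matrix (Fin 3) (Fin 3) L} {v : Fin 3 → L} {a : L} (h : A *ᵥ v = a • v)
    (j : ℕ) : (A ^ j) *ᵥ v = a ^ j • v := by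
  induction j with
  | zero => simp
  | succ j ih => rw [pow_succ, ← mulVec_mulVec, h, mulVec_smul, ih, smul_smul, pow_succ']

lemma eig_iff {A : Matrix (Fin 3) (Fin 3) L} {v : Fin 3 → L} {a : L} :
    (a • 1 - A) *ᵥ v = 0 ↔ A *ᵥ v = a • v := by
  rw [sub_mulVec, smul_mulVec, one_mulVec, sub_eq_zero, eq_comm]

lemma eig_ind {A : Matrix (Fin 3) (Fin 3) L} {v w : Fin 3 → L} {a b : L} (hv : v ≠ 0) (hw : w ≠ 0)
    (h1 : A *ᵥ v = a • v) (h2 : A *ᵥ w = b • w) (hab : a ≠ b) : LinearIndependent L ![v, w] := by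
  refine (LinearIndependent.pair_iff' hv).2 fun c hc => hab (smul_left_injective L hw ?_)
  simp only
  rw [← h2, ← hc, mulVec_smul, h1, smul_comm]

lemma three [IsAlgClosed L] [CharP L 2] {A : Matrix (Fin 3) (Fin 3) L} {n : ℕ} (hn : Odd n)
    {ν : L} (hν : ν ≠ 0) (hA : A ^ n = ν • 1) (hr : ∀ a : L, ¬(a • 1 - A).rank ≤ 1) :
    ∃ a b c : L, a ≠ b ∧ a ≠ c ∧ b ≠ c ∧
      ∀ x : L, (x • 1 - A).det = 0 ↔ x = a ∨ x = b ∨ x = c := by
  obtain ⟨a, b, c, h⟩ := Multiset.card_eq_three.1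
    (show A.charpoly.roots.card = 3 by rw [IsAlgClosed.card_roots_eq_natDegree]; simp)
  have hp := (IsAlgClosed.splits A.charpoly).eq_prod_roots_of_monic A.charpoly_monic
  rw [h] at hp
  simp only [Multiset.insert_eq_cons, Multiset.map_cons, Multiset.prod_cons,
    Multiset.map_singleton, Multiset.prod_singleton] at hp
  have key : ∀ x y : L, A.charpoly ≠ (X - C x) * ((X - C x) * (X - C y)) := fun x y h => by
    have h1 : Squarefree (minpoly L A) :=
      (separable_X_pow_sub_C' 2 n ν (by rwa [← even_iff_two_dvd, Nat.not_even_iff_odd])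
        hν).squarefree.squarefree_of_dvd (minpoly.dvd L A (by
          simp [hA, Algebra.algebraMap_eq_smul_one]))
    obtain ⟨g, hg⟩ := (h1.dvd_pow_iff_dvd (y := (C x - X) * (C y - X)) two_ne_zero).1
      (A.minpoly_dvd_charpoly.trans ⟨X - C y, by rw [h]; ring⟩)
    have h2 := congrArg (aeval A) hg
    simp only [map_mul, map_sub, aeval_X, aeval_C, minpoly.aeval, zero_mul,
      Algebra.algebraMap_eq_smul_one] at h2
    have h3 := rank_add_rank_le_card_of_mul_eq_zero h2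
    have := hr x
    have := hr y
    simp only [Fintype.card_fin] at h3
    omega
  refine ⟨a, b, c, ?_, ?_, ?_, fun x => ?_⟩
  · rintro rfl; exact key a c hp
  · rintro rfl; exact key a b (by rw [hp]; ring)
  · rintro rfl; exact key b a (by rw [hp]; ring)
  · have := A.eval_charpoly x
    rw [scalar_apply, ← smul_one_eq_diagonal] at this
    rw [← this, hp]
    simp [sub_eq_zero]

lemma cyc {a b c a' b' c' : L} (pa : a' = a ∨ a' = b ∨ a' = c) (pb : b' = a ∨ b' = b ∨ b' = c)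
    (pc : c' = a ∨ c' = b ∨ c' = c) (nab : a' * a ≠ b' * b ∧ (a' = a → b' ≠ b))
    (nac : a' * a ≠ c' * c ∧ (a' = a → c' ≠ c)) (nbc : b' * b ≠ c' * c ∧ (b' = b → c' ≠ c))
    (iab : a' ≠ b') (iac : a' ≠ c') (ibc : b' ≠ c') :
    (a' = b ∧ b' = c ∧ c' = a) ∨ (a' = c ∧ c' = b ∧ b' = a) := by
  rcases pa with pa | pa | pa <;> rcases pb with pb | pb | pb <;>
    rcases pc with pc | pc | pc <;> simp_all [mul_comm]

theorem big [IsAlgClosed L] [CharP L 2] {G : Type*} [Group G] [Finite G]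
    (ρ : G →* Matrix (Fin 3) (Fin 3) L) (Z : Subgroup G) (hZ : ∀ g ∈ Z, ∃ ν : L, ρ g = ν • 1)
    (hE : ∀ g, ∀ a : L, (a • 1 - ρ g).rank ≤ 1 → g ∈ Z) (r : ℕ)
    (hq : ∀ g i j, ρ g i j ^ 2 ^ r = ρ g i j) (hG : 315 < Z.index) :
    ∃ (g : G) (k : ℕ), Nat.card G ≤ 3 * k * Nat.card Z ∧ (∀ j, g ^ j ∈ Z → k ∣ j) ∧
      (1 ≤ r → 2 ^ r + 1 < k → (∀ t : L, t ^ 2 ^ r = t → (t • 1 - ρ g).det ≠ 0) ∧
        ∃ a : L, a ^ (2 ^ r) ^ 3 = a ∧ (a • 1 - ρ g).det = 0) := by
  let _ : DistribMulAction G (Fin 3 → L) :=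
    { smul := fun g v => ρ g *ᵥ v
      one_smul := fun v => show ρ 1 *ᵥ v = v by simp
      mul_smul := fun g h v => show ρ (g * h) *ᵥ v = ρ g *ᵥ ρ h *ᵥ v by simp
      smul_zero := fun g => mulVec_zero _
      smul_add := fun g => mulVec_add _ }
  have : SMulCommClass G L (Fin 3 → L) := ⟨fun g c v => mulVec_smul _ _ _⟩
  have hfix : ∀ (g : G) (v : Fin 3 → L) (hv : v ≠ 0),
      g • Projectivization.mk L v hv = Projectivization.mk L v hv ↔ ∃ a : L, ρ g *ᵥ v = a • v :=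
    fun g v hv => by
      rw [Projectivization.smul_mk, Projectivization.mk_eq_mk_iff']
      exact exists_congr fun a => eq_comm
  have hfix' : ∀ (g : G) (y : ℙ L (Fin 3 → L)), g • y = y ↔ ∃ a : L, ρ g *ᵥ y.rep = a • y.rep :=
    fun g y => by rw [← hfix g _ y.rep_nonzero, Projectivization.mk_rep]
  have hnz : ∀ (g : G) (v : Fin 3 → L) (a : L), v ≠ 0 → ρ g *ᵥ v = a • v → a ≠ 0 := by
    rintro g v a hv h rfl
    exact (smul_ne_zero_iff_ne g).2 hv (h.trans (zero_smul _ _))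
  have htwo : ∀ (g : G) (v w : Fin 3 → L) (a : L), LinearIndependent L ![v, w] →
      ρ g *ᵥ v = a • v → ρ g *ᵥ w = a • w → g ∈ Z := fun g v w a h h1 h2 =>
    hE g a (rank_le h (eig_iff.2 h1) (eig_iff.2 h2))
  obtain ⟨σ, hσ⟩ : ∃ σ, σ = toPermHom G (ℙ L (Fin 3 → L)) := ⟨_, rfl⟩
  have hσ' : ∀ g y, σ g y = g • y := fun g y => by rw [hσ]; rfl
  have h3 : ∀ (g : G) (n : ℕ), Odd n → g ^ n ∈ Z → g ∉ Z → ∃ a b c : L, a ≠ b ∧ a ≠ c ∧ b ≠ c ∧
      ∀ x : L, (x • 1 - ρ g).det = 0 ↔ x = a ∨ x = b ∨ x = c := fun g n hn h1 h2 => by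
    obtain ⟨ν, hν⟩ := hZ _ h1
    exact three hn (hnz (g ^ n) 1 ν one_ne_zero (by rw [hν, smul_mulVec, one_mulVec]))
      (by rw [← hν, map_pow]) fun a h => h2 (hE g a h)
  have hker : σ.ker = Z := by
    ext g
    rw [MonoidHom.mem_ker]
    refine ⟨fun h => ?_, fun h => Equiv.ext fun y => ?_⟩
    · have k : ∀ v : Fin 3 → L, v ≠ 0 → ∃ a : L, ρ g *ᵥ v = a • v := fun v hv =>
        (hfix g v hv).1 (by rw [← hσ', h]; rfl)
      obtain ⟨a, ha⟩ := k ![1, 0, 0] (by simp)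
      obtain ⟨b, hb⟩ := k ![0, 1, 0] (by simp)
      obtain ⟨c, hc⟩ := k (![1, 0, 0] + ![0, 1, 0]) (by simp)
      rw [mulVec_add, ha, hb] at hc
      have h0 := congrFun hc 0
      have h1 := congrFun hc 1
      simp at h0 h1
      refine htwo g _ _ c (LinearIndependent.pair_iff.2 fun s t h => ?_) (h0 ▸ ha) (h1 ▸ hb)
      exact ⟨by simpa using congrFun h 0, by simpa using congrFun h 1⟩
    · obtain ⟨ν, hν⟩ := hZ g h
      exact (hσ' g y).trans ((hfix' g y).2 ⟨ν, by rw [hν, smul_mulVec, one_mulVec]⟩)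
  have hP : Nat.card σ.range = Z.index := by rw [← hker, Subgroup.index_ker]
  have : Finite σ.range := Nat.finite_of_card_ne_zero (by omega)
  have hmem : ∀ (g : G) (n : ℕ), σ.rangeRestrict g ^ n = 1 ↔ g ^ n ∈ Z := fun g n => by
    rw [← map_pow, ← hker, ← σ.ker_rangeRestrict, MonoidHom.mem_ker]
  have hodd : Odd (Nat.card σ.range) := by
    by_contra h
    obtain ⟨x, hx⟩ := exists_prime_orderOf_dvd_card' 2
      (even_iff_two_dvd.1 (Nat.not_odd_iff_even.1 h))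
    obtain ⟨g, rfl⟩ := σ.rangeRestrict_surjective x
    obtain ⟨ν, hν⟩ := hZ _ ((hmem g 2).1 (hx ▸ pow_orderOf_eq_one _))
    obtain ⟨a, rfl⟩ := IsAlgClosed.exists_pow_nat_eq ν two_pos
    have h1 : (a • 1 - ρ g) * (a • 1 - ρ g) = 0 := by
      rw [map_pow, sq] at hν
      simp only [sub_mul, mul_sub, smul_mul_assoc, mul_smul_comm, one_mul, mul_one, hν]
      ext i j
      simp only [Matrix.sub_apply, Matrix.smul_apply, smul_eq_mul, Matrix.zero_apply]
      grind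
    have h2 := rank_add_rank_le_card_of_mul_eq_zero h1
    simp only [Fintype.card_fin] at h2
    have h3 := (hmem g 1).2 (by rw [pow_one]; exact hE g a (by omega))
    rw [pow_one] at h3
    simp [h3] at hx
  have h3' : ∀ g : G, g ∉ Z → _ := fun g => h3 g _ hodd ((hmem g _).1 pow_card_eq_one')
  obtain ⟨H, hH, y, z, hyz, hf⟩ := klein (Ω := ℙ L (Fin 3 → L)) hodd (hP ▸ hG) fun x hx => by
    obtain ⟨g, rfl⟩ := σ.rangeRestrict_surjective x
    have hg : g ∉ Z := fun h => hx (by simpa using (hmem g 1).2 (by simpa using h))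
    obtain ⟨a, b, c, hab, hac, hbc, h⟩ := h3' g hg
    have ex : ∀ x, x = a ∨ x = b ∨ x = c → ∃ y : ℙ L (Fin 3 → L), ρ g *ᵥ y.rep = x • y.rep :=
      fun x hx => by
        obtain ⟨v, hv, h1⟩ := exists_mulVec_eq_zero_iff.2 ((h x).2 hx)
        obtain ⟨u, hu⟩ := Projectivization.exists_smul_eq_mk_rep L v hv
        refine ⟨Projectivization.mk L v hv, ?_⟩
        rw [← hu, Units.smul_def, mulVec_smul, eig_iff.1 h1, smul_comm]
    have ne : ∀ (x x' : L) (y y' : ℙ L (Fin 3 → L)), x ≠ x' → ρ g *ᵥ y.rep = x • y.rep →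
        ρ g *ᵥ y'.rep = x' • y'.rep → y ≠ y' := by
      rintro x x' y _ h h1 h2 rfl
      exact h (smul_left_injective L y.rep_nonzero (h1.symm.trans h2))
    have eq : ∀ (x : L) (y y' : ℙ L (Fin 3 → L)), ρ g *ᵥ y.rep = x • y.rep →
        ρ g *ᵥ y'.rep = x • y'.rep → y = y' := fun x y y' h1 h2 => by
      by_contra h
      exact hg (htwo g _ _ x (Projectivization.linearIndependent_pair_iff_ne.2 h) h1 h2)
    obtain ⟨ya, ha⟩ := ex a (by simp)
    obtain ⟨yb, hb⟩ := ex b (by simp)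
    obtain ⟨yc, hc⟩ := ex c (by simp)
    refine Set.ncard_eq_three.2 ⟨ya, yb, yc, ne _ _ _ _ hab ha hb, ne _ _ _ _ hac ha hc,
      ne _ _ _ _ hbc hb hc, Set.ext fun y => ?_⟩
    refine (show σ g y = y ↔ ∃ a : L, ρ g *ᵥ y.rep = a • y.rep by rw [hσ', hfix']).trans
      ⟨fun ⟨x, hx⟩ => ?_, ?_⟩
    · rcases (h x).1 (exists_mulVec_eq_zero_iff.1 ⟨_, y.rep_nonzero, eig_iff.2 hx⟩) with
        rfl | rfl | rfl
      · exact .inl (eq _ _ _ hx ha)
      · exact .inr (.inl (eq _ _ _ hx hb))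
      · exact .inr (.inr (eq _ _ _ hx hc))
    · rintro (rfl | rfl | rfl) <;> exact ⟨_, by assumption⟩
  obtain ⟨H', hH'⟩ : ∃ H', H' = H.comap σ.rangeRestrict := ⟨_, rfl⟩
  have hi : H'.index ≤ 3 := by
    rw [hH', Subgroup.index_comap_of_surjective _ σ.rangeRestrict_surjective]
    rw [← H.index_mul_card] at hH
    exact Nat.le_of_mul_le_mul_right hH Nat.card_pos
  have hf' : ∀ g : H', (g : G) • y = y ∧ (g : G) • z = z := fun g => by
    rw [← hσ', ← hσ']; exact hf (σ.rangeRestrict g) (hH'.le g.2)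
  choose l hl using fun g : H' => (hfix' _ _).1 (hf' g).1
  choose m hm using fun g : H' => (hfix' _ _).1 (hf' g).2
  have mul : ∀ (v : Fin 3 → L) (l : H' → L), v ≠ 0 → (∀ g : H', ρ g *ᵥ v = l g • v) →
      ∀ g h, l (g * h) = l g * l h := fun v l hv hl g h => smul_left_injective L hv (by
    simp only
    rw [← hl, Subgroup.coe_mul, map_mul, ← mulVec_mulVec, hl, mulVec_smul, hl, smul_smul,
      mul_comm])
  have l0 := fun g : H' => hnz _ _ _ y.rep_nonzero (hl g)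
  have m0 := fun g : H' => hnz _ _ _ z.rep_nonzero (hm g)
  let θ : H' →* Lˣ := MonoidHom.mk' (fun g => Units.mk0 (l g / m g) (div_ne_zero (l0 g) (m0 g)))
    fun g h => Units.ext (by
      simp only [Units.val_mk0, Units.val_mul, mul _ l y.rep_nonzero hl, mul _ m z.rep_nonzero hm,
        mul_div_mul_comm])
  have hθ : ∀ g : H', θ g = 1 ↔ (g : G) ∈ Z := fun g => by
    rw [← Units.val_eq_one, show (θ g : L) = l g / m g from rfl, div_eq_one_iff_eq (m0 g)]
    refine ⟨fun h => htwo g _ _ (m g) (Projectivization.linearIndependent_pair_iff_ne.2 hyz)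
      (h ▸ hl g) (hm g), fun h => ?_⟩
    obtain ⟨ν, hν⟩ := hZ _ h
    have h1 := hl g
    have h2 := hm g
    rw [hν, smul_mulVec, one_mulVec] at h1 h2
    exact (smul_left_injective L y.rep_nonzero h1).symm.trans
      (smul_left_injective L z.rep_nonzero h2)
  have : Finite θ.range := Finite.of_surjective _ θ.rangeRestrict_surjective
  obtain ⟨x, hx⟩ := IsCyclic.exists_ofOrder_eq_natCard (α := θ.range)
  obtain ⟨g, rfl⟩ := θ.rangeRestrict_surjective x
  have hk : ∀ j, (g : G) ^ j ∈ Z → Nat.card θ.range ∣ j := fun j hj => by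
    rw [← hx, orderOf_dvd_iff_pow_eq_one, ← map_pow]
    exact Subtype.ext ((hθ (g ^ j)).2 hj)
  refine ⟨g, Nat.card θ.range, ?_, hk, fun hr hlt => ?_⟩
  · rw [← H'.index_mul_card, ← θ.ker.index_mul_card, Subgroup.index_ker, mul_assoc]
    refine Nat.mul_le_mul hi (Nat.mul_le_mul_left _ (Nat.card_le_card_of_injective
      (fun u => ⟨u.1.1, (hθ _).1 u.2⟩) fun u v h => ?_))
    exact Subtype.ext (Subtype.ext (congrArg (Subtype.val : Z → G) h))
  have h2 : 2 ≤ 2 ^ r := Nat.le_self_pow (by omega) 2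
  obtain ⟨a, b, c, hab, hac, hbc, h⟩ := h3' g fun h => by
    have := Nat.le_of_dvd one_pos (hk 1 (by simpa using h))
    omega
  have hφ : ∀ x, x = a ∨ x = b ∨ x = c → x ^ 2 ^ r = a ∨ x ^ 2 ^ r = b ∨ x ^ 2 ^ r = c :=
    fun x hx => (h _).1 (by
      have := congrArg (iterateFrobenius L 2 r) ((h x).2 hx)
      rw [RingHom.map_det, map_zero] at this
      rw [← this]
      congr 1
      ext i j
      simp [iterateFrobenius_def, hq, Matrix.one_apply, sub_pow_char_pow, apply_ite (· ^ 2 ^ r)])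
  have inj : ∀ x y : L, x ^ 2 ^ r = y ^ 2 ^ r → x = y := (iterateFrobenius L 2 r).injective
  have ne : ∀ x x' : L, x = a ∨ x = b ∨ x = c → x' = a ∨ x' = b ∨ x' = c → x ≠ x' →
      x ^ 2 ^ r * x ≠ x' ^ 2 ^ r * x' ∧ (x ^ 2 ^ r = x → x' ^ 2 ^ r ≠ x') := by
    intro x x' hx hx' hne
    obtain ⟨v, hv, h1⟩ := exists_mulVec_eq_zero_iff.2 ((h x).2 hx)
    obtain ⟨w, hw, h2⟩ := exists_mulVec_eq_zero_iff.2 ((h x').2 hx')
    rw [eig_iff] at h1 h2
    have k : ∀ j, 0 < j → j ≤ 2 ^ r + 1 → x ^ j ≠ x' ^ j := fun j j0 j1 e => by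
      have := Nat.le_of_dvd j0 (hk j (htwo _ v w (x ^ j) (eig_ind hv hw h1 h2 hne)
        (by rw [map_pow, eig_pow h1]) (by rw [map_pow, eig_pow h2, e])))
      omega
    refine ⟨by simpa [pow_succ] using k (2 ^ r + 1) (by omega) le_rfl, fun e e' => ?_⟩
    have p : ∀ t : L, t ≠ 0 → t ^ 2 ^ r = t → t ^ (2 ^ r - 1) = 1 := fun t h0 h =>
      mul_right_cancel₀ h0 (by rw [← pow_succ, Nat.sub_add_cancel (by omega), h, one_mul])
    exact k (2 ^ r - 1) (by omega) (by omega)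
      (by rw [p x (hnz _ _ _ hv h1) e, p x' (hnz _ _ _ hw h2) e'])
  have e3 : a ^ (2 ^ r) ^ 3 = ((a ^ 2 ^ r) ^ 2 ^ r) ^ 2 ^ r := by
    rw [← pow_mul a, ← pow_mul a]; congr 1; ring
  have fin := cyc (hφ a (by simp)) (hφ b (by simp)) (hφ c (by simp))
    (ne a b (by simp) (by simp) hab) (ne a c (by simp) (by simp) hac)
    (ne b c (by simp) (by simp) hbc) (mt (inj a b) hab) (mt (inj a c) hac) (mt (inj b c) hbc)
  refine ⟨fun t ht h0 => ?_, a, ?_, (h a).2 (by simp)⟩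
  · rcases (h t).1 h0 with rfl | rfl | rfl <;> rcases fin with ⟨h1, h2, h3⟩ | ⟨h1, h2, h3⟩
    exacts [hab (ht.symm.trans h1), hac (ht.symm.trans h1), hbc (ht.symm.trans h2),
      hab (h3.symm.trans ht), hac (h3.symm.trans ht), hbc (h2.symm.trans ht)]
  · rcases fin with ⟨h1, h2, h3⟩ | ⟨h1, h2, h3⟩ <;> rw [e3, h1, h2, h3]

end Pool.Agent.MP_9c0e17_co.Sym
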