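import Pool.Agent.MP_9c0e17_co.SymT
import Pool.Agent.MP_9c0e17_co.SymM

/- Hyperovals with a large linear stabiliser. -/

set_option autoImplicit false
set_option linter.unusedSectionVars false

namespace Pool.Agent.MP_9c0e17_co.Sym
open IsLocalRing Matrix

lemma arith {q k d : ℕ} (hq : 32 ≤ q) (h1 : 7 ^ 4 * q ^ 7 ≤ (3 * k) ^ 4)
    (h2 : d * k ≤ q ^ 2 + q + 1) : (5 * (d ^ 2 - 1)) ^ 2 < q := by
  by_contra h
  have h3 : q ≤ (5 * d ^ 2) ^ 2 :=
    (not_lt.1 h).trans (Nat.pow_le_pow_left (Nat.mul_le_mul_left 5 (Nat.sub_le _ _)) 2)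
  have h4 := Nat.mul_le_mul h1 h3
  have h5 := Nat.pow_le_pow_left (show 1024 * (d * k) ≤ 1057 * q ^ 2 by nlinarith) 4
  have h6 : 0 < q ^ 8 := by positivity
  have e1 : 7 ^ 4 * q ^ 7 * q = 2401 * q ^ 8 := by ring
  have e2 : (3 * k) ^ 4 * (5 * d ^ 2) ^ 2 = 2025 * (d * k) ^ 4 := by ring
  have e3 : (1024 * (d * k)) ^ 4 = 1024 ^ 4 * (d * k) ^ 4 := by ring
  have e4 : (1057 * q ^ 2) ^ 4 = 1057 ^ 4 * q ^ 8 := by ring
  rw [e1, e2] at h4
  rw [e3, e4] at h5
  omega

lemma arith2 {q k : ℕ} (hq : 32 ≤ q) (h1 : 7 ^ 4 * q ^ 7 ≤ k ^ 4) : 3 * (q + 1) < k ∧ 315 < k := by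
  have h : 10 * q < k := by
    by_contra h
    have h2 := h1.trans (Nat.pow_le_pow_left (not_lt.1 h) 4)
    have h3 : 32 ^ 3 * q ^ 4 ≤ q ^ 3 * q ^ 4 := Nat.mul_le_mul_right _ (Nat.pow_le_pow_left hq 3)
    have h4 : 0 < q ^ 4 := by positivity
    have e1 : q ^ 3 * q ^ 4 = q ^ 7 := by ring
    have e2 : (10 * q) ^ 4 = 10000 * q ^ 4 := by ring
    omega
  omega

variable {R : Type*} [CommRing R] [Fintype R] [IsLocalRing R] {r : ℕ} {K : Set (Fin 3 → R)}
  {φ : (Fin 3 → ResidueField R) → Fin 3 → ResidueField R}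

theorem singer (D : Dat r K φ) (hr : 5 ≤ r) {M : Matrix (Fin 3) (Fin 3) R}
    (hM : ∀ x ∈ K, M *ᵥ x ∈ K) {k : ℕ} (hk : 7 ^ 4 * (2 ^ r) ^ 7 ≤ (3 * k) ^ 4)
    (hj : ∀ j (t : ResidueField R), (M ^ j).map (residue R) = t • 1 → k ∣ j)
    (h0 : ∀ t : ResidueField R, (t • 1 - M.map (residue R)).det ≠ 0)
    {T : Type*} [CommRing T] [IsLocalRing T] [Algebra R T] [IsLocalHom (algebraMap R T)]
    [Fintype (ResidueField R)] [Fintype (ResidueField T)] (G' : Gal T)
    (b : Module.Basis (Fin 3) R T) (hQ : Fintype.card (ResidueField T) = 8 ^ r)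
    (h3 : Module.finrank (ResidueField R) (ResidueField T) = 3) {a : ResidueField T}
    (ha : (a • 1 - (M.map (residue R)).map (algebraMap _ (ResidueField T))).det = 0) :
    ∃ M : Matrix (Fin 3) (Fin 3) R, IsUnit M.det ∧ K = M.mulVec ''
      {y | ∃ (u : Rˣ) (x : T), x ^ (8 ^ r - 1) = 1 ∧ y = b.equivFun ((u : R) • x)} := by
  have G := D.G
  have := G.charP
  have := G'.charP
  have hq := Nat.card_eq_fintype_card.symm.trans D.hq
  have ha' : ∀ t, a ≠ algebraMap (ResidueField R) _ t := by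
    rintro t rfl
    exact h0 t ((map_eq_zero _).1 ((det_map _ _ t).trans ha))
  have eM : (M.map (algebraMap R T)).map (residue T) =
      (M.map (residue R)).map (algebraMap _ (ResidueField T)) := by
    ext i j; simp
  obtain ⟨μ, l, rfl, h1, h2⟩ := lift G' (M.map (algebraMap R T)) (by rw [eM]; exact ha)
    (by rw [eM]; exact adj_ne _ ha')
  have h4 := indep _ h0 ha' h2 (funext fun j => by
    simpa [vecMul, dotProduct] using congrArg (residue T) (congrFun h1 j))
  have hΛ : ∀ (c : T) (y : Fin 3 → R), Fintype.linearCombination R (c • l) y =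
      c * (l ⬝ᵥ fun i => algebraMap R T (y i)) := fun c y => by
    simp [Fintype.linearCombination_apply, Fin.sum_univ_three, dotProduct, Algebra.smul_def]
    ring
  have h5 : ∀ y : Fin 3 → R, residue T (l ⬝ᵥ fun i => algebraMap R T (y i)) = 0 →
      ∀ i, residue R (y i) = 0 := fun y hy => congrFun (h4 (fun i => residue R (y i)) (by
    simpa [dt, dotProduct, Fin.sum_univ_three] using hy))
  obtain ⟨x0, hx0, hr0⟩ := D.H.surj G D.hq 1 one_ne_zero
  obtain ⟨s, hs⟩ := (residue_ne_zero_iff_isUnit _).1 fun h =>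
    one_ne_zero ((hr0 0).symm.trans (h5 x0 h 0))
  obtain ⟨Λ, hΛ'⟩ : ∃ Λ : (Fin 3 → R) →ₗ[R] T, ∀ y, Λ y =
      (s⁻¹ : Tˣ) * (l ⬝ᵥ fun i => algebraMap R T (y i)) := ⟨_, hΛ _⟩
  have e0 : Λ x0 = 1 := by rw [hΛ', ← hs, s.inv_mul]
  have e1 : ∀ y, Λ (M *ᵥ y) = μ * Λ y := fun y => by
    have k := fun j => congrFun h1 j
    simp only [hΛ', vecMul, mulVec, dotProduct, Fin.sum_univ_three, map_apply, Pi.smul_apply,
      smul_eq_mul, map_add, map_mul] at k ⊢
    linear_combination ((s⁻¹ : Tˣ) : T) * (algebraMap R T (y 0) * k 0 +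
      algebraMap R T (y 1) * k 1 + algebraMap R T (y 2) * k 2)
  have e2 : ∀ j y, Λ ((M ^ j) *ᵥ y) = μ ^ j * Λ y := fun j y => by
    induction j with
    | zero => simp
    | succ j ih => rw [pow_succ', ← mulVec_mulVec, e1, ih, pow_succ', mul_assoc]
  have e3 : ∀ j, ∀ x ∈ K, (M ^ j) *ᵥ x ∈ K := fun j x hx => by
    induction j with
    | zero => simpa
    | succ j ih => rw [pow_succ', ← mulVec_mulVec]; exact hM _ ih
  have hl : ∀ y, residue T (Λ y) = 0 → ∀ i, residue R (y i) = 0 := fun y hy => h5 y (by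
    rw [hΛ', map_mul] at hy
    exact (mul_eq_zero.1 hy).resolve_left ((residue_ne_zero_iff_isUnit _).2 (Units.isUnit _)))
  obtain ⟨m, hm⟩ : ∃ m : (ResidueField T)ˣ, m = residue T μ :=
    ⟨Units.mk0 _ fun h => ha' 0 (by rw [h, map_zero]), rfl⟩
  obtain ⟨A, hA⟩ : ∃ A, A = (Units.map
    (algebraMap (ResidueField R) (ResidueField T)).toMonoidHom).range := ⟨_, rfl⟩
  refine model D G' b hQ h3 Λ hl (A ⊔ Subgroup.zpowers m) (fun p hp => ?_) ?_
  · obtain ⟨_, hc, _, hj, rfl⟩ := Subgroup.mem_sup.1 hp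
    rw [hA] at hc
    obtain ⟨c, rfl⟩ := hc
    obtain ⟨j, rfl⟩ := mem_powers_iff_mem_zpowers.2 hj
    obtain ⟨c', hc'⟩ := residue_surjective (c : ResidueField R)
    have hu : IsUnit c' := by rw [← residue_ne_zero_iff_isUnit, hc']; exact c.ne_zero
    refine ⟨_, D.H.h2 _ (e3 (j * 2) x0 hx0) (hu.unit ^ 2), ?_⟩
    rw [map_smul, e2, e0, show ((Units.map (algebraMap (ResidueField R)
      (ResidueField T)).toMonoidHom c * (fun n => m ^ n) j : (ResidueField T)ˣ) : ResidueField T) =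
      residue T (algebraMap R T c' * μ ^ j) by
        simp [← ResidueField.algebraMap_residue, hc', hm], G'.sq_res, Algebra.smul_def]
    simp only [Units.val_pow_eq_pow_val, IsUnit.unit_spec, map_pow]
    ring
  · have h32 : 2 ^ 5 ≤ 2 ^ r := Nat.pow_le_pow_right (by norm_num) hr
    rw [hq]
    refine arith h32 hk ((index_le le_sup_left (Subgroup.mem_sup_right (Subgroup.mem_zpowers m))
      fun j hj' => ?_).trans_eq ?_)
    · rw [hA] at hj'
      obtain ⟨c, hc⟩ := hj'
      obtain ⟨c', hc'⟩ := residue_surjective (c : ResidueField R)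
      refine hj j c (Matrix.ext fun i n => ?_)
      have k1 : residue T μ ^ j = residue T (algebraMap R T c') := by
        rw [← hm, ← Units.val_pow_eq_pow_val, ← hc, ← ResidueField.algebraMap_residue, hc']; rfl
      have k2 := hl ((M ^ j) *ᵥ Pi.single n 1 - c' • Pi.single n 1) (by
        rw [map_sub, e2, map_smul, Algebra.smul_def, map_sub, map_mul, map_mul, map_pow, k1,
          sub_self]) i
      simpa [sub_eq_zero, hc', one_apply, Pi.single_apply, apply_ite (residue R)] using k2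
    · have k1 := A.index_mul_card
      rw [hA, ← Nat.card_congr (MonoidHom.ofInjective (Units.map_injective
        (algebraMap (ResidueField R) (ResidueField T)).injective)).toEquiv, ← hA, Nat.card_units,
        Nat.card_units, D.hq, Nat.card_eq_fintype_card, hQ,
        show 8 ^ r = (2 ^ r) ^ 3 by rw [← pow_mul, pow_mul']; rfl] at k1
      obtain ⟨p, hp⟩ : ∃ p, 2 ^ r = p + 1 := ⟨2 ^ r - 1, by omega⟩
      rw [hp] at k1 h32 ⊢
      refine Nat.eq_of_mul_eq_mul_right (show 0 < p by omega) (k1.trans ?_)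
      rw [Nat.sub_eq_iff_eq_add (Nat.one_le_pow _ _ (by omega))]; ring

theorem large (D : Dat r K φ) (hr : 5 ≤ r) (h : 7 ^ 4 * (2 ^ r) ^ 7 * Nat.card Rˣ ^ 4 ≤
      {M : Matrix (Fin 3) (Fin 3) R | IsUnit M.det ∧ M.mulVec '' K = K}.ncard ^ 4)
    (T : Type*) [CommRing T] [IsLocalRing T] [Algebra R T]
    (hT : maximalIdeal T = Ideal.span {(2 : T)}) (b : Module.Basis (Fin 3) R T) :
    ∃ M : Matrix (Fin 3) (Fin 3) R, IsUnit M.det ∧ K = M.mulVec ''
      {y | ∃ (u : Rˣ) (x : T), x ^ (8 ^ r - 1) = 1 ∧ y = b.equivFun ((u : R) • x)} := by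
  classical
  have G := D.G
  have := G.charP
  have : Finite (ResidueField R) := Finite.of_surjective _ residue_surjective
  have := Fintype.ofFinite (ResidueField R)
  have G' : Gal T := ⟨hT, by rw [← map_ofNat (algebraMap R T), G.h4, map_zero], fun h => by
    have : (2 : R) • b 0 = 0 := by rw [Algebra.smul_def, map_ofNat, h, zero_mul]
    exact G.h2 (by simpa using congrArg (b.repr · 0) this)⟩
  have := G'.charP
  have : IsLocalHom (algebraMap R T) := ⟨fun x hx => by
    by_contra h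
    obtain ⟨y, rfl⟩ := G.not_unit h
    rw [← residue_ne_zero_iff_isUnit] at hx
    simp [map_ofNat (algebraMap R T), G'.res_two] at hx⟩
  have : Finite T := Finite.of_equiv _ b.equivFun.toEquiv.symm
  have : Finite (ResidueField T) := Finite.of_surjective _ residue_surjective
  have hE : Nat.card (ResidueField T) = (2 ^ r) ^ 3 := by
    have h := G'.card_eq
    rw [Nat.card_congr b.equivFun.toEquiv, Nat.card_fun, G.card_eq, D.hq, Nat.card_fin,
      ← pow_mul, mul_comm, pow_mul] at h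
    exact (Nat.pow_left_injective two_ne_zero h).symm
  have hE3 : Module.finrank (ResidueField R) (ResidueField T) = 3 := by
    have : Module.Finite (ResidueField R) (ResidueField T) := Module.Finite.of_finite
    have h := Module.natCard_eq_pow_finrank (K := ResidueField R) (V := ResidueField T)
    rw [hE, D.hq] at h
    exact (Nat.pow_right_injective (two_le_pow D.hr) h).symm
  have := Fintype.ofFinite (ResidueField T)
  have hQ : Fintype.card (ResidueField T) = 8 ^ r := by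
    rw [← Nat.card_eq_fintype_card, hE, ← pow_mul, pow_mul']; rfl
  have hq := Nat.card_eq_fintype_card.symm.trans D.hq
  have h32 : 2 ^ 5 ≤ 2 ^ r := Nat.pow_le_pow_right (by norm_num) hr
  let S : Subgroup (Matrix (Fin 3) (Fin 3) R)ˣ :=
    { carrier := {g | g.1.mulVec '' K = K}
      mul_mem' := fun {g g'} h1 h2 => by
        refine Eq.trans ?_ ((congrArg _ h2).trans h1)
        simp only [Set.image_image, Units.val_mul, mulVec_mulVec]
      one_mem' := by simp
      inv_mem' := fun {g} h1 => by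
        refine (congrArg _ h1.symm).trans ?_
        simp only [Set.image_image, mulVec_mulVec, Units.inv_mul, one_mulVec, Set.image_id'] }
  have hS : ∀ g : S, ∀ x ∈ K, g.1.1 *ᵥ x ∈ K := fun g x hx => g.2.le ⟨x, hx, rfl⟩
  have hc : {M : Matrix (Fin 3) (Fin 3) R | IsUnit M.det ∧ M.mulVec '' K = K}.ncard =
      Nat.card S := by
    rw [← SetLike.coe_sort_coe, Nat.card_coe_set_eq,
      ← Set.ncard_image_of_injective _ Units.val_injective]
    congr 1
    ext M
    exact ⟨fun h => ⟨((isUnit_iff_isUnit_det M).2 h.1).unit, h.2, rfl⟩,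
      fun ⟨g, h1, h2⟩ => h2 ▸ ⟨(isUnit_iff_isUnit_det _).1 g.isUnit, h1⟩⟩
  obtain ⟨Z, hZ⟩ : ∃ Z : Subgroup S, ∀ g, g ∈ Z ↔ ∃ u : Rˣ, g.1.1 = (u : R) • 1 :=
    ⟨(Units.map (algebraMap R (Matrix (Fin 3) (Fin 3) R)).toMonoidHom).range.subgroupOf S,
      fun g => exists_congr fun u => by
        rw [Units.ext_iff, ← Algebra.algebraMap_eq_smul_one]; exact eq_comm⟩
  have hZc : Nat.card Z ≤ Nat.card Rˣ := by
    choose u hu using fun g : Z => (hZ g).1 g.2
    exact Nat.card_le_card_of_injective u fun g g' h =>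
      Subtype.ext (Subtype.ext (Units.ext (by rw [hu, hu, h])))
  have hdet : ∀ g : S, (g.1.1.map (residue R)).det ≠ 0 := fun g => by
    have := (residue_ne_zero_iff_isUnit _).2 ((isUnit_iff_isUnit_det _).1 g.1.isUnit)
    rwa [RingHom.map_det] at this
  have hn : ∀ n, Nat.card S ≤ n * Nat.card Z → 7 ^ 4 * (2 ^ r) ^ 7 ≤ n ^ 4 := fun n hn => by
    rw [hc] at h
    have := h.trans (Nat.pow_le_pow_left (hn.trans (Nat.mul_le_mul_left n hZc)) 4)
    rw [mul_pow] at this
    exact Nat.le_of_mul_le_mul_right this (pow_pos Nat.card_pos 4)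
  obtain ⟨f, hf⟩ : ∃ f, f = (algebraMap (ResidueField T) (AlgebraicClosure (ResidueField T))).comp
    (algebraMap (ResidueField R) (ResidueField T)) := ⟨_, rfl⟩
  have hfq : ∀ t, f t ^ 2 ^ r = f t := fun t => by rw [← map_pow, ← hq, FiniteField.pow_card]
  obtain ⟨g, k, k1, k2, k3⟩ := big ((f.comp (residue R)).mapMatrix.toMonoidHom.comp
    ((Units.coeHom _).comp S.subtype)) Z (fun g hg => by
      obtain ⟨u, hu⟩ := (hZ g).1 hg
      refine ⟨f (residue R u), Matrix.ext fun i j => ?_⟩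
      simp [hu, one_apply, apply_ite (residue R), apply_ite f]) (fun g a ha => by
      obtain ⟨ν, hν, c, a, h⟩ := rk1 f (hdet g) ha
      exact (hZ g).2 (scal D (by omega) (hS g) hν h)) r (fun g i j => hfq _)
    (arith2 h32 (hn _ Z.index_mul_card.ge)).2
  have k4 := hn _ k1
  obtain ⟨k5, a, k6, k7⟩ := k3 (by omega) (by have := (arith2 h32 k4).1; omega)
  obtain ⟨a, rfl⟩ := in_range (F := ResidueField T) (a := a) (by
    rwa [← Nat.card_eq_fintype_card, hE])
  refine singer D hr (hS g) k4 (fun j t ht => k2 j ((hZ _).2 (scal D (by omega) (hS _) (ν := t)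
    (c := 0) (a := 0) ?_ (by simpa using ht)))) (fun t ht => k5 (f t) (hfq t) ?_) G' b hQ hE3
    (a := a) ?_
  · rintro rfl
    exact hdet (g ^ j) (by simpa using congrArg det ht)
  · exact (det_map f (g.1.1.map (residue R)) t).symm.trans (by rw [ht, map_zero])
  · subst hf
    exact (map_eq_zero _).1 ((det_map _ _ a).trans k7)

end Pool.Agent.MP_9c0e17_co.Sym
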