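import Mathlib

/- Orbit counting for groups of odd order whose elements fix three points. -/

set_option autoImplicit false

namespace Pool.Agent.MP_9c0e17_co.Sym
open MulAction Finset

lemma arith4 {g a b c d : ℕ} (h : a + b + c + d = g + 3)
    (ha : 3 * a = g ∨ 5 * a = g ∨ 7 * a = g ∨ 9 * a ≤ g)
    (hb : 3 * b = g ∨ 5 * b = g ∨ 7 * b = g ∨ 9 * b ≤ g)
    (hc : 3 * c = g ∨ 5 * c = g ∨ 7 * c = g ∨ 9 * c ≤ g)
    (hd : 3 * d = g ∨ 5 * d = g ∨ 7 * d = g ∨ 9 * d ≤ g) (hg : 315 < g) :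
    a = 3 ∨ b = 3 ∨ c = 3 ∨ d = 3 := by
  rcases ha with ha | ha | ha | ha <;> rcases hb with hb | hb | hb | hb <;>
    rcases hc with hc | hc | hc | hc <;> rcases hd with hd | hd | hd | hd <;> omega

variable {G Ω : Type*} [Group G] [Finite G] [MulAction G Ω]

lemma klein1 (hodd : Odd (Nat.card G)) (hn : Nat.card G ≠ 1)
    (hfix : ∀ g : G, g ≠ 1 → (fixedBy Ω g).ncard = 3) :
    (∀ y : Ω, (∃ g : G, g ≠ 1 ∧ g • y = y) → ∀ h : G, h • y = y) ∨
    ((∀ y : Ω, ∃ h : G, h • y ≠ y) ∧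
      (Nat.card G ≤ 315 ∨ ∃ y : Ω, Nat.card G ≤ 3 * Nat.card (stabilizer G y))) := by
  classical
  let Y : SubMulAction G Ω := ⟨{y | ∃ g : G, g ≠ 1 ∧ g • y = y}, by
    rintro c y ⟨g, h1, h2⟩
    exact ⟨c * g * c⁻¹, by simpa [mul_inv_eq_one] using h1, by simp [mul_smul, h2]⟩⟩
  have hY : Finite Y := Set.Finite.subset (Set.finite_iUnion fun g : {g : G // g ≠ 1} =>
    Set.finite_of_ncard_ne_zero (s := fixedBy Ω g.1) (by rw [hfix g.1 g.2]; omega))
    fun y ⟨g, h1, h2⟩ => Set.mem_iUnion.2 ⟨⟨g, h1⟩, h2⟩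
  have := Fintype.ofFinite G
  have := Fintype.ofFinite Y
  have := Fintype.ofFinite (orbitRel.Quotient G Y)
  have hB := sum_card_fixedBy_eq_card_orbits_mul_card_group G Y
  rw [← add_sum_erase _ _ (mem_univ 1), sum_congr rfl (g := fun _ => 3) (fun g hg => by
    rw [← hfix g (mem_erase.1 hg).1, ← Nat.card_eq_fintype_card, Nat.card_coe_set_eq,
      ← Set.ncard_image_of_injective _ (Subtype.val_injective (p := (· ∈ Y)))]
    congr 1
    ext y
    exact ⟨fun ⟨z, h1, h2⟩ => h2 ▸ congrArg Subtype.val h1,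
      fun h => ⟨⟨y, g, (mem_erase.1 hg).1, h⟩, Subtype.ext h, rfl⟩⟩), sum_const,
    card_erase_of_mem (mem_univ _), card_univ, smul_eq_mul] at hB
  simp only [← Nat.card_eq_fintype_card, fixedBy_one_eq_univ, Nat.card_univ] at hB
  rw [Nat.card_congr (selfEquivSigmaOrbits' G Y), Nat.card_sigma] at hB
  have hos : ∀ y : Y, Nat.card (orbit G y) * Nat.card (stabilizer G (y : Ω)) = Nat.card G :=
    fun y => by
      rw [← Nat.card_prod, ← SubMulAction.stabilizer_of_subMul]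
      exact Nat.card_congr (orbitProdStabilizerEquivGroup G y)
  obtain ⟨g, hg⟩ : ∃ g, g = Nat.card G := ⟨_, rfl⟩
  have hP : ∀ ω : orbitRel.Quotient G Y, 1 ≤ Nat.card ω.orbit ∧ (3 * Nat.card ω.orbit = g ∨
      5 * Nat.card ω.orbit = g ∨ 7 * Nat.card ω.orbit = g ∨ 9 * Nat.card ω.orbit ≤ g) := by
    rintro ⟨y⟩
    have h1 := hos y
    have h2 : Odd (Nat.card (stabilizer G (y : Ω))) := hodd.of_dvd_nat (Dvd.intro_left _ h1)
    have h3 : Nat.card (stabilizer G (y : Ω)) ≠ 1 := fun h => by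
      obtain ⟨g, h1, h2⟩ := y.2
      have h4 : g ∈ stabilizer G (y : Ω) := h2
      rw [Subgroup.card_eq_one.1 h] at h4
      exact h1 h4
    change 1 ≤ Nat.card (orbit G y) ∧ (3 * Nat.card (orbit G y) = g ∨
      5 * Nat.card (orbit G y) = g ∨ 7 * Nat.card (orbit G y) = g ∨ 9 * Nat.card (orbit G y) ≤ g)
    have h0 : 0 < Nat.card G := Nat.card_pos
    rw [← hg] at h1 h0
    generalize Nat.card (orbit G y) = o at *
    obtain ⟨k, hk⟩ := h2
    rw [hk] at h1 h3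
    refine ⟨Nat.pos_of_ne_zero (by rintro rfl; omega), ?_⟩
    rcases k with _ | _ | _ | _ | k
    · omega
    · omega
    · omega
    · omega
    · have : o * (2 * (k + 1 + 1 + 1 + 1) + 1) = 2 * (o * k) + 9 * o := by ring
      omega
  have h1 : ∀ y : Y, Nat.card (orbit G y) = 1 ↔ ∀ h : G, h • (y : Ω) = y := fun y => by
    have h := hos y
    constructor
    · intro h1 c
      rw [h1, one_mul, Subgroup.card_eq_iff_eq_top] at h
      exact (h ▸ Subgroup.mem_top c : c ∈ stabilizer G (y : Ω))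
    · intro h1
      rw [(Subgroup.eq_top_iff' (stabilizer G (y : Ω))).2 h1, Subgroup.card_top] at h
      exact (Nat.mul_eq_right Nat.card_pos.ne').1 h
  obtain ⟨m, hm⟩ : ∃ m, m = Nat.card (orbitRel.Quotient G Y) := ⟨_, rfl⟩
  have e := (Finite.equivFinOfCardEq hm.symm).symm
  have h3 : 3 * ∑ ω : orbitRel.Quotient G Y, Nat.card ω.orbit ≤ m * g := by
    rw [mul_sum, hm, Nat.card_eq_fintype_card, ← card_univ, ← smul_eq_mul]
    exact sum_le_card_nsmul _ _ _ fun ω _ => by have := hP ω; omega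
  rw [← hg] at hodd hn ⊢
  rw [← hg, ← hm] at hB
  obtain ⟨k, hk⟩ := hodd
  have hm4 : m ≤ 4 := by
    by_contra hc
    have : 5 * g ≤ m * g := Nat.mul_le_mul_right g (by omega)
    omega
  rw [← e.sum_comp] at hB h3
  have hP' := fun i => hP (e i)
  have hs : ∀ y : Y, ∃ i, Nat.card (e i).orbit = Nat.card (orbit G y) := fun y =>
    ⟨e.symm (Quotient.mk'' y), by rw [e.apply_symm_apply]; rfl⟩
  have hs' : ∀ i, Nat.card (e i).orbit = 3 →
      ∃ y : Ω, g ≤ 3 * Nat.card (stabilizer G y) := fun i hi => by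
    obtain ⟨y, hy⟩ := Quotient.exists_rep (e i)
    refine ⟨y, ?_⟩
    rw [hg, ← hos y, ← hi, ← hy]
    rfl
  obtain ⟨o, ho⟩ : ∃ o : Fin m → ℕ, ∀ i, Nat.card (e i).orbit = o i := ⟨_, fun _ => rfl⟩
  simp only [ho] at hB hP' hs hs'
  have p1 := fun i => (hP' i).1
  have p2 := fun i => (hP' i).2
  have p3 : ∀ i, 3 * o i ≤ g := fun i => by have := p2 i; omega
  clear ho hm h3 hP hP' e
  interval_cases m
  · simp at hB; omega
  · have := p1 0; simp at hB; omega
  · have := p1 0; have := p1 1; rw [Fin.sum_univ_two] at hB; omega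
  · refine .inl fun y hy => (h1 ⟨y, hy⟩).1 ?_
    obtain ⟨i, hi⟩ := hs ⟨y, hy⟩
    have := p1 0; have := p1 1; have := p1 2
    rw [Fin.sum_univ_three] at hB
    have h : ∀ i, o i = 1 := fun i => by fin_cases i <;> simp <;> omega
    rw [← hi, h]
  · rw [Fin.sum_univ_four] at hB
    refine .inr ⟨fun y => ?_, ?_⟩
    · by_contra hc
      push Not at hc
      have : Nontrivial G := Finite.one_lt_card_iff_nontrivial.1 (by omega)
      obtain ⟨c, hc'⟩ := exists_ne (1 : G)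
      obtain ⟨i, hi⟩ := hs ⟨y, c, hc', hc c⟩
      rw [(h1 ⟨y, c, hc', hc c⟩).2 hc] at hi
      have := p3 0; have := p3 1; have := p3 2; have := p3 3
      have h : ∀ i, o i ≠ 1 := fun i => by fin_cases i <;> simp <;> omega
      exact h i hi
    · refine (le_or_gt g 315).imp_right fun hc => ?_
      rcases arith4 (by omega) (p2 0) (p2 1) (p2 2) (p2 3) hc with h | h | h | h <;>
        exact hs' _ h

theorem klein (hodd : Odd (Nat.card G)) (hn : 315 < Nat.card G)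
    (hfix : ∀ g : G, g ≠ 1 → (fixedBy Ω g).ncard = 3) :
    ∃ H : Subgroup G, Nat.card G ≤ 3 * Nat.card H ∧
      ∃ y z : Ω, y ≠ z ∧ ∀ h ∈ H, h • y = y ∧ h • z = z := by
  have key : ∀ H : Subgroup G, Nat.card G ≤ 3 * Nat.card H →
      (∀ y : Ω, (∃ g : H, g ≠ 1 ∧ g • y = y) → ∀ h : H, h • y = y) →
      ∃ y z : Ω, y ≠ z ∧ ∀ h ∈ H, h • y = y ∧ h • z = z := fun H h1 h2 => by
    have : Nontrivial H := Finite.one_lt_card_iff_nontrivial.1 (by omega)
    obtain ⟨c, hc⟩ := exists_ne (1 : H)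
    obtain ⟨y, z, w, hyz, -, -, h⟩ := Set.ncard_eq_three.1 (hfix c fun h => hc (Subtype.ext h))
    have hy : y ∈ fixedBy Ω (c : G) := by simp [h]
    have hz : z ∈ fixedBy Ω (c : G) := by simp [h]
    exact ⟨y, z, hyz, fun g hg => ⟨h2 y ⟨c, hc, hy⟩ ⟨g, hg⟩, h2 z ⟨c, hc, hz⟩ ⟨g, hg⟩⟩⟩
  rcases klein1 hodd (by omega) hfix with h | ⟨-, h | ⟨y, hy⟩⟩
  · refine ⟨⊤, by rw [Subgroup.card_top]; omega, key ⊤ (by rw [Subgroup.card_top]; omega) ?_⟩
    rintro y ⟨g, h1, h2⟩ c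
    exact h y ⟨g, fun h => h1 (Subtype.ext h), h2⟩ c
  · omega
  · refine ⟨_, hy, key _ hy ((klein1 (G := stabilizer G y)
      (hodd.of_dvd_nat (Subgroup.card_subgroup_dvd_card _)) (by omega)
      fun g hg => hfix g fun h => hg (Subtype.ext h)).resolve_right fun h => ?_)⟩
    obtain ⟨c, hc⟩ := h.1 y
    exact hc c.2

end Pool.Agent.MP_9c0e17_co.Sym
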