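import Pool.Agent.MP_9c0e17_co.Drop

/- Matrices stabilising a hyperoval are not perspectivities. -/

set_option autoImplicit false
set_option linter.unusedSectionVars false

namespace Pool.Agent.MP_9c0e17_co.Sym
open IsLocalRing Matrix

section field
variable {F : Type*} [Field F] [Fintype F] [CharP F 2]

lemma rk1 {L : Type*} [Field L] [CharP L 2] (f : F →+* L) {M : Matrix (Fin 3) (Fin 3) F}
    (hM : M.det ≠ 0) {a : L} (h : (a • 1 - M.map f).rank ≤ 1) :
    ∃ ν : F, ν ≠ 0 ∧ ∃ c b : Fin 3 → F, M = ν • 1 + vecMulVec c b := by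
  obtain ⟨⟨v, hv⟩, h⟩ := finrank_le_one_iff.1 h
  choose c hc using fun j => h ⟨_, Pi.single j 1, rfl⟩
  have hN : ∀ i j, (a • 1 - M.map f) i j = c j * v i := fun i j => by
    simpa [one_apply, Pi.single_apply] using (congrFun (congrArg Subtype.val (hc j)) i).symm
  have hm : ∀ i j k l, (a • 1 - M.map f) i j * (a • 1 - M.map f) k l =
      (a • 1 - M.map f) i l * (a • 1 - M.map f) k j := fun i j k l => by simp only [hN]; ring
  obtain ⟨ν, hν⟩ := ex_sqrt (M 0 0 * M 1 1 + M 0 1 * M 1 0 + M 0 0 * M 2 2 + M 0 2 * M 2 0 +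
    M 1 1 * M 2 2 + M 1 2 * M 2 1)
  obtain rfl : a = f ν := by
    have h0 := hm 0 0 1 1
    have h1 := hm 0 0 2 2
    have h2 := hm 1 1 2 2
    have h3 := congrArg f hν
    simp at h0 h1 h2 h3
    exact frobenius_inj L 2 (by simp only [frobenius_def]; grind)
  have hm' : ∀ i j k l, (M - ν • 1) i j * (M - ν • 1) k l = (M - ν • 1) i l * (M - ν • 1) k j :=
    fun i j k l => f.injective (by
      have := hm i j k l
      simp only [Matrix.sub_apply, Matrix.smul_apply, smul_eq_mul, map_apply, map_mul, map_sub,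
        one_apply, apply_ite f, map_one, map_zero] at this ⊢
      linear_combination this)
  refine ⟨ν, ?_, ?_⟩
  · rintro rfl
    simp only [zero_smul, sub_zero] at hm'
    refine hM ?_
    rw [det_fin_three]
    linear_combination M 0 0 * hm' 1 1 2 2 - M 0 1 * hm' 1 0 2 2 + M 0 2 * hm' 1 0 2 1
  · by_cases h0 : M - ν • 1 = 0
    · exact ⟨0, 0, by simpa [sub_eq_zero] using h0⟩
    · obtain ⟨k, hk⟩ := Function.ne_iff.1 h0
      obtain ⟨l, hl⟩ := Function.ne_iff.1 hk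
      refine ⟨fun i => (M - ν • 1) i l / (M - ν • 1) k l, (M - ν • 1) k, ?_⟩
      rw [← sub_eq_iff_eq_add']
      ext i j
      rw [vecMulVec_apply, div_mul_eq_mul_div, eq_div_iff hl, hm']

lemma lin {a c : Fin 3 → F} (ha : a ≠ 0) (hc : c ≠ 0) (N : Matrix (Fin 3) (Fin 3) F)
    (h : ∀ ξ : Fin 3 → F, ξ ≠ 0 → dt a ξ = 0 → ∃ w μ : F, w • c + N *ᵥ ξ = μ • ξ) :
    ∃ u y η : Fin 3 → F, cr u y = a ∧
      ∀ s w μ : F, w • c + N *ᵥ (y + s • u) = μ • (y + s • u) → w = dt η (y + s • u) := by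
  by_cases h0 : dt a c = 0
  · obtain ⟨y, rfl⟩ := ex_cr hc h0
    obtain ⟨z, hz⟩ := ex_det ha
    obtain ⟨w0, μ0, e0⟩ := h c hc h0
    obtain ⟨w1, μ1, e1⟩ := h y (by rintro rfl; exact ha (by apply v3 <;> simp))
      (by simp [dt]; grind)
    refine ⟨c, y, (dt (cr c y) z)⁻¹ • (w1 • cr c z + (μ0 + w0 + μ1) • cr y z), rfl,
      fun s w μ e => ?_⟩
    rw [mulVec_add, mulVec_smul, eq_sub_of_add_eq' e0, eq_sub_of_add_eq' e1] at e
    have k1 := congrArg (dt (cr c z)) e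
    have k2 := congrArg (dt (cr y z)) e
    refine mul_left_cancel₀ hz ?_
    have k3 := mul_inv_cancel₀ hz
    generalize (dt (cr c y) z)⁻¹ = t at *
    simp only [dt, cr0, cr1, cr2, Pi.add_apply, Pi.sub_apply, Pi.smul_apply, smul_eq_mul] at *
    grind
  · obtain ⟨u, y, rfl⟩ := ex_pt ha
    refine ⟨u, y, (dt (cr u y) c)⁻¹ • (cr u y ᵥ* N), rfl, fun s w μ e => ?_⟩
    have k1 := congrArg (dt (cr u y)) e
    have k2 := dt_cr_line u y s
    have k3 := mul_inv_cancel₀ h0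
    generalize (dt (cr u y) c)⁻¹ = t at *
    generalize y + s • u = p at *
    generalize cr u y = a at *
    simp only [dt, Pi.add_apply, Pi.smul_apply, smul_eq_mul, mulVec, vecMul, dotProduct,
      Fin.sum_univ_three] at *
    grind

lemma all_eig {N : Matrix (Fin 3) (Fin 3) F}
    (k : ∀ ξ : Fin 3 → F, ξ ≠ 0 → ∃ μ : F, N *ᵥ ξ = μ • ξ) : ∃ m : F, N = m • 1 := by
  obtain ⟨m0, k0⟩ := k ![1, 0, 0] (by simp)
  obtain ⟨m1, k1⟩ := k ![0, 1, 0] (by simp)
  obtain ⟨m2, k2⟩ := k ![0, 0, 1] (by simp)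
  obtain ⟨m, k3⟩ := k ![1, 1, 1] (by simp)
  refine ⟨m, ?_⟩
  simp only [← Matrix.ext_iff, funext_iff, Fin.forall_fin_succ, mulVec, dotProduct,
    Fin.sum_univ_three] at k0 k1 k2 k3 ⊢
  simp at k0 k1 k2 k3 ⊢
  grind

end field

variable {R : Type*} [CommRing R] [Fintype R] [IsLocalRing R] {r : ℕ} {K : Set (Fin 3 → R)}
  {φ : (Fin 3 → ResidueField R) → Fin 3 → ResidueField R}

lemma two_mul_zero {A : Type*} [CommRing A] [IsLocalRing A] (G : Gal A) {x : A} (h : 2 * x = 0) :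
    residue A x = 0 := G.tw_inj (by rw [G.tw_res, h]; simpa using (G.tw_res 0).symm)

lemma key (D : Dat r K φ) {M : Matrix (Fin 3) (Fin 3) R} (hM : ∀ x ∈ K, M *ᵥ x ∈ K)
    {ν : ResidueField R} (hν : ν ≠ 0) {c a : Fin 3 → ResidueField R}
    (h : M.map (residue R) = ν • 1 + vecMulVec c a) : ∃ N : Matrix (Fin 3) (Fin 3) R,
      M = lf ν • 1 + vecMulVec (fun i => lf (c i)) (fun i => lf (a i)) + (2 : R) • N ∧
      ∀ ξ, ξ ≠ 0 → dt a ξ = 0 → ∃ x ∈ K, (∀ i, residue R (x i) = ξ i) ∧ ∃ w μ : ResidueField R,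
        (fun i => lf (a i)) ⬝ᵥ x = tw w ∧ w • c + N.map (residue R) *ᵥ ξ = μ • ξ := by
  have G := D.G
  choose N hN using fun i j => G.res_zero.1 (show residue R ((M - (lf ν • 1 +
    vecMulVec (fun i => lf (c i)) (fun i => lf (a i)))) i j) = 0 by
      have := congrFun (congrFun h i) j
      simp only [map_apply, Matrix.add_apply, Matrix.smul_apply, smul_eq_mul, vecMulVec_apply,
        Matrix.sub_apply, map_sub, map_add, map_mul, res_lf, one_apply, apply_ite (residue R),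
        map_one, map_zero] at this ⊢
      rw [this, sub_self])
  have hM' : M = lf ν • 1 + vecMulVec (fun i => lf (c i)) (fun i => lf (a i)) +
      (2 : R) • Matrix.of N := by
    rw [← sub_eq_iff_eq_add']; ext i j; exact hN i j
  refine ⟨_, hM', fun ξ h0 h1 => ?_⟩
  obtain ⟨x, hx, hr⟩ := D.H.surj G D.hq ξ h0
  obtain ⟨w, hw⟩ := G.res_zero.1 (show residue R ((fun i => lf (a i)) ⬝ᵥ x) = 0 by
    simpa [dotProduct, Fin.sum_univ_three, hr, dt] using h1)
  have hu : IsUnit (lf ν) := by rw [← residue_ne_zero_iff_isUnit]; simpa using hν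
  have e : M *ᵥ x = lf ν • x + (2 : R) • (w • (fun i => lf (c i)) + Matrix.of N *ᵥ x) := by
    rw [hM', add_mulVec, add_mulVec, smul_mulVec, smul_mulVec, one_mulVec, vecMulVec_mulVec, hw]
    ext i; simp; ring
  obtain ⟨μ, hμ⟩ := D.uniq (D.H.h2 x hx hu.unit) (hM x hx) fun i => by
    simp [e, G.res_two]
  refine ⟨x, hx, hr, residue R w, residue R (μ * lf ν), by rw [hw, G.tw_res], funext fun i => ?_⟩
  have h2 := two_mul_zero G (x := (w • (fun i => lf (c i)) + Matrix.of N *ᵥ x) i -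
    μ * lf ν * x i) (by
      have := congrFun (e.symm.trans hμ) i
      simp only [Pi.add_apply, Pi.smul_apply, smul_eq_mul, IsUnit.unit_spec] at this ⊢
      linear_combination this)
  simpa [mulVec, dotProduct, hr, sub_eq_zero] using h2

lemma nocol (D : Dat r K φ) {a x y z : Fin 3 → R}
    (ha : ∃ i, IsUnit (a i)) (hx : x ∈ K) (hy : y ∈ K) (hz : z ∈ K) (h1 : a ⬝ᵥ x = 0)
    (h2 : a ⬝ᵥ y = 0) (h3 : a ⬝ᵥ z = 0) :
    (∃ u : R, y = u • x) ∨ (∃ u : R, z = u • x) ∨ ∃ u : R, z = u • y := by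
  rcases D.H.col ha hx hy hz h1 h2 h3 with ⟨u, h⟩ | ⟨u, h⟩ | ⟨u, h⟩
  exacts [.inl ⟨u, h.symm⟩, .inr (.inl ⟨u, h.symm⟩), .inr (.inr ⟨u, h.symm⟩)]

theorem scal (D : Dat r K φ) (hr : 2 ≤ r) {M : Matrix (Fin 3) (Fin 3) R}
    (hM : ∀ x ∈ K, M *ᵥ x ∈ K) {ν : ResidueField R} (hν : ν ≠ 0) {c a : Fin 3 → ResidueField R}
    (h : M.map (residue R) = ν • 1 + vecMulVec c a) : ∃ u : Rˣ, M = (u : R) • 1 := by
  classical
  have G := D.G
  have := G.charP
  have : Finite (ResidueField R) := Finite.of_surjective _ residue_surjective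
  have := Fintype.ofFinite (ResidueField R)
  by_cases h0 : a = 0 ∨ c = 0
  · obtain ⟨N, hN, h1⟩ := key D hM hν (c := 0) (a := 0) (by rcases h0 with rfl | rfl <;> simp [h])
    obtain ⟨m, k⟩ := all_eig (N := N.map (residue R)) fun ξ hξ => by
      obtain ⟨x, -, -, w, μ, -, h⟩ := h1 ξ hξ (by simp [dt])
      exact ⟨μ, by simpa using h⟩
    have e : ∀ i j, residue R (N i j) = residue R (lf m * (1 : Matrix (Fin 3) (Fin 3) R) i j) :=
      fun i j => (congrFun (congrFun k i) j).trans (by simp [one_apply, apply_ite (residue R)])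
    obtain ⟨y, hy⟩ := G.res_zero.1 (res_lf (0 : ResidueField R))
    have hu : IsUnit (lf ν + 2 * lf m) := by
      rw [← residue_ne_zero_iff_isUnit]; simpa [G.res_two] using hν
    refine ⟨hu.unit, hN.trans ?_⟩
    ext i j
    have := congrArg tw (e i j)
    rw [G.tw_res, G.tw_res] at this
    simp only [Matrix.add_apply, Matrix.smul_apply, smul_eq_mul, vecMulVec_apply, Pi.zero_apply,
      IsUnit.unit_spec, hy, this]
    linear_combination y ^ 2 * G.h4
  exfalso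
  push Not at h0
  obtain ⟨N, -, h1⟩ := key D hM hν h
  obtain ⟨u, y, η, rfl, h2⟩ := lin h0.1 h0.2 (N.map (residue R)) fun ξ a b => by
    obtain ⟨x, -, -, w, μ, -, h⟩ := h1 ξ a b
    exact ⟨w, μ, h⟩
  have n1 : ∀ s t e : ResidueField R, y + s • u = e • (y + t • u) → s = t := fun s t e h => by
    obtain ⟨z, hz⟩ := ex_det h0.1
    have k1 := congrArg (dt (cr u z)) h
    have k2 := congrArg (dt (cr y z)) h
    refine mul_left_cancel₀ hz ?_
    simp only [dt, cr0, cr1, cr2, Pi.add_apply, Pi.smul_apply, smul_eq_mul] at *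
    grind
  have h3 : ∀ s : ResidueField R, ∃ x ∈ K, (∀ i, residue R (x i) = (y + s • u) i) ∧
      (fun i => lf (cr u y i) + tw (η i)) ⬝ᵥ x = 0 := fun s => by
    obtain ⟨x, hx, hr, w, μ, e1, e2⟩ := h1 (y + s • u) (fun h => one_ne_zero (α := ResidueField R)
      (by simpa using n1 s (s + 1) 0 (by simpa using h))) (dt_cr_line u y s)
    refine ⟨x, hx, hr, ?_⟩
    rw [h2 s w μ e2] at e1
    simp only [dotProduct, Fin.sum_univ_three, add_mul, mul_comm (tw _), G.mul_tw, hr] at e1 ⊢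
    have e3 : tw (dt η (y + s • u)) = _ := (congrArg tw (show _ = (y + s • u) 0 * η 0 +
      (y + s • u) 1 * η 1 + (y + s • u) 2 * η 2 by simp only [dt]; ring)).trans
      (by rw [G.tw_add, G.tw_add])
    have e4 : tw (dt η (y + s • u)) = 2 * lf (dt η (y + s • u)) := rfl
    linear_combination e1 - e3 + 2 * e4 + lf (dt η (y + s • u)) * G.h4
  choose x hx hr' hd using h3
  obtain ⟨ζ, hζ⟩ := ex_notMem ({0, 1} : Finset (ResidueField R)) (by
    have : 2 ^ 2 ≤ 2 ^ r := Nat.pow_le_pow_right (by norm_num) hr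
    rw [Finset.card_pair zero_ne_one, ← Nat.card_eq_fintype_card, D.hq]; omega)
  have n2 : ∀ s t, (∃ e : R, x s = e • x t) → s = t := fun s t ⟨e, he⟩ =>
    n1 s t (residue R e) (funext fun i => by rw [← hr', he, Pi.smul_apply, Pi.smul_apply, ← hr']; simp)
  obtain ⟨i, hi⟩ := Function.ne_iff.1 h0.1
  rcases nocol D ⟨i, by rw [← residue_ne_zero_iff_isUnit]; simpa [G.res_tw] using hi⟩
    (hx 0) (hx 1) (hx ζ) (hd 0) (hd 1) (hd ζ) with h | h | h
  · exact one_ne_zero (n2 _ _ h)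
  · exact hζ (by simp [n2 _ _ h])
  · exact hζ (by simp [n2 _ _ h])

end Pool.Agent.MP_9c0e17_co.Sym
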