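import Mathlib
import Pool.Agent.Mg.F346737.G0ea311

/- Equidistribution of a translated line in a quotient of the unit group. -/

set_option autoImplicit false
set_option linter.unusedSectionVars false

namespace Pool.Agent.MP_9c0e17_co.Sym
open Polynomial Finset Pool.Agent.MP_d232b3_nt Pool.Agent.MP_346737_nt.FF
open scoped Classical

variable {F : Type*} [Field F] [Fintype F]

lemma shift {n : ℕ} {c : F[X]} (hc : c.degree < n) (G : F[X] → ℂ) :
    ∑ f ∈ monF F n, G (f + c) = ∑ f ∈ monF F n, G f := by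
  rw [monF, sum_map, sum_map]
  exact Fintype.sum_equiv (Equiv.addRight ⟨c, mem_degreeLT.2 hc⟩) _ _ fun y =>
    congrArg G (add_assoc (X ^ n) y.1 c)

lemma weil1 {A : Type*} [CommRing A] [Algebra F A] [Fintype A] (τ : A) (κ : ℕ)
    (hs : ∀ r : A, ∃ g : F[X], g.degree < (κ + 1 : ℕ) ∧ aeval τ g = r) (ψ : MulChar A ℂ)
    (hψ : ψ ≠ 1) : ‖∑ t : F, ψ (τ - algebraMap F A t)‖ ≤ κ * √(Fintype.card F : ℝ) := by
  have hr : ∀ f : F[X], rho τ 1 f = aeval τ f := fun f => by
    rw [rho_eq_sum, aeval_eq_sum_range]; simp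
  have hi : IsIntegral F τ := Algebra.IsIntegral.isIntegral τ
  obtain ⟨g, hg⟩ := dvd_iff_isRoot.2 (show ((minpoly F τ).map (algebraMap F A)).IsRoot τ by
    rw [IsRoot, eval_map_algebraMap, minpoly.aeval])
  have hS : Setup τ 1 (minpoly F τ) (-g) := ⟨minpoly.ne_zero hi, by rw [hg, C_1]; ring⟩
  have h1 := weilG hS ψ (κ := κ) (fun m hm => by
    simp only [hr, AA]
    have h1 : ∀ r : A, ∑ f ∈ monF F m, ψ (aeval τ f) = ∑ f ∈ monF F m, ψ (aeval τ f + r) :=
      fun r => by
      obtain ⟨g, h, rfl⟩ := hs r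
      rw [← shift (c := g) (h.trans_le (by exact_mod_cast hm))]
      simp only [map_add]
    have h2 : ∑ _r : A, ∑ f ∈ monF F m, ψ (aeval τ f) = 0 := by
      rw [sum_congr rfl fun r _ => h1 r, sum_comm]
      refine sum_eq_zero fun f _ => ?_
      rw [← MulChar.sum_eq_zero_of_ne_one hψ]
      exact Fintype.sum_equiv (Equiv.addLeft (aeval τ f)) _ _ fun _ => rfl
    rw [sum_const, nsmul_eq_mul, mul_eq_zero] at h2
    exact h2.resolve_left (Nat.cast_ne_zero.2 Fintype.card_ne_zero)) one_ne_zero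
  have hV : VV F 1 = univ.image (algebraMap F (KK F)) := by
    refine (eq_of_subset_of_card_le (fun x hx => ?_) ?_).symm
    · obtain ⟨t, -, rfl⟩ := mem_image.1 hx
      rw [mem_VV one_ne_zero, pow_one, ← map_pow, FiniteField.pow_card]
    · rw [card_VV one_ne_zero, card_image_of_injective _ (algebraMap F (KK F)).injective]
      simp
  rw [SS, hV, sum_image fun _ _ _ _ h => (algebraMap F (KK F)).injective h, pow_one] at h1
  simpa [hr, cc, minpoly.eq_X_sub_C] using h1

lemma equi {A G : Type*} [CommRing A] [Algebra F A] [Fintype A] [CommGroup G] [Finite G] (τ : A)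
    (κ : ℕ) (hs : ∀ r : A, ∃ g : F[X], g.degree < (κ + 1 : ℕ) ∧ aeval τ g = r) (π : Aˣ →* G)
    (hπ : Function.Surjective π) (hu : ∀ t : F, IsUnit (τ - algebraMap F A t))
    (h : (κ * (Nat.card G - 1)) ^ 2 < Fintype.card F) (g : G) : ∃ t : F, π (hu t).unit = g := by
  by_contra hn
  push Not at hn
  have hc := CommGroup.card_monoidHom_of_hasEnoughRootsOfUnity G ℂ
  have : Finite (G →* ℂˣ) := Nat.finite_of_card_ne_zero (by rw [hc]; exact Nat.card_pos.ne')
  have := Fintype.ofFinite (G →* ℂˣ)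
  have h0 : ∀ a : G, a ≠ 1 → ∑ φ : G →* ℂˣ, (φ a : ℂ) = 0 := fun a ha => by
    obtain ⟨χ, hχ⟩ := CommGroup.exists_apply_ne_one_of_hasEnoughRootsOfUnity G ℂ ha
    refine eq_zero_of_mul_eq_self_left (mt Units.val_eq_one.1 hχ) ?_
    rw [mul_sum]
    exact Fintype.sum_bijective _ (Group.mulLeft_bijective χ) _ _ fun χ' => by simp
  have h1 : ∑ φ : G →* ℂˣ, (φ g⁻¹ : ℂ) * ∑ t : F, (φ (π (hu t).unit) : ℂ) = 0 := by
    simp only [mul_sum, ← Units.val_mul, ← map_mul]
    rw [sum_comm]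
    exact sum_eq_zero fun t _ => h0 _ fun h => hn t (inv_mul_eq_one.1 h).symm
  rw [← add_sum_erase _ _ (mem_univ 1), add_eq_zero_iff_eq_neg] at h1
  have h2 := congrArg norm h1
  rw [norm_neg] at h2
  have h3 := h2.trans_le (norm_sum_le_of_le (n := fun _ => κ * √(Fintype.card F : ℝ)) _
    fun φ hφ => by
      have e : ‖(φ g⁻¹ : ℂ)‖ = 1 := by
        have : ‖(φ g⁻¹ : ℂ)‖ ^ Nat.card G = 1 := by
          rw [← norm_pow, ← Units.val_pow_eq_pow_val, ← map_pow, pow_card_eq_one']; simp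
        exact (pow_eq_one_iff_of_nonneg (norm_nonneg _) Nat.card_pos.ne').1 this
      rw [norm_mul, e, one_mul]
      have := weil1 τ κ hs (MulChar.ofUnitHom (φ.comp π)) fun h' => (mem_erase.1 hφ).1 (by
        ext a
        obtain ⟨a, rfl⟩ := hπ a
        have := congrArg (fun χ : MulChar A ℂ => χ a) h'
        simpa using this)
      refine le_of_eq_of_le (congrArg _ (sum_congr rfl fun t _ => ?_)) this
      exact (MulChar.ofUnitHom_coe (φ.comp π) (hu t).unit).symm)
  rw [sum_const, card_erase_of_mem (mem_univ _), card_univ, ← Nat.card_eq_fintype_card, hc,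
    nsmul_eq_mul] at h3
  simp only [MonoidHom.one_apply, Units.val_one, sum_const, card_univ, nsmul_eq_mul, mul_one,
    one_mul, Complex.norm_natCast] at h3
  have h4 : ((κ * (Nat.card G - 1) : ℕ) : ℝ) < √(Fintype.card F : ℝ) :=
    Real.lt_sqrt_of_sq_lt (by exact_mod_cast h)
  have h5 := Real.mul_self_sqrt (Nat.cast_nonneg (α := ℝ) (Fintype.card F))
  have h6 : 0 < √(Fintype.card F : ℝ) := (Nat.cast_nonneg _).trans_lt h4
  push_cast at h4
  nlinarith

variable {E : Type*} [Field E] [Fintype E] [Algebra F E]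

lemma deg3 (h3 : Module.finrank F E = 3) {ω : E} (hω : ∀ t, ω ≠ algebraMap F E t) :
    (minpoly F ω).natDegree = 3 := by
  have hi : IsIntegral F ω := Algebra.IsIntegral.isIntegral ω
  have h1 := minpoly.degree_dvd hi
  rw [h3] at h1
  refine ((Nat.dvd_prime Nat.prime_three).1 h1).resolve_left fun h => ?_
  obtain ⟨t, ht⟩ := (minpoly.natDegree_eq_one_iff).1 h
  exact hω t ht.symm

lemma ind3 (h3 : Module.finrank F E = 3) {ω : E} (hω : ∀ t, ω ≠ algebraMap F E t) {g : F[X]}
    (hg : g.natDegree < 3) (h0 : aeval ω g = 0) : g = 0 := by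
  by_contra h
  have := natDegree_le_of_dvd (minpoly.dvd F ω h0) h
  rw [deg3 h3 hω] at this; omega

lemma surj6 [CharP F 2] (h3 : Module.finrank F E = 3) {ω : E} (hω : ∀ t, ω ≠ algebraMap F E t) :
    ∀ r : E × E, ∃ g : F[X], g.degree < (5 + 1 : ℕ) ∧ aeval (ω, ω + 1) g = r := by
  have : CharP E 2 := charP_of_injective_algebraMap (algebraMap F E).injective 2
  have hω' : ∀ t, ω + 1 ≠ algebraMap F E t := fun t h => hω (t - 1) (by simp [← h])
  have hi : IsIntegral F ω := Algebra.IsIntegral.isIntegral ω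
  have hm : aeval (ω + 1) (minpoly F ω) ≠ 0 := fun h => by
    have h' := minpoly.aeval F ω
    rw [aeval_eq_sum_range, deg3 h3 hω] at h h'
    have hl : (minpoly F ω).coeff 3 = 1 := deg3 h3 hω ▸ (minpoly.monic hi).coeff_natDegree
    simp only [sum_range_succ, range_zero, sum_empty, hl, Algebra.smul_def, map_one] at h h'
    have := ind3 h3 hω (g := X ^ 2 + X + C (1 + (minpoly F ω).coeff 1 + (minpoly F ω).coeff 2))
      (by compute_degree!) (by simp; grind)
    simpa [coeff_X, coeff_one] using congrArg (coeff · 2) this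
  have e : ∀ g : F[X], aeval (ω, ω + 1) g = (aeval ω g, aeval (ω + 1) g) := fun g =>
    Prod.ext (aeval_algHom_apply (AlgHom.fst F E E) _ g).symm
      (aeval_algHom_apply (AlgHom.snd F E E) _ g).symm
  have := (LinearMap.injective_iff_surjective_of_finrank_eq_finrank
    (f := (aeval (ω, ω + 1)).toLinearMap ∘ₗ (degreeLT F 6).subtype) (by
      rw [Module.finrank_prod, h3, (degreeLTEquiv F 6).finrank_eq]; simp)).1
    ((injective_iff_map_eq_zero _).2 fun g hg => by
      obtain ⟨g, hd⟩ := g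
      simp only [LinearMap.comp_apply, Submodule.subtype_apply, AlgHom.toLinearMap_apply, e,
        Prod.mk_eq_zero] at hg
      obtain ⟨k, rfl⟩ := minpoly.dvd F ω hg.1
      by_cases hk : k = 0
      · simp [hk]
      have h1 := (natDegree_lt_iff_degree_lt (mul_ne_zero (minpoly.ne_zero hi) hk)).2
        (mem_degreeLT.1 hd)
      rw [natDegree_mul (minpoly.ne_zero hi) hk, deg3 h3 hω] at h1
      rw [map_mul, map_mul] at hg
      exact absurd (ind3 h3 hω' (by omega) ((mul_eq_zero.1 hg.2).resolve_left hm)) hk)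
  intro r
  obtain ⟨g, hg⟩ := this r
  exact ⟨g.1, mem_degreeLT.1 g.2, hg⟩

theorem cover [CharP F 2] (h3 : Module.finrank F E = 3) (B : Subgroup Eˣ)
    (hB : (5 * (B.index ^ 2 - 1)) ^ 2 < Fintype.card F) {ω : E}
    (hω : ∀ t, ω ≠ algebraMap F E t) (c : Eˣ) : ∃ t : F, ∃ u ∈ B, ∃ v ∈ B,
      (u : E) = c * (ω + algebraMap F E t) ∧ (v : E) = c * (ω + algebraMap F E t + 1) := by
  have : CharP E 2 := charP_of_injective_algebraMap (algebraMap F E).injective 2
  have hω' : ∀ t, ω + 1 ≠ algebraMap F E t := fun t h => hω (t - 1) (by simp [← h])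
  have hs := surj6 h3 hω
  have hu : ∀ t : F, IsUnit ((ω, ω + 1) - algebraMap F (E × E) t) := fun t =>
    Prod.isUnit_iff.2 ⟨(sub_ne_zero.2 (hω t)).isUnit, (sub_ne_zero.2 (hω' t)).isUnit⟩
  obtain ⟨t, ht⟩ := equi (G := (Eˣ ⧸ B) × (Eˣ ⧸ B)) (ω, ω + 1) 5 hs
    (((QuotientGroup.mk' B).prodMap (QuotientGroup.mk' B)).comp MulEquiv.prodUnits.toMonoidHom)
    (((QuotientGroup.mk'_surjective B).prodMap (QuotientGroup.mk'_surjective B)).comp
      MulEquiv.prodUnits.surjective) hu (by rwa [Nat.card_prod, ← sq]) (c⁻¹, c⁻¹)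
  obtain ⟨h1, h2⟩ := Prod.ext_iff.1 ht
  have k1 := QuotientGroup.eq.1 h1.symm
  have k2 := QuotientGroup.eq.1 h2.symm
  refine ⟨t, _, k1, _, k2, ?_, ?_⟩
  · exact congrArg ((c : E) * ·) (CharTwo.sub_eq_add ω _)
  · exact congrArg ((c : E) * ·) ((CharTwo.sub_eq_add (ω + 1) _).trans (add_right_comm _ _ _))

end Pool.Agent.MP_9c0e17_co.Sym
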