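import Pool.Agent.MP_9c0e17_co.SymR
import Pool.Agent.MP_9c0e17_co.SymW

/- Lifting an irreducible projectivity and covering by a cyclotomic sub-arc. -/

set_option autoImplicit false
set_option linter.unusedSectionVars false

namespace Pool.Agent.MP_9c0e17_co.Sym
open IsLocalRing Matrix Polynomial

section field
variable {F : Type*} [Field F] [Fintype F] [CharP F 2]

lemma par {v u : Fin 3 → F} (hv : v ≠ 0) (h : cr v u = 0) : ∃ t : F, u = t • v := by
  obtain ⟨k, hk⟩ := Function.ne_iff.1 hv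
  have h0 := congrFun h 0
  have h1 := congrFun h 1
  have h2 := congrFun h 2
  refine ⟨u k / v k, funext fun i => ?_⟩
  simp at h0 h1 h2 hk
  fin_cases i <;> fin_cases k <;> simp at hk ⊢ <;> field_simp <;> grind

lemma in_range {L : Type*} [Field L] [Algebra F L] {a : L} (h : a ^ Fintype.card F = a) :
    ∃ t, algebraMap F L t = a := by
  classical
  have h1 := FiniteField.X_pow_card_sub_X_ne_zero L (Fintype.one_lt_card (α := F))
  have h2 : Finset.univ.image (algebraMap F L) =
      (X ^ Fintype.card F - X : L[X]).roots.toFinset := by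
    refine Finset.eq_of_subset_of_card_le (fun x hx => ?_) ?_
    · obtain ⟨t, -, rfl⟩ := Finset.mem_image.1 hx
      rw [Multiset.mem_toFinset, mem_roots h1]
      simp [← map_pow, FiniteField.pow_card]
    · rw [Finset.card_image_of_injective _ (algebraMap F L).injective, Finset.card_univ]
      exact (Multiset.toFinset_card_le _).trans ((card_roots' _).trans_eq
        (FiniteField.X_pow_card_sub_X_natDegree_eq L Fintype.one_lt_card))
  have h3 : a ∈ Finset.univ.image (algebraMap F L) := by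
    rw [h2, Multiset.mem_toFinset, mem_roots h1]; simp [h]
  simpa using h3

lemma det_map {A B : Type*} [CommRing A] [CommRing B] (f : A →+* B)
    (M : Matrix (Fin 3) (Fin 3) A) (t : A) : f (t • 1 - M).det = (f t • 1 - M.map f).det := by
  simp [det_fin_three]

lemma adj_map {A B : Type*} [CommRing A] [CommRing B] (f : A →+* B)
    (M : Matrix (Fin 3) (Fin 3) A) (t : A) :
    f (t • 1 - M).adjugate.trace = (f t • 1 - M.map f).adjugate.trace := by
  simp [adjugate_fin_three, trace_fin_three]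

variable {E : Type*} [Field E] [Fintype E] [CharP E 2] (f : F →+* E)
  {M : Matrix (Fin 3) (Fin 3) F} {a : E}

lemma adj_ne (ha : ∀ t, a ≠ f t) : (a • 1 - M.map f).adjugate.trace ≠ 0 := fun h => by
  obtain ⟨ν, hν⟩ := ex_sqrt (M 0 0 * M 1 1 + M 0 1 * M 1 0 + M 0 0 * M 2 2 + M 0 2 * M 2 0 +
    M 1 1 * M 2 2 + M 1 2 * M 2 1)
  have h3 := congrArg f hν
  simp [adjugate_fin_three, trace_fin_three] at h h3
  exact ha ν (frobenius_inj E 2 (by simp only [frobenius_def]; grind))

lemma indep (hM : ∀ t : F, (t • 1 - M).det ≠ 0) (ha : ∀ t, a ≠ f t) {l : Fin 3 → E} (hl : l ≠ 0)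
    (h : l ᵥ* M.map f = a • l) (v : Fin 3 → F) (hv : dt l (fun i => f (v i)) = 0) : v = 0 := by
  by_contra h0
  have k := fun j => congrFun h j
  simp only [vecMul, dotProduct, Fin.sum_univ_three, map_apply, Pi.smul_apply, smul_eq_mul] at k
  have h1 : dt l (fun i => f ((M *ᵥ v) i)) = 0 := by
    simp only [dt, mulVec, dotProduct, Fin.sum_univ_three, map_add, map_mul] at hv ⊢
    linear_combination f (v 0) * k 0 + f (v 1) * k 1 + f (v 2) * k 2 + a * hv
  by_cases hw : cr v (M *ᵥ v) = 0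
  · obtain ⟨t, ht⟩ := par h0 hw
    exact hM t (exists_mulVec_eq_zero_iff.1 ⟨v, h0, by simp [sub_mulVec, smul_mulVec, ht]⟩)
  obtain ⟨u, hu⟩ := par_line hl hv h1
  have e : ∀ i, f (cr v (M *ᵥ v) i) = u * l i := fun i => by
    rw [← smul_eq_mul, ← Pi.smul_apply, ← hu]; fin_cases i <;> simp
  obtain ⟨i, hi⟩ := Function.ne_iff.1 hw
  generalize cr v (M *ᵥ v) = w at *
  refine ha ((w 0 * M 0 i + w 1 * M 1 i + w 2 * M 2 i) / w i) ?_
  rw [map_div₀, eq_div_iff ((_root_.map_ne_zero f).2 hi)]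
  simp only [map_add, map_mul, e]
  linear_combination (-u) * k i

end field

lemma lift {T : Type*} [CommRing T] [IsLocalRing T] (G : Gal T) (M : Matrix (Fin 3) (Fin 3) T)
    {a : ResidueField T} (h0 : (a • 1 - M.map (residue T)).det = 0)
    (h1 : (a • 1 - M.map (residue T)).adjugate.trace ≠ 0) : ∃ (μ : T) (l : Fin 3 → T),
      residue T μ = a ∧ l ᵥ* M = μ • l ∧ (fun i => residue T (l i)) ≠ 0 := by
  obtain ⟨m, rfl⟩ := residue_surjective a
  obtain ⟨z, hz⟩ := G.res_zero.1 ((det_map _ M m).trans h0)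
  obtain ⟨u, hu⟩ := (residue_ne_zero_iff_isUnit _).1 ((adj_map _ M m).trans_ne h1)
  have h2 : residue T (m - 2 * z * (u⁻¹ : Tˣ)) = residue T m := by simp [G.res_two]
  have h3 : ((m - 2 * z * (u⁻¹ : Tˣ)) • 1 - M).det = 0 := by
    have h4 := u.mul_inv
    generalize ((u⁻¹ : Tˣ) : T) = w at *
    simp [det_fin_three, adjugate_fin_three, trace_fin_three] at hz hu ⊢
    linear_combination hz + 2 * z * w * hu - 2 * z * h4 +
      (z ^ 2 * w ^ 2 * (3 * m - M 0 0 - M 1 1 - M 2 2) - 2 * z ^ 3 * w ^ 3) * G.h4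
  rw [← h2, ← adj_map] at h1
  generalize m - 2 * z * (u⁻¹ : Tˣ) = μ at *
  obtain ⟨i, hi⟩ : ∃ i, residue T ((μ • 1 - M).adjugate i i) ≠ 0 := by
    by_contra h
    push Not at h
    exact h1 (by simp [trace_fin_three, h])
  refine ⟨μ, (μ • 1 - M).adjugate i, h2, ?_, Function.ne_iff.2 ⟨i, hi⟩⟩
  have h4 := congrFun (adjugate_mul (μ • 1 - M)) i
  rw [h3, zero_smul, Matrix.mul_sub, Matrix.mul_smul, Matrix.mul_one] at h4
  exact (sub_eq_zero.1 h4).symm

lemma index_le {H : Type*} [CommGroup H] [Finite H] {A B : Subgroup H} (h : A ≤ B) {m : H}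
    (hm : m ∈ B) {k : ℕ} (hk : ∀ j, m ^ j ∈ A → k ∣ j) : B.index * k ≤ A.index := by
  have h1 := Nat.le_of_dvd (orderOf_pos _) (hk (orderOf (QuotientGroup.mk' A m))
    ((QuotientGroup.eq_one_iff _).1 (pow_orderOf_eq_one (QuotientGroup.mk' A m))))
  have h2 := Nat.le_of_dvd Nat.card_pos
    (Subgroup.orderOf_dvd_natCard _ (Subgroup.mem_map_of_mem (QuotientGroup.mk' A) hm))
  rw [← B.index_map_eq (QuotientGroup.mk'_surjective A) (by rwa [QuotientGroup.ker_mk'])]
  exact (Nat.mul_le_mul_left _ (h1.trans h2)).trans_eq (Subgroup.index_mul_card _)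

variable {R : Type*} [CommRing R] [Fintype R] [IsLocalRing R] {r : ℕ} {K : Set (Fin 3 → R)}
  {φ : (Fin 3 → ResidueField R) → Fin 3 → ResidueField R}
  {T : Type*} [CommRing T] [IsLocalRing T] [Algebra R T] [IsLocalHom (algebraMap R T)]
  [Fintype (ResidueField R)] [Fintype (ResidueField T)]

lemma rs (c : R) (x : T) :
    residue T (c • x) = algebraMap _ _ (residue R c) * residue T x := by
  rw [Algebra.smul_def, map_mul, ResidueField.algebraMap_residue]

lemma half (G : Gal R) (y : Fin 3 → R) (h : ∀ i, residue R (y i) = 0) : ∃ z, y = (2 : R) • z := by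
  choose z hz using fun i => G.res_zero.1 (h i)
  exact ⟨z, funext hz⟩

lemma two (x : T) : (2 : R) • x = 2 * x := by rw [Algebra.smul_def, map_ofNat]

lemma lam_inj (G : Gal R) (G' : Gal T) {Λ : (Fin 3 → R) →ₗ[R] T}
    (hl : ∀ y, residue T (Λ y) = 0 → ∀ i, residue R (y i) = 0) : Function.Injective Λ :=
  (injective_iff_map_eq_zero _).2 fun y hy => by
    obtain ⟨z, rfl⟩ := half G y (hl y (by rw [hy, map_zero]))
    rw [map_smul, two] at hy
    obtain ⟨w, rfl⟩ := half G z (hl z (two_mul_zero G' hy))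
    rw [smul_smul, show (2 : R) * 2 = 0 by linear_combination G.h4, zero_smul]

lemma lam_eqv (G : Gal R) (G' : Gal T) (Λ : (Fin 3 → R) →ₗ[R] T) (x y : Fin 3 → R) (c : R)
    (h : ∀ i, residue R (y i) = residue R c * residue R (x i)) :
    residue T (Λ y) = algebraMap _ _ (residue R c) * residue T (Λ x) := by
  obtain ⟨z, hz⟩ := half G (y - c • x) fun i => by simp [h]
  have := congrArg (fun w => residue T (Λ w)) hz
  simpa [two, G'.res_two, rs, sub_eq_zero] using this

theorem step (G : Gal R) (G' : Gal T) (h1 : ∀ x ∈ K, ∃ i, IsUnit (x i))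
    (hcol : ∀ a x y z : Fin 3 → R, (∃ i, IsUnit (a i)) → x ∈ K → y ∈ K → z ∈ K → a ⬝ᵥ x = 0 →
      a ⬝ᵥ y = 0 → a ⬝ᵥ z = 0 → (∃ u : R, y = u • x) ∨ (∃ u : R, z = u • x) ∨ ∃ u : R, z = u • y)
    (h3 : Module.finrank (ResidueField R) (ResidueField T) = 3) (Λ : (Fin 3 → R) →ₗ[R] T)
    (hl : ∀ y, residue T (Λ y) = 0 → ∀ i, residue R (y i) = 0) (B : Set (ResidueField T)ˣ)
    (hB : ∀ p ∈ B, ∃ x ∈ K, Λ x = sq' (p : ResidueField T))
    (hcov : ∀ ω : ResidueField T, (∀ t, ω ≠ algebraMap (ResidueField R) _ t) →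
      ∀ c : (ResidueField T)ˣ, ∃ t : ResidueField R, ∃ u ∈ B, ∃ v ∈ B,
        (u : ResidueField T) = c * (ω + algebraMap _ _ t) ∧
        (v : ResidueField T) = c * (ω + algebraMap _ _ t + 1)) :
    ∀ x ∈ K, ∃ (u : Rˣ) (p : ResidueField T), p ≠ 0 ∧ Λ x = (u : R) • sq' p := by
  have := G.charP
  have := G'.charP
  have inj := lam_inj G G' hl
  have eqv := lam_eqv G G' Λ
  intro x hx
  obtain ⟨p, hp⟩ := ex_sqrt (residue T (Λ x))
  have hp0 : p ≠ 0 := by
    rintro rfl
    obtain ⟨i, hi⟩ := h1 x hx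
    exact (residue_ne_zero_iff_isUnit _).2 hi (hl x (by simp [← hp]) i)
  obtain ⟨v, hv⟩ := G'.decomp _ hp.symm
  obtain ⟨ω, rfl⟩ : ∃ ω, v = p ^ 2 * ω := ⟨v / p ^ 2, by field_simp⟩
  rw [← res_sq, ← G'.mul_tw] at hv
  by_cases hω : ∃ t, ω = algebraMap (ResidueField R) _ t
  · obtain ⟨t, rfl⟩ := hω
    obtain ⟨t, rfl⟩ := residue_surjective t
    have hu : IsUnit (1 + 2 * t) := by rw [← residue_ne_zero_iff_isUnit]; simp [G.res_two]
    refine ⟨hu.unit, p, hp0, ?_⟩
    rw [hv, ResidueField.algebraMap_residue, G'.tw_res, IsUnit.unit_spec, Algebra.smul_def]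
    simp only [map_add, map_mul, map_one, map_ofNat]
    ring
  exfalso
  push Not at hω
  obtain ⟨t, u, hu, v, hv', e1, e2⟩ := hcov ω hω (Units.mk0 p hp0)
  obtain ⟨x1, hx1, k1⟩ := hB u hu
  obtain ⟨x2, hx2, k2⟩ := hB v hv'
  rw [e1, Units.val_mk0] at k1
  rw [e2, Units.val_mk0] at k2
  have hs : ∀ c, ω + algebraMap (ResidueField R) _ t ≠ algebraMap (ResidueField R) _ c :=
    fun c h => hω (c - t) (by rw [map_sub, ← h]; ring)
  have hs' : ∀ c, ω + algebraMap (ResidueField R) _ t + 1 ≠ algebraMap (ResidueField R) _ c :=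
    fun c h => hs (c - 1) (by rw [map_sub, ← h, map_one]; ring)
  have e : x = (3 + 2 * lf t) • x1 + (1 + 2 * lf t) • x2 := by
    apply inj
    obtain ⟨P, rfl⟩ := residue_surjective p
    obtain ⟨W, rfl⟩ := residue_surjective ω
    rw [← res_lf t, ResidueField.algebraMap_residue, ← map_add] at k1 k2
    rw [← map_one (residue T), ← map_add] at k2
    rw [← map_mul, G'.sq_res] at k1 k2
    rw [map_add, map_smul, map_smul, k1, k2, hv, G'.sq_res, G'.tw_res, Algebra.smul_def,
      Algebra.smul_def]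
    simp only [map_add, map_mul, map_one, map_ofNat]
    generalize algebraMap R T (lf t) = τ
    linear_combination (-P ^ 2 * ((1 + τ) * (W + τ) ^ 2 + τ * (W + τ) + τ)) * G'.h4
  have q1 : ∀ (s : ResidueField T) (c d : ResidueField R),
      (∀ c, s ≠ algebraMap (ResidueField R) _ c) →
      algebraMap (ResidueField R) _ d * s ^ 2 + 1 ≠ algebraMap (ResidueField R) _ c * s ^ 2 :=
    fun s c d h h' => by
      have := ind3 h3 h (g := C (d - c) * X ^ 2 + 1) (by compute_degree!)
        (by simp; linear_combination h')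
      simpa using congrArg (coeff · 0) this
  have r1 := congrArg (residue T) k1
  have r2 := congrArg (residue T) k2
  rw [res_sq] at r1 r2
  have hp2 := pow_ne_zero 2 hp0
  have n12 : ∀ c : R, ¬∀ i, residue R (x2 i) = residue R c * residue R (x1 i) := fun c h =>
    q1 _ (residue R c) 1 hs (mul_left_cancel₀ hp2 (by
      have := eqv _ _ c h
      rw [r1, r2] at this
      rw [map_one]; grind))
  have hx1' : (fun i => residue R (x1 i)) ≠ 0 := fun h => by
    obtain ⟨i, hi⟩ := h1 x1 hx1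
    exact (residue_ne_zero_iff_isUnit _).2 hi (congrFun h i)
  have ha : ∃ i, IsUnit ((x1 ⨯₃ x2) i) := by
    by_contra h
    simp only [not_exists, ← residue_ne_zero_iff_isUnit, not_not] at h
    obtain ⟨c, hc⟩ := par (u := fun i => residue R (x2 i)) hx1' (by
      have h0 := h 0
      have h1 := h 1
      have h2 := h 2
      simp only [cross_apply, cons_val_zero, cons_val_one, cons_val, map_sub, map_mul,
        CharTwo.sub_eq_add] at h0 h1 h2
      apply v3 <;> simpa)
    exact n12 (lf c) fun i => by simpa using congrFun hc i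
  rcases hcol _ _ _ _ ha hx1 hx2 hx (by rw [dotProduct_comm, dot_self_cross])
    (by rw [dotProduct_comm, dot_cross_self]) (by
      rw [e, dotProduct_comm, add_dotProduct, smul_dotProduct, smul_dotProduct, dot_self_cross,
        dot_cross_self]; simp) with ⟨c, h⟩ | ⟨c, h⟩ | ⟨c, h⟩
  · exact n12 c fun i => by simp [h]
  · refine q1 _ (residue R c) 0 hs (mul_left_cancel₀ hp2 ?_)
    have := eqv x1 x c fun i => by simp [h]
    rw [r1, ← hp] at this
    rw [map_zero]; grind
  · refine q1 _ (residue R c) 0 hs' (mul_left_cancel₀ hp2 ?_)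
    have := eqv x2 x c fun i => by simp [h]
    rw [r2, ← hp] at this
    rw [map_zero]; grind

theorem model (D : Dat r K φ) (G' : Gal T) (b : Module.Basis (Fin 3) R T)
    (hQ : Fintype.card (ResidueField T) = 8 ^ r)
    (h3 : Module.finrank (ResidueField R) (ResidueField T) = 3) (Λ : (Fin 3 → R) →ₗ[R] T)
    (hl : ∀ y, residue T (Λ y) = 0 → ∀ i, residue R (y i) = 0) (B : Subgroup (ResidueField T)ˣ)
    (hB : ∀ p ∈ B, ∃ x ∈ K, Λ x = sq' (p : ResidueField T))
    (hi : (5 * (B.index ^ 2 - 1)) ^ 2 < Fintype.card (ResidueField R)) :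
    ∃ M : Matrix (Fin 3) (Fin 3) R, IsUnit M.det ∧ K = M.mulVec ''
      {y | ∃ (u : Rˣ) (x : T), x ^ (8 ^ r - 1) = 1 ∧ y = b.equivFun ((u : R) • x)} := by
  have G := D.G
  have := G.charP
  have := G'.charP
  have inj := lam_inj G G' hl
  have eqv := lam_eqv G G' Λ
  have step := step G G' D.H.h1 (fun _ _ _ _ => nocol D) h3 Λ hl B hB fun _ => cover h3 B hi
  have : Finite T := Finite.of_equiv _ b.equivFun.toEquiv.symm
  let e := LinearEquiv.ofBijective Λ (inj.bijective_of_nat_card_le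
    (Nat.card_congr b.equivFun.toEquiv).le)
  refine ⟨LinearMap.toMatrix' (b.equivFun.symm.trans e.symm).toLinearMap, by
    rw [LinearMap.det_toMatrix']; exact LinearEquiv.isUnit_det' _, Set.ext fun y => ?_⟩
  have hM : ∀ z : T, LinearMap.toMatrix' (b.equivFun.symm.trans e.symm).toLinearMap *ᵥ
      b.equivFun z = y ↔ Λ y = z := fun z => by
    rw [LinearMap.toMatrix'_mulVec]
    simp only [LinearEquiv.coe_coe, LinearEquiv.trans_apply, LinearEquiv.symm_apply_apply,
      LinearEquiv.symm_apply_eq]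
    exact eq_comm
  constructor
  · intro hy
    obtain ⟨u, p, hp, h⟩ := step y hy
    refine ⟨_, ⟨u, sq' p, ?_, rfl⟩, (hM _).2 h⟩
    obtain ⟨z, hz⟩ := residue_surjective p
    rw [← hz, G'.sq_res, ← pow_mul, pow_mul', ← G'.sq_res, map_pow, hz, ← hQ,
      FiniteField.pow_card_sub_one_eq_one _ hp]
    simpa using G'.sq_res 1
  · rintro ⟨_, ⟨u, x, hx, rfl⟩, hy⟩
    rw [hM] at hy
    have hr := D.hr
    have h8 : 8 ^ r = 2 * (4 * 8 ^ (r - 1)) := by
      rw [← mul_assoc, show 2 * 4 = 8 by rfl, ← pow_succ']; congr 1; omega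
    have hx1 : x = sq' (residue T (x ^ (4 * 8 ^ (r - 1)))) := by
      rw [G'.sq_res, ← pow_mul', ← h8, ← Nat.sub_add_cancel (Nat.one_le_pow r 8 (by norm_num)),
        pow_succ, hx, one_mul]
    have hxu : IsUnit x := IsUnit.of_pow_eq_one hx
      (Nat.sub_ne_zero_of_lt (Nat.one_lt_pow (by omega) (by norm_num)))
    generalize residue T (x ^ (4 * 8 ^ (r - 1))) = p at hx1
    have hu : ∀ u : Rˣ, residue R u ≠ 0 := fun u => (residue_ne_zero_iff_isUnit _).2 u.isUnit
    obtain ⟨z, hz, hr⟩ := D.H.surj G D.hq (fun i => residue R (y i)) fun h => by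
      have := eqv y y 0 fun i => by simpa using congrFun h i
      rw [hy, rs, map_zero, map_zero, zero_mul, mul_eq_zero, map_eq_zero] at this
      exact this.elim (hu u) ((residue_ne_zero_iff_isUnit _).2 hxu)
    obtain ⟨u', p', -, h⟩ := step z hz
    have h1 := eqv y z 1 fun i => by simp [hr]
    rw [h, hy, hx1, rs, rs, res_sq, res_sq, map_one, map_one, one_mul] at h1
    obtain ⟨c, hc⟩ := ex_sqrt (residue R u' / residue R u)
    obtain ⟨c, rfl⟩ := residue_surjective c
    have hc0 : IsUnit c := by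
      rw [← residue_ne_zero_iff_isUnit]
      intro h0
      rw [h0, zero_pow two_ne_zero] at hc
      exact div_ne_zero (hu u') (hu u) hc.symm
    have h2 : p = residue T (algebraMap R T c) * p' := frobenius_inj _ 2 (by
      simp only [frobenius_def]
      rw [mul_pow, ← ResidueField.algebraMap_residue, ← map_pow, hc, map_div₀, div_mul_eq_mul_div,
        h1, mul_div_cancel_left₀ _ ((_root_.map_ne_zero _).2 (hu u))])
    have h4 : y = ((u * hc0.unit ^ 2 * u'⁻¹ : Rˣ) : R) • z := by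
      apply inj
      rw [hy, hx1, h2, G'.sq_mul, G'.sq_res, map_smul, h, smul_smul, ← map_pow, ← Algebra.smul_def,
        smul_smul]
      simp
    exact h4 ▸ D.H.h2 z hz _

end Pool.Agent.MP_9c0e17_co.Sym
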